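import Mathlib

/-!
# The forms `(x^(2m) + z^(2m)) (x^(2m) + 2 x^m z^m + 3 z^(2m))`: arithmetic modulo a prime
-/

set_option autoImplicit false

namespace Pool.Agent.Helper47.GX

open Polynomial

section field

variable {k : Type*} [Field k]

/-- if `2` is no fourth power, then `x^(2m) + 2 x^m + 3` takes no square values at the zeros of `x^(2m) + 1` -/
theorem nonsq1 {t : k} (ht : t ^ 8 = -1) (h2 : ∀ u : k, u ^ 4 ≠ 2) {b : k} {m : ℕ}
    (hb : b ^ (2 * m) + 1 = 0) : ¬ IsSquare (b ^ (2 * m) + 2 * b ^ m + 3) := by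
  have ht0 : t ≠ 0 := by
    rintro rfl
    norm_num at ht
  set i := b ^ m with hi
  have hi2 : i ^ 2 = -1 := by
    rw [hi, ← pow_mul, mul_comm m 2]
    linear_combination hb
  have hb2 : b ^ (2 * m) = -1 := by linear_combination hb
  rintro ⟨e, he⟩
  rw [hb2] at he
  -- `i` is a fourth power
  obtain ⟨s, hs⟩ : ∃ s : k, s ^ 4 = i := by
    have h1 : (i - t ^ 4) * (i + t ^ 4) = 0 := by
      linear_combination hi2 - ht
    rcases mul_eq_zero.1 h1 with h | h
    · exact ⟨t, by linear_combination -h⟩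
    · exact ⟨t ^ 3, by linear_combination t ^ 4 * ht - h⟩
  have hs0 : s ≠ 0 := by
    rintro rfl
    rw [zero_pow (by norm_num)] at hs
    rw [← hs] at hi2
    norm_num at hi2
  -- `q^2 = 2`
  set q := t ^ 2 - t ^ 6 with hq
  have hq2 : q ^ 2 = 2 := by
    rw [hq]
    linear_combination (t ^ 4 - 2) * ht
  have hq0 : q ≠ 0 := by
    intro h
    rw [h, zero_pow (by norm_num)] at hq2
    exact h2 0 (by rw [zero_pow (by norm_num)]; exact hq2)
  refine h2 (e / (s * q)) ?_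
  have h3 : (s * q) ^ 4 ≠ 0 := pow_ne_zero _ (mul_ne_zero hs0 hq0)
  rw [div_pow, div_eq_iff h3, mul_pow, hs, show q ^ 4 = (q ^ 2) ^ 2 by ring, hq2,
    show e ^ 4 = (e * e) ^ 2 by ring, ← he]
  linear_combination 4 * hi2

/-- if `2` is no fourth power, then `x^(2m) + 1` takes no square values at the zeros of
`x^(2m) + 2 x^m + 3` -/
theorem nonsq2 {t : k} (ht : t ^ 8 = -1) (h2 : ∀ u : k, u ^ 4 ≠ 2) {b : k} {m : ℕ}
    (hb : b ^ (2 * m) + 2 * b ^ m + 3 = 0) : ¬ IsSquare (b ^ (2 * m) + 1) := by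
  have ht0 : t ≠ 0 := by
    rintro rfl
    norm_num at ht
  set i := b ^ m with hi
  have hb2 : b ^ (2 * m) = i ^ 2 := by rw [hi, ← pow_mul, mul_comm m 2]
  rw [hb2] at hb
  rintro ⟨e, he⟩
  rw [hb2] at he
  set q := t ^ 2 - t ^ 6 with hq
  have hq2 : q ^ 2 = 2 := by
    rw [hq]
    linear_combination (t ^ 4 - 2) * ht
  have hq0 : q ≠ 0 := by
    intro h
    rw [h, zero_pow (by norm_num)] at hq2
    exact h2 0 (by rw [zero_pow (by norm_num)]; exact hq2)
  refine h2 (e / (t ^ 2 * q)) ?_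
  have h3 : (t ^ 2 * q) ^ 4 ≠ 0 := pow_ne_zero _ (mul_ne_zero (pow_ne_zero _ ht0) hq0)
  rw [div_pow, div_eq_iff h3, mul_pow, show (t ^ 2) ^ 4 = t ^ 8 by ring, ht,
    show q ^ 4 = (q ^ 2) ^ 2 by ring, hq2,
    show e ^ 4 = (e * e) ^ 2 by ring, ← he]
  linear_combination (i ^ 2 - 2 * i + 3) * hb

end field

section ring

variable {R : Type*} [CommRing R]

/-- `(x - a)^(2m) + b^(2m)` -/
noncomputable def P1 (m : ℕ) (a b : R) : R[X] := (X - C a) ^ (2 * m) + C (b ^ (2 * m))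

/-- `(x - a)^(2m) + 2 b^m (x - a)^m + 3 b^(2m)` -/
noncomputable def P2 (m : ℕ) (a b : R) : R[X] :=
  (X - C a) ^ (2 * m) + (C (2 * b ^ m) * (X - C a) ^ m + C (3 * b ^ (2 * m)))

theorem map_P1 {S : Type*} [CommRing S] (φ : R →+* S) (m : ℕ) (a b : R) :
    (P1 m a b).map φ = P1 m (φ a) (φ b) := by
  simp [P1]

theorem map_P2 {S : Type*} [CommRing S] (φ : R →+* S) (m : ℕ) (a b : R) :
    (P2 m a b).map φ = P2 m (φ a) (φ b) := by
  have h2 : φ 2 = 2 := map_ofNat φ 2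
  have h3 : φ 3 = 3 := map_ofNat φ 3
  simp [P2, h2, h3]

theorem eval_P1 (m : ℕ) (a b x : R) : (P1 m a b).eval x = (x - a) ^ (2 * m) + b ^ (2 * m) := by
  simp [P1]

theorem eval_P2 (m : ℕ) (a b x : R) : (P2 m a b).eval x =
    (x - a) ^ (2 * m) + 2 * b ^ m * (x - a) ^ m + 3 * b ^ (2 * m) := by
  simp [P2]
  ring

theorem natDegree_pow [Nontrivial R] (a : R) (n : ℕ) : ((X - C a) ^ n).natDegree = n := by
  rw [(monic_X_sub_C a).natDegree_pow, natDegree_X_sub_C, mul_one]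

theorem monic_P1 [Nontrivial R] {m : ℕ} (hm : 0 < m) (a b : R) : (P1 m a b).Monic := by
  refine ((monic_X_sub_C a).pow (2 * m)).add_of_left ?_
  refine lt_of_le_of_lt degree_C_le ?_
  rw [degree_eq_natDegree ((monic_X_sub_C a).pow (2 * m)).ne_zero, natDegree_pow]
  exact_mod_cast (by omega : 0 < 2 * m)

theorem lt_P2 [Nontrivial R] {m : ℕ} (hm : 0 < m) (a b : R) :
    (C (2 * b ^ m) * (X - C a) ^ m + C (3 * b ^ (2 * m))).natDegree <
      ((X - C a : R[X]) ^ (2 * m)).natDegree := by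
  rw [natDegree_pow]
  refine lt_of_le_of_lt (natDegree_add_le _ _) (max_lt ?_ ?_)
  · refine lt_of_le_of_lt (natDegree_C_mul_le _ _) ?_
    rw [natDegree_pow]
    omega
  · rw [natDegree_C]
    omega

theorem monic_P2 [Nontrivial R] {m : ℕ} (hm : 0 < m) (a b : R) : (P2 m a b).Monic :=
  ((monic_X_sub_C a).pow (2 * m)).add_of_left (degree_lt_degree (lt_P2 hm a b))

theorem natDegree_P1 [Nontrivial R] {m : ℕ} (hm : 0 < m) (a b : R) : (P1 m a b).natDegree = 2 * m := by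
  rw [P1, natDegree_add_eq_left_of_natDegree_lt, natDegree_pow]
  rw [natDegree_pow, natDegree_C]
  omega

theorem natDegree_P2 [Nontrivial R] {m : ℕ} (hm : 0 < m) (a b : R) : (P2 m a b).natDegree = 2 * m := by
  rw [P2, natDegree_add_eq_left_of_natDegree_lt (lt_P2 hm a b), natDegree_pow]

theorem isUnit_C {c : R} (hc : IsUnit c) : IsUnit (C c : R[X]) := hc.map C

theorem sep_P1 {m : ℕ} (hm : 0 < m) {a b : R} (h2 : IsUnit (2 : R)) (hmu : IsUnit (m : R)) (hb : IsUnit b) :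
    (P1 m a b).Separable := by
  have hu : IsUnit (C (2 * (m : R) * b ^ (2 * m)) : R[X]) := isUnit_C ((h2.mul hmu).mul (hb.pow _))
  obtain ⟨v, hv⟩ := hu.exists_left_inv
  have hd : derivative (P1 m a b) = C (2 * (m : R)) * (X - C a) ^ (2 * m - 1) := by
    rw [P1, derivative_add, derivative_C, add_zero, derivative_X_sub_C_pow]
    simp
  have hx : (X - C a) * (X - C a) ^ (2 * m - 1) = (X - C a) ^ (2 * m) := by
    rw [← pow_succ', Nat.sub_add_cancel (by omega)]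
  rw [separable_def']
  refine ⟨v * C (2 * (m : R)), -(v * (X - C a)), ?_⟩
  rw [hd, ← hv]
  have h1 : (X - C a) * (C (2 * (m : R)) * (X - C a) ^ (2 * m - 1)) =
      C (2 * (m : R)) * (X - C a) ^ (2 * m) := by rw [mul_left_comm, hx]
  have h2 : P1 m a b = (X - C a) ^ (2 * m) + C (b ^ (2 * m)) := rfl
  have h3 : (C (2 * (m : R) * b ^ (2 * m)) : R[X]) = C (2 * (m : R)) * C (b ^ (2 * m)) := by rw [← C_mul]
  rw [h3]
  linear_combination (v * C (2 * (m : R))) * h2 - v * h1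

theorem sep_P2 {m : ℕ} (hm : 0 < m) {a b : R} (h2 : IsUnit (2 : R)) (h3 : IsUnit (3 : R))
    (hmu : IsUnit (m : R)) (hb : IsUnit b) : (P2 m a b).Separable := by
  have hu : IsUnit (C (12 * (m : R) * (b ^ m) ^ 3) : R[X]) := by
    have h12 : IsUnit (12 : R) := by
      have : (12 : R) = 2 * (2 * 3) := by norm_num
      rw [this]
      exact h2.mul (h2.mul h3)
    exact isUnit_C ((h12.mul hmu).mul ((hb.pow _).pow _))
  obtain ⟨v, hv⟩ := hu.exists_left_inv
  set Y : R[X] := (X - C a) ^ m with hY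
  set B : R[X] := C (b ^ m) with hB
  have hd : (X - C a) * derivative (P2 m a b) = C (2 * (m : R)) * (Y ^ 2 + B * Y) := by
    have e1 : (X - C a) * (X - C a) ^ (2 * m - 1) = Y ^ 2 := by
      rw [← pow_succ', Nat.sub_add_cancel (by omega), hY, ← pow_mul, mul_comm 2 m]
    have e2 : (X - C a) * (X - C a) ^ (m - 1) = Y := by
      rw [← pow_succ', Nat.sub_add_cancel (by omega)]
    rw [P2, derivative_add, derivative_add, derivative_C, add_zero, derivative_X_sub_C_pow,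
      derivative_C_mul, derivative_X_sub_C_pow]
    have e3 : ((2 * m : ℕ) : R) = 2 * (m : R) := by push_cast; ring
    rw [e3]
    have e4 : (C (2 * b ^ m) : R[X]) = C 2 * B := by rw [hB, ← C_mul]
    have e5 : (C (2 * (m : R)) : R[X]) = C 2 * C (m : R) := by rw [← C_mul]
    rw [e4, e5]
    linear_combination (C 2 * C (m : R)) * e1 + (C 2 * B * C (m : R)) * e2
  have hP : P2 m a b = Y ^ 2 + 2 * B * Y + 3 * B ^ 2 := by
    rw [P2, hY, hB, ← pow_mul, mul_comm m 2, ← C_pow, ← pow_mul, mul_comm m 2, C_mul, C_mul,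
      map_ofNat, map_ofNat]
    ring
  have hc : (C (12 * (m : R) * (b ^ m) ^ 3) : R[X]) = 12 * C (m : R) * B ^ 3 := by
    rw [hB, C_mul, C_mul, C_pow, map_ofNat]
  have hc2 : (C (2 * (m : R)) : R[X]) = 2 * C (m : R) := by rw [C_mul, map_ofNat]
  rw [separable_def']
  refine ⟨-(v * (2 * C (m : R)) * (Y - 2 * B)), v * (Y - B) * (X - C a), ?_⟩
  rw [← hv, hc, mul_assoc (v * (Y - B)), hd, hP, hc2]
  ring

theorem coprime_P {m : ℕ} {a b : R} (h2 : IsUnit (2 : R)) (hb : IsUnit b) :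
    IsCoprime (P1 m a b) (P2 m a b) := by
  have hu : IsUnit (C (4 * (b ^ m) ^ 3) : R[X]) := by
    have h4 : IsUnit (4 : R) := by
      have : (4 : R) = 2 * 2 := by norm_num
      rw [this]
      exact h2.mul h2
    exact isUnit_C (h4.mul ((hb.pow _).pow _))
  obtain ⟨v, hv⟩ := hu.exists_left_inv
  set Y : R[X] := (X - C a) ^ m with hY
  set B : R[X] := C (b ^ m) with hB
  have hP : P2 m a b = Y ^ 2 + 2 * B * Y + 3 * B ^ 2 := by
    rw [P2, hY, hB, ← pow_mul, mul_comm m 2, ← C_pow, ← pow_mul, mul_comm m 2, C_mul, C_mul,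
      map_ofNat, map_ofNat]
    ring
  have hP1 : P1 m a b = Y ^ 2 + B ^ 2 := by
    rw [P1, hY, hB, ← pow_mul, mul_comm m 2, ← C_pow, ← pow_mul, mul_comm m 2]
  have hc : (C (4 * (b ^ m) ^ 3) : R[X]) = 4 * B ^ 3 := by
    rw [hB, C_mul, C_pow, map_ofNat]
  refine ⟨v * (Y + B), -(v * (Y - B)), ?_⟩
  rw [← hv, hc, hP, hP1]
  ring

theorem sep_P {m : ℕ} (hm : 0 < m) {a b : R} (h2 : IsUnit (2 : R)) (h3 : IsUnit (3 : R))
    (hmu : IsUnit (m : R)) (hb : IsUnit b) : (P1 m a b * P2 m a b).Separable :=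
  (sep_P1 hm h2 hmu hb).mul (sep_P2 hm h2 h3 hmu hb) (coprime_P h2 hb)

end ring

end Pool.Agent.Helper47.GX
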