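import Mathlib
import Pool.Graph.R_seed8.W405.S3.Arith
import Pool.Graph.R_seed8.W623.SecE.Loc
import Pool.Graph.R_seed8.W623.SecE.Glb
import Pool.Graph.R_seed8.W240.S3.ZLoc
import Pool.Agent.Helper47.GX.Frm

/-!
# The curves `r w² = (x^(2m) + 1) (x^(2m) + 2 x^m + 3)` have no sections
-/

set_option autoImplicit false

namespace Pool.Agent.Helper47.GX

open Pool.Agent.W620.SC Pool.Agent.W262.TW Pool.Agent.W623.SecE Pool.Agent.W262.S3
  Pool.Agent.W405.S3 Polynomial

universe v w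

/-- natural numbers composed of prime factors of `M` are squares modulo `r ≡ 1 mod M`, `8 ∣ M` -/
theorem jac_nat {M r : ℕ} (hr : r.Prime) (h8 : 8 ∣ M) (hM : M ∣ r - 1) (n : ℕ) (hn : n ≠ 0)
    (h : ∀ p : ℕ, p.Prime → p ∣ n → p ∣ M) : jacobiSym (n : ℤ) r = 1 := by
  induction n using Nat.recOnMul with
  | zero => exact absurd rfl hn
  | one => simp
  | prime p hp =>
    have hpM := h p hp dvd_rfl
    have h8r : 8 ∣ r - 1 := h8.trans hM
    have hr1 := hr.one_lt
    have hr8 : r % 8 = 1 := by omega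
    rcases hp.eq_two_or_odd' with rfl | hodd
    · have hodd : Odd r := by
        rw [Nat.odd_iff]; omega
      have h1 := jacobiSym.at_two hodd
      rw [Nat.cast_ofNat, h1, ZMod.χ₈_nat_mod_eight, hr8]
      rfl
    · have hrodd : Odd r := by
        rw [Nat.odd_iff]; omega
      have h4 : r % 4 = 1 := by omega
      rw [jacobiSym.quadratic_reciprocity_one_mod_four' hodd h4]
      have hpr : p ∣ r - 1 := hpM.trans hM
      have h1 : (r : ℤ) % p = 1 % p := by
        have h2 : ((p : ℤ)) ∣ (r : ℤ) - 1 := by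
          have := Int.natCast_dvd_natCast.2 hpr
          rwa [Nat.cast_sub hr1.le, Nat.cast_one] at this
        exact (Int.emod_eq_emod_iff_emod_sub_eq_zero.2 (Int.emod_eq_zero_of_dvd h2))
      rw [jacobiSym.mod_left' h1, jacobiSym.one_left]
  | mul a b ha hb =>
    have ha0 : a ≠ 0 := left_ne_zero_of_mul hn
    have hb0 : b ≠ 0 := right_ne_zero_of_mul hn
    rw [Nat.cast_mul, jacobiSym.mul_left, ha ha0 fun p hp hd => h p hp (hd.mul_right _),
      hb hb0 fun p hp hd => h p hp (hd.mul_left _), one_mul]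

theorem jac_int {M r : ℕ} (hr : r.Prime) (h8 : 8 ∣ M) (hM : M ∣ r - 1) (n : ℤ) (hn : n ≠ 0)
    (h : ∀ p : ℕ, p.Prime → (p : ℤ) ∣ n → p ∣ M) : jacobiSym n r = 1 := by
  have h1 := jac_nat hr h8 hM n.natAbs (Int.natAbs_ne_zero.2 hn)
    (fun p hp hd => h p hp (Int.natCast_dvd.2 hd))
  have hneg : jacobiSym (-1) r = 1 := by
    have h8r : 8 ∣ r - 1 := h8.trans hM
    have hr1 := hr.one_lt
    have hrodd : Odd r := by
      rw [Nat.odd_iff]; omega
    rw [jacobiSym.at_neg_one hrodd, ZMod.χ₄_nat_one_mod_four (by omega)]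
  rcases Int.natAbs_eq n with h2 | h2
  · rw [h2]; exact h1
  · rw [h2, neg_eq_neg_one_mul, jacobiSym.mul_left, hneg, h1, one_mul]

/-- a primitive sixteenth root of unity modulo `r ≡ 1 mod 16` -/
theorem exists_t {r : ℕ} [Fact r.Prime] (h16 : 16 ∣ r - 1) : ∃ t : ZMod r, t ^ 8 = -1 := by
  have hr := Fact.out (p := r.Prime)
  obtain ⟨g, hg⟩ := IsCyclic.exists_generator (α := (ZMod r)ˣ)
  have hord : orderOf g = r - 1 := by
    rw [orderOf_eq_card_of_forall_mem_zpowers hg, Nat.card_eq_fintype_card, ZMod.card_units]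
  obtain ⟨n, hn⟩ := h16
  have hr1 := hr.one_lt
  have hn0 : 0 < n := by
    rcases Nat.eq_zero_or_pos n with h | h
    · subst h; omega
    · exact h
  refine ⟨((g ^ n : (ZMod r)ˣ) : ZMod r), ?_⟩
  have h1 : ((g ^ n) ^ 8) ^ 2 = 1 := by
    rw [← pow_mul, ← pow_mul, show n * (8 * 2) = r - 1 by omega, ← hord, pow_orderOf_eq_one]
  have h2 : (g ^ n) ^ 8 ≠ 1 := by
    rw [← pow_mul]
    intro h
    have := orderOf_dvd_of_pow_eq_one h
    rw [hord, hn] at this
    have := Nat.le_of_dvd (by omega) this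
    omega
  have h3 : (((g ^ n : (ZMod r)ˣ) : ZMod r) ^ 8 - 1) * (((g ^ n : (ZMod r)ˣ) : ZMod r) ^ 8 + 1) = 0 := by
    have := congrArg Units.val h1
    push_cast at this ⊢
    linear_combination this
  rcases mul_eq_zero.1 h3 with h | h
  · exfalso
    apply h2
    apply Units.ext
    push_cast at h ⊢
    linear_combination h
  · linear_combination h

theorem no_fourth {r : ℕ} [Fact r.Prime] (h4 : 4 ∣ r - 1) (h2 : (2 : ZMod r) ^ ((r - 1) / 4) = -1)
    (u : ZMod r) : u ^ 4 ≠ 2 := by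
  intro hu
  have hr := Fact.out (p := r.Prime)
  have hr1 := hr.one_lt
  have hr4 : 4 ≤ r - 1 := Nat.le_of_dvd (by omega) h4
  have hu0 : u ≠ 0 := by
    rintro rfl
    rw [zero_pow (by norm_num)] at hu
    rw [← hu, zero_pow (by omega)] at h2
    have h3 : (1 : ZMod r) = 0 := by linear_combination h2
    exact one_ne_zero h3
  rw [← hu, ← pow_mul, Nat.mul_div_cancel' h4, ZMod.pow_card_sub_one_eq_one hu0] at h2
  have h3 : ((2 : ℕ) : ZMod r) = 0 := by
    push_cast
    linear_combination h2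
  rw [ZMod.natCast_eq_zero_iff] at h3
  have := Nat.le_of_dvd (by norm_num) h3
  omega

theorem units_of {m p : ℕ} (hp : p.Prime) (hpm : ¬ p ∣ 6 * m) :
    IsUnit (2 : ZMod p) ∧ IsUnit (3 : ZMod p) ∧ IsUnit (m : ZMod p) := by
  haveI := Fact.mk hp
  have key : ∀ n : ℕ, ¬ p ∣ n → IsUnit ((n : ℕ) : ZMod p) := by
    intro n hn
    rw [isUnit_iff_ne_zero, Ne, ZMod.natCast_eq_zero_iff]
    exact hn
  refine ⟨?_, ?_, ?_⟩
  · exact_mod_cast key 2 fun h => hpm ((h.trans (by norm_num : 2 ∣ 6)).mul_right m)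
  · exact_mod_cast key 3 fun h => hpm ((h.trans (by norm_num : 3 ∣ 6)).mul_right m)
  · exact key m fun h => hpm (h.mul_left 6)

/-- the two factors -/
noncomputable def ff (m : ℕ) : Fin 2 → ℤ[X] := ![P1 m 0 1, P2 m 0 1]

theorem nonres {m r : ℕ} (hr : r.Prime) (h48 : 48 * m ∣ r - 1)
    (h2 : (2 : ZMod r) ^ ((r - 1) / 4) = -1) {i k : Fin 2} (hik : k ≠ i) (n : ℤ)
    (h : (r : ℤ) ∣ (ff m i).eval n) : jacobiSym ((ff m k).eval n) r = -1 := by
  haveI := Fact.mk hr
  obtain ⟨t, ht⟩ := exists_t (r := r) ((Dvd.intro (3 * m) (by ring)).trans h48)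
  have h4 : 4 ∣ r - 1 := (Dvd.intro (12 * m) (by ring)).trans h48
  have hno := no_fourth (r := r) h4 h2
  rw [← jacobiSym.legendreSym.to_jacobiSym, legendreSym.eq_neg_one_iff]
  have hn := (ZMod.intCast_zmod_eq_zero_iff_dvd _ _).2 h
  fin_cases i <;> fin_cases k
  · exact absurd rfl hik
  · simp only [ff, Matrix.cons_val_zero, eval_P1, Fin.zero_eta, Fin.mk_one, Matrix.cons_val_one,
      eval_P2] at hn ⊢
    push_cast at hn ⊢
    have := nonsq1 ht hno (b := (n : ZMod r)) (m := m) (by linear_combination hn)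
    convert this using 2
    ring
  · simp only [ff, Matrix.cons_val_zero, eval_P1, Fin.zero_eta, Fin.mk_one, Matrix.cons_val_one,
      eval_P2] at hn ⊢
    push_cast at hn ⊢
    have := nonsq2 ht hno (b := (n : ZMod r)) (m := m) (by linear_combination hn)
    convert this using 2
    ring
  · exact absurd rfl hik

section main

variable {m : ℕ} (hm : 0 < m) {r : ℕ} (hr : r.Prime) (h48 : 48 * m ∣ r - 1)
  (h2 : (2 : ZMod r) ^ ((r - 1) / 4) = -1)

include hm hr h48 h2

theorem no_section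
    (F : Type v) (Ω : Type w) [Field F] [Field Ω] [Algebra ℚ F]
    [Algebra F Ω] [Algebra ℚ Ω] [IsScalarTower ℚ F Ω] [IsAlgClosed Ω] [Algebra.IsAlgebraic F Ω]
    (U : Set (ValuationSubring F)) (hU : ∀ O ∈ U, ∀ c : ℚ, algebraMap ℚ F c ∈ O)
    (G : GSection ℚ F Ω U) (x y : F)
    (hxy : (r : F) * y ^ 2 = aeval x (P1 m 0 1 : ℤ[X]) * aeval x (P2 m 0 1 : ℤ[X]))
    (hx : Transcendental ℚ x) : False := by
  classical
  have hr0 := hr.ne_zero
  have hrQ : (r : ℚ) ≠ 0 := by exact_mod_cast hr0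
  have hinj : Function.Injective (Int.castRingHom ℚ) := RingHom.injective_int _
  have hff0 : ff m 0 = P1 m 0 1 := rfl
  have hff1 : ff m 1 = P2 m 0 1 := rfl
  have hfm : ∀ k, (ff m k).Monic := by
    intro k
    fin_cases k
    · exact monic_P1 hm _ _
    · exact monic_P2 hm _ _
  have hfd : ∀ k, (ff m k).natDegree = 2 * m := by
    intro k
    fin_cases k
    · exact natDegree_P1 hm _ _
    · exact natDegree_P2 hm _ _
  have haev : ∀ k, aeval x ((ff m k).map (Int.castRingHom ℚ)) = aeval x (ff m k) := by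
    intro k
    rw [← algebraMap_int_eq, aeval_map_algebraMap]
  have hx0 : ∀ k, aeval x (ff m k) ≠ 0 := by
    intro k h
    rw [← haev] at h
    exact ((hfm k).map (Int.castRingHom ℚ)).ne_zero ((transcendental_iff.mp hx) _ h)
  have hprod : ∀ {R : Type} [CommRing R] (φ : ℤ →+* R), ∏ k, (ff m k).map φ =
      P1 m (φ 0) (φ 1) * P2 m (φ 0) (φ 1) := by
    intro R _ φ
    rw [Fin.prod_univ_two, hff0, hff1, map_P1, map_P2]
  have hsepQ : (∏ k, (ff m k).map (Int.castRingHom ℚ)).Separable := by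
    rw [hprod]
    refine sep_P hm ?_ ?_ ?_ ?_
    · exact isUnit_iff_ne_zero.2 (by norm_num)
    · exact isUnit_iff_ne_zero.2 (by norm_num)
    · exact isUnit_iff_ne_zero.2 (by exact_mod_cast hm.ne')
    · exact isUnit_iff_ne_zero.2 (by simp)
  have hxy' : (r : F) * y ^ 2 = ∏ k, aeval x (ff m k) := by
    rw [Fin.prod_univ_two, hff0, hff1, hxy]
  -- the class of the first factor
  obtain ⟨c, β, hc0, hβ, hcβ⟩ := secglob.{0, v, w} ℚ F Ω (∏ k, (ff m k).map (Int.castRingHom ℚ)) hsepQ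
    (by
      rw [natDegree_prod_of_monic _ _ fun k _ => (hfm k).map _]
      refine Finset.even_sum _ fun k _ => ?_
      rw [(hfm k).natDegree_map, hfd]
      exact even_two_mul m)
    (r : ℚ) hrQ U hU G x y
    (by
      rw [map_natCast, hxy', map_prod]
      exact Finset.prod_congr rfl fun k _ => (haev k).symm) hx
    ((ff m 0).map (Int.castRingHom ℚ)) (Finset.dvd_prod_of_mem _ (Finset.mem_univ 0))
    (by
      rw [(hfm 0).natDegree_map, hfd]
      exact even_two_mul m)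
  rw [haev] at hcβ
  have hden : (c.den : ℚ) ≠ 0 := by exact_mod_cast c.den_ne_zero
  obtain ⟨s, t, ht, hs, hst⟩ := Pool.Agent.W311.TW.exists_sqf (c.num * c.den)
    (mul_ne_zero (Rat.num_ne_zero.2 hc0) (by exact_mod_cast c.den_ne_zero))
  obtain ⟨q, hq, hcs⟩ : ∃ q : ℚ, q ≠ 0 ∧ c = s * q ^ 2 := by
    refine ⟨t / c.den, div_ne_zero (by exact_mod_cast ht) hden, ?_⟩
    have h2 : (c.num * c.den : ℚ) = s * t ^ 2 := by exact_mod_cast hst
    rw [div_pow, mul_div_assoc', ← h2]
    have e := Rat.num_div_den c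
    nth_rewrite 1 [← e]
    field_simp
  set γ : unramified F Ω U := algebraMap F (unramified F Ω U) (algebraMap ℚ F q) * β with hγ
  have hγfix : ∀ σ, G.toHom σ γ = γ := by
    intro σ
    rw [hγ, map_mul, AlgEquiv.commutes, hβ]
  have hsγ : algebraMap ℚ Ω (s : ℚ) * (γ : Ω) ^ 2 = algebraMap F Ω (aeval x (ff m 0)) := by
    rw [← hcβ, hcs, map_mul, map_pow]
    have e1 : (γ : Ω) = algebraMap ℚ Ω q * (β : Ω) := by
      rw [IsScalarTower.algebraMap_apply ℚ F Ω q]
      rfl
    rw [e1]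
    ring
  have hs0 : (s : ℚ) ≠ 0 := by exact_mod_cast hs.ne_zero
  have hγ0 : (γ : Ω) ≠ 0 := by
    intro h
    rw [h, zero_pow two_ne_zero, mul_zero] at hsγ
    exact hx0 0 ((algebraMap F Ω).injective (by rw [← hsγ, map_zero]))
  have hsΩ : algebraMap ℚ Ω (s : ℚ) ≠ 0 := (_root_.map_ne_zero _).2 hs0
  -- the class of the second factor
  have hrz : (r : ℤ) ≠ 0 := by exact_mod_cast hr0
  have hrp := Nat.prime_iff_prime_int.1 hr
  obtain ⟨s', e, he0, hs', hss⟩ : ∃ s' e : ℤ, e ≠ 0 ∧ Squarefree s' ∧ (r : ℤ) * s = s' * e ^ 2 :=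
    by
    obtain ⟨s', e, he, hs', h⟩ := Pool.Agent.W311.TW.exists_sqf ((r : ℤ) * s) (mul_ne_zero hrz hs.ne_zero)
    exact ⟨s', e, he, hs', h⟩
  set δ : unramified F Ω U := algebraMap F (unramified F Ω U) ((e : F) * y / (s : F)) * γ⁻¹ with hδ
  have hδfix : ∀ σ, G.toHom σ δ = δ := by
    intro σ
    rw [hδ, map_mul, AlgEquiv.commutes, map_inv₀, hγfix]
  have hsδ : algebraMap ℚ Ω (s' : ℚ) * (δ : Ω) ^ 2 = algebraMap F Ω (aeval x (ff m 1)) := by
    have e1 : (δ : Ω) = algebraMap F Ω ((e : F) * y / (s : F)) * (γ : Ω)⁻¹ := rfl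
    have e2 : algebraMap F Ω (aeval x (ff m 0)) * algebraMap F Ω (aeval x (ff m 1)) =
        algebraMap F Ω ((r : F) * y ^ 2) := by
      rw [hxy', Fin.prod_univ_two, map_mul]
    have e3 : algebraMap F Ω (aeval x (ff m 0)) ≠ 0 := (_root_.map_ne_zero _).2 (hx0 0)
    apply mul_left_cancel₀ e3
    rw [e2, ← hsγ, e1]
    have hsF : algebraMap F Ω (s : F) ≠ 0 := by
      have : algebraMap F Ω (s : F) = algebraMap ℚ Ω (s : ℚ) := by
        rw [map_intCast, map_intCast]
      rw [this]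
      exact hsΩ
    have e4 : algebraMap ℚ Ω (s : ℚ) = algebraMap F Ω (s : F) := by
      rw [map_intCast, map_intCast]
    have e5 : algebraMap ℚ Ω (s' : ℚ) = algebraMap F Ω (s' : F) := by
      rw [map_intCast, map_intCast]
    have e6 : algebraMap F Ω (r : F) * algebraMap F Ω (s : F) =
        algebraMap F Ω (s' : F) * algebraMap F Ω (e : F) ^ 2 := by
      rw [map_natCast, map_intCast, map_intCast, map_intCast]
      have := congrArg (fun n : ℤ => (n : Ω)) hss
      push_cast at this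
      exact this
    rw [e4, e5, map_div₀, map_mul, map_mul, map_pow]
    field_simp
    linear_combination (-(algebraMap F Ω y) ^ 2) * e6
  set S : Fin 2 → ℤ := ![s, s'] with hS
  set B : Fin 2 → unramified F Ω U := ![γ, δ] with hB
  have hSs : ∀ k, Squarefree (S k) := by
    intro k
    fin_cases k
    · exact hs
    · exact hs'
  have hBfix : ∀ k σ, G.toHom σ (B k) = B k := by
    intro k
    fin_cases k
    · exact hγfix
    · exact hδfix
  have hSB : ∀ k, algebraMap ℚ Ω (S k) * (B k : Ω) ^ 2 = algebraMap F Ω (aeval x (ff m k)) := by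
    intro k
    fin_cases k
    · exact hsγ
    · exact hsδ
  have hsep : ∀ p : ℕ, p.Prime → ¬ p ∣ 6 * m →
      (∏ k, (ff m k).map (Int.castRingHom (ZMod p))).Separable := by
    intro p hp hpm
    obtain ⟨u2, u3, um⟩ := units_of hp hpm
    rw [hprod]
    refine sep_P hm u2 u3 um ?_
    rw [map_one]
    exact isUnit_one
  have hloc : ∀ p : ℕ, p.Prime → ¬ p ∣ 6 * m → ∀ i, (p : ℤ) ∣ S i →
      (∀ k, k ≠ i → ¬ (p : ℤ) ∣ S k) ∧ ngs S i p ∈ Th (ff m) i p := by
    intro p hp hpm i hi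
    have hp2 : 2 < p := by
      have h3 := hp.two_le
      rcases Nat.lt_or_ge 2 p with h | h
      · exact h
      · exfalso
        have : p = 2 := by omega
        subst this
        exact hpm ((by norm_num : 2 ∣ 6).mul_right m)
    exact local_part secloc.{0, v, w} Pool.Agent.W240.S3.zloc (ff m)
      (fun k => by rw [hfd]; exact even_two_mul m)
      (by rw [Fin.sum_univ_two, hfd, hfd]; omega) p hp hp2
      (fun k => by
        rw [(hfm k).leadingCoeff]
        intro h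
        exact (Nat.prime_iff_prime_int.1 hp).not_isUnit (isUnit_of_dvd_one h))
      (hsep p hp hpm) (r : ℤ) (hrp.squarefree) F Ω U hU G x y (by rw [← hxy']; norm_cast) hx S B hSs
      hBfix hSB i hi
  have hrm : ¬ r ∣ 6 * m := by
    intro h
    have h3 := Nat.le_of_dvd (by omega) h
    have h4 := Nat.le_of_dvd (by have := hr.one_lt; omega) h48
    omega
  -- the primes which divide `s`, `s'`
  have hdiv : ∀ p : ℕ, p.Prime → ¬ p ∣ 6 * m → p ≠ r → ∀ i, ¬ (p : ℤ) ∣ S i := by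
    intro p hp hpm hpr i hi
    have hpz := Nat.prime_iff_prime_int.1 hp
    have hpr' : ¬ (p : ℤ) ∣ r := by
      intro h
      exact hpr ((Nat.prime_dvd_prime_iff_eq hp hr).1 (Int.natCast_dvd_natCast.1 h))
    obtain ⟨h1, -⟩ := hloc p hp hpm i hi
    fin_cases i
    · have h3 : ¬ (p : ℤ) ∣ s' := h1 1 (by decide)
      have h4 : (p : ℤ) ∣ s := hi
      have h5 : (p : ℤ) ∣ e := by
        have : (p : ℤ) ∣ s' * e ^ 2 := by rw [← hss]; exact h4.mul_left _
        exact hpz.dvd_of_dvd_pow ((hpz.dvd_or_dvd this).resolve_left h3)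
      have h6 : (p : ℤ) * p ∣ r * s := by
        rw [hss, sq]
        exact (mul_dvd_mul h5 h5).mul_left _
      have h7 : (p : ℤ) * p ∣ s := by
        have hco : IsCoprime ((p : ℤ) * p) r := by
          have := (hpz.coprime_iff_not_dvd).2 hpr'
          exact this.mul_left this
        exact hco.dvd_of_dvd_mul_left h6
      exact hpz.not_isUnit (hs _ h7)
    · have h3 : ¬ (p : ℤ) ∣ s := h1 0 (by decide)
      have h4 : (p : ℤ) ∣ s' := hi
      have : (p : ℤ) ∣ r * s := by rw [hss]; exact h4.mul_right _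
      exact (hpz.dvd_or_dvd this).elim hpr' h3
  -- one of them is divisible by `r`
  obtain ⟨i, hi⟩ : ∃ i, (r : ℤ) ∣ S i := by
    by_contra hno
    push Not at hno
    have h3 : ¬ (r : ℤ) ∣ s := hno 0
    have h4 : ¬ (r : ℤ) ∣ s' := hno 1
    have h5 : (r : ℤ) ∣ e := by
      have : (r : ℤ) ∣ s' * e ^ 2 := by rw [← hss]; exact dvd_mul_right _ _
      exact hrp.dvd_of_dvd_pow ((hrp.dvd_or_dvd this).resolve_left h4)
    obtain ⟨e', rfl⟩ := h5
    apply h3
    refine ⟨s' * e' ^ 2, ?_⟩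
    apply mul_left_cancel₀ hrz
    rw [hss]
    ring
  obtain ⟨h3, h4⟩ := hloc r hr hrm i hi
  unfold Th at h4
  rw [Finset.mem_image] at h4
  obtain ⟨θ, hθ, hng⟩ := h4
  rw [Finset.mem_filter] at hθ
  obtain ⟨k, hk⟩ : ∃ k : Fin 2, k ≠ i := by
    fin_cases i
    · exact ⟨1, by decide⟩
    · exact ⟨0, by decide⟩
  have h5 : k ∈ ngs S i r := by
    rw [← hng]
    unfold ngs
    rw [Finset.mem_filter]
    exact ⟨Finset.mem_univ _, hk, nonres hr h48 h2 hk _ hθ.2⟩
  unfold ngs at h5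
  rw [Finset.mem_filter] at h5
  have h6 : jacobiSym (S k) r = 1 := by
    refine jac_int hr (M := 48 * m) (Dvd.intro (6 * m) (by ring)) h48 (S k) (hSs k).ne_zero ?_
    intro p hp hpS
    by_cases hpm : p ∣ 6 * m
    · exact hpm.trans ⟨8, by ring⟩
    · exfalso
      by_cases hpr : p = r
      · subst hpr
        exact h3 k hk hpS
      · exact hdiv p hp hpm hpr k hpS
  rw [h6] at h5
  exact absurd h5.2.2 (by norm_num)

end main

end Pool.Agent.Helper47.GX
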