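import Mathlib
import Pool.Agent.Helper47.GX.Scn

/-!
# The values of the two factors at the zeros of the other one, over extensions of `𝔽_r`
-/

set_option autoImplicit false

namespace Pool.Agent.Helper47.GX

section field

variable {k : Type*} [Field k]

theorem sq1 {t u : k} (ht : t ^ 8 = -1) (hu : u ^ 4 = 2) {b : k} {m : ℕ}
    (hb : b ^ (2 * m) + 1 = 0) : IsSquare (b ^ (2 * m) + 2 * b ^ m + 3) := by
  set i := b ^ m with hi
  have hi2 : i ^ 2 = -1 := by
    rw [hi, ← pow_mul, mul_comm m 2]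
    linear_combination hb
  have hb2 : b ^ (2 * m) = -1 := by linear_combination hb
  obtain ⟨s, hs⟩ : ∃ s : k, s ^ 4 = i := by
    have h1 : (i - t ^ 4) * (i + t ^ 4) = 0 := by
      linear_combination hi2 - ht
    rcases mul_eq_zero.1 h1 with h | h
    · exact ⟨t, by linear_combination -h⟩
    · exact ⟨t ^ 3, by linear_combination t ^ 4 * ht - h⟩
  rw [hb2]
  have h3 : (-1 + 2 * i + 3 - (u ^ 3 * s) ^ 2) * (-1 + 2 * i + 3 + (u ^ 3 * s) ^ 2) = 0 := by
    linear_combination 4 * hi2 - 8 * hs - (u ^ 8 + 2 * u ^ 4 + 4) * s ^ 4 * hu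
  rcases mul_eq_zero.1 h3 with h | h
  · exact ⟨u ^ 3 * s, by linear_combination h⟩
  · refine ⟨t ^ 4 * (u ^ 3 * s), ?_⟩
    linear_combination h - (u ^ 3 * s) ^ 2 * ht

theorem sq2 {t u : k} (ht : t ^ 8 = -1) (hu : u ^ 4 = 2) {b : k} {m : ℕ}
    (hb : b ^ (2 * m) + 2 * b ^ m + 3 = 0) : IsSquare (b ^ (2 * m) + 1) := by
  set i := b ^ m with hi
  have hb2 : b ^ (2 * m) = i ^ 2 := by rw [hi, ← pow_mul, mul_comm m 2]
  rw [hb2] at hb ⊢
  have h3 : (i ^ 2 + 1 - (t ^ 2 * u ^ 3) ^ 2) * (i ^ 2 + 1 + (t ^ 2 * u ^ 3) ^ 2) = 0 := by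
    linear_combination (i ^ 2 - 2 * i + 3) * hb - 8 * ht - t ^ 8 * (u ^ 8 + 2 * u ^ 4 + 4) * hu
  rcases mul_eq_zero.1 h3 with h | h
  · exact ⟨t ^ 2 * u ^ 3, by linear_combination h⟩
  · refine ⟨t ^ 4 * (t ^ 2 * u ^ 3), ?_⟩
    linear_combination h - (t ^ 2 * u ^ 3) ^ 2 * ht

end field

section finite

variable {κ : Type*} [Field κ] [Finite κ] {r f : ℕ} (hr : r.Prime) (h16 : 16 ∣ r - 1)
  (h2 : (2 : ZMod r) ^ ((r - 1) / 4) = -1) [CharP κ r] (hq : Nat.card κ = r ^ f)

include hr in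
theorem kap_hom : Nonempty (ZMod r →+* κ) := ⟨ZMod.castHom dvd_rfl κ⟩

include hr h16 in
theorem kap_t : ∃ t : κ, t ^ 8 = -1 := by
  have := Fact.mk hr
  obtain ⟨φ⟩ := kap_hom (κ := κ) hr
  obtain ⟨t, ht⟩ := exists_t (r := r) h16
  refine ⟨φ t, ?_⟩
  rw [← map_pow, ht, map_neg, map_one]

theorem geom_parity {r : ℕ} (hr : Odd r) (f : ℕ) :
    (Odd f → Odd (∑ i ∈ Finset.range f, r ^ i)) ∧ (Even f → Even (∑ i ∈ Finset.range f, r ^ i)) := by
  induction f with
  | zero => simp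
  | succ n ih =>
    rw [Finset.sum_range_succ]
    have h1 : Odd (r ^ n) := hr.pow
    constructor
    · intro h
      have h2 : Even n := by
        rcases Nat.even_or_odd n with h3 | h3
        · exact h3
        · exact absurd h (Nat.not_odd_iff_even.2 h3.add_one)
      exact (ih.2 h2).add_odd h1
    · intro h
      have h2 : Odd n := by
        rcases Nat.even_or_odd n with h3 | h3
        · exact absurd h (Nat.not_even_iff_odd.2 h3.add_one)
        · exact h3
      exact (ih.1 h2).add_odd h1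

include hr h16 h2 hq in
theorem kap_two : (2 : κ) ^ ((Nat.card κ - 1) / 4) = (-1) ^ (∑ i ∈ Finset.range f, r ^ i) := by
  obtain ⟨φ⟩ := kap_hom (κ := κ) hr
  have h3 : (2 : κ) ^ ((r - 1) / 4) = -1 := by
    have := congrArg φ h2
    rwa [map_pow, map_ofNat, map_neg, map_one] at this
  have h4 : 4 ∣ r - 1 := (by norm_num : 4 ∣ 16).trans h16
  have h5 : (Nat.card κ - 1) / 4 = ((r - 1) / 4) * ∑ i ∈ Finset.range f, r ^ i := by
    have h6 : Nat.card κ - 1 = (r - 1) * ∑ i ∈ Finset.range f, r ^ i := by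
      rw [hq]
      have h7 := Nat.geomSum_eq hr.two_le f
      have h8 : (r - 1) ∣ r ^ f - 1 := by
        have := Nat.sub_dvd_pow_sub_pow r 1 f
        rwa [one_pow] at this
      rw [h7, Nat.mul_div_cancel' h8]
    rw [h6]
    obtain ⟨c, hc⟩ := h4
    rw [hc, mul_assoc, Nat.mul_div_cancel_left _ (by norm_num), Nat.mul_div_cancel_left _ (by norm_num)]
  rw [h5, pow_mul, h3]

include hr h16 in
theorem r_odd : Odd r := by
  have h1 := hr.two_le
  obtain ⟨c, hc⟩ := h16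
  rw [Nat.odd_iff]
  omega

include hr h16 h2 hq in
theorem kap_odd (hf : Odd f) (u : κ) : u ^ 4 ≠ 2 := by
  intro hu
  have h3 := kap_two (κ := κ) hr h16 h2 hq
  rw [((geom_parity (r_odd hr h16) f).1 hf).neg_one_pow] at h3
  have hr1 := hr.two_le
  have h20 : (2 : κ) ≠ 0 := by
    intro h
    have h5 : ((2 : ℕ) : κ) = 0 := by exact_mod_cast h
    rw [CharP.cast_eq_zero_iff κ r] at h5
    have := Nat.le_of_dvd (by norm_num) h5
    obtain ⟨c, hc⟩ := h16
    omega
  have hu0 : u ≠ 0 := by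
    rintro rfl
    rw [zero_pow (by norm_num)] at hu
    exact h20 hu.symm
  have h4 : 4 ∣ Nat.card κ - 1 := by
    rw [hq]
    have h8 : (r - 1) ∣ r ^ f - 1 := by
      have := Nat.sub_dvd_pow_sub_pow r 1 f
      rwa [one_pow] at this
    exact ((by norm_num : 4 ∣ 16).trans h16).trans h8
  rw [← hu, ← pow_mul, Nat.mul_div_cancel' h4] at h3
  have h6 : u ^ (Nat.card κ - 1) = 1 := by
    have := Fintype.ofFinite κ
    rw [Nat.card_eq_fintype_card]
    exact FiniteField.pow_card_sub_one_eq_one u hu0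
  rw [h6] at h3
  apply h20
  linear_combination h3

include hr h16 h2 hq in
theorem kap_even (hf : Even f) : ∃ u : κ, u ^ 4 = 2 := by
  have h3 := kap_two (κ := κ) hr h16 h2 hq
  rw [((geom_parity (r_odd hr h16) f).2 hf).neg_one_pow] at h3
  have hr1 := hr.two_le
  have h20 : (2 : κ) ≠ 0 := by
    intro h
    have h5 : ((2 : ℕ) : κ) = 0 := by exact_mod_cast h
    rw [CharP.cast_eq_zero_iff κ r] at h5
    have := Nat.le_of_dvd (by norm_num) h5
    obtain ⟨c, hc⟩ := h16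
    omega
  have h4 : 4 ∣ Nat.card κ - 1 := by
    rw [hq]
    have h8 : (r - 1) ∣ r ^ f - 1 := by
      have := Nat.sub_dvd_pow_sub_pow r 1 f
      rwa [one_pow] at this
    exact ((by norm_num : 4 ∣ 16).trans h16).trans h8
  obtain ⟨g, hg⟩ := IsCyclic.exists_generator (α := κˣ)
  have hord : orderOf g = Nat.card κ - 1 := by
    rw [orderOf_eq_card_of_forall_mem_zpowers hg, Nat.card_units]
  obtain ⟨a, ha⟩ := (Submonoid.mem_powers_iff _ _).1 (mem_powers_iff_mem_zpowers.2 (hg (Units.mk0 2 h20)))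
  have h5 : g ^ (a * ((Nat.card κ - 1) / 4)) = 1 := by
    rw [pow_mul, ha]
    apply Units.ext
    push_cast
    exact h3
  have h6 := orderOf_dvd_of_pow_eq_one h5
  rw [hord] at h6
  obtain ⟨c, hc⟩ := h4
  have hc0 : 0 < c := by
    have h7 : 1 < Nat.card κ := Finite.one_lt_card
    rcases Nat.eq_zero_or_pos c with h | h
    · rw [h] at hc; omega
    · exact h
  rw [hc, Nat.mul_div_cancel_left _ (by norm_num)] at h6
  have h7 : 4 ∣ a := Nat.dvd_of_mul_dvd_mul_right hc0 h6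
  obtain ⟨d, hd⟩ := h7
  refine ⟨((g ^ d : κˣ) : κ), ?_⟩
  have h8 : (g ^ d) ^ 4 = Units.mk0 2 h20 := by
    rw [← ha, hd, ← pow_mul, mul_comm]
  have := congrArg Units.val h8
  push_cast at this ⊢
  exact this

end finite

end Pool.Agent.Helper47.GX
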