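import Mathlib
import Pool.Agent.Helper47.GX.Kap

/-!
# Local invariants of the class `(x^(2m) + 1, r)` at the points of
`r y² = (x^(2m) + z^(2m)) (x^(2m) + 2 x^m z^m + 3 z^(2m))`
-/

set_option autoImplicit false

namespace Pool.Agent.Helper47.GX

open Polynomial WithZero

/-- the quaternion algebra `(c, r)` splits -/
def Splits {E : Type*} [Field E] (c r : E) : Prop := ∃ u v : E, c = u ^ 2 - r * v ^ 2

section basic

variable {E : Type*} [Field E]

theorem Splits.sq_mul {c r : E} (h : Splits c r) (s : E) : Splits (s ^ 2 * c) r := by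
  obtain ⟨u, v, rfl⟩ := h
  exact ⟨s * u, s * v, by ring⟩

theorem splits_sq_mul_iff {c r s : E} (hs : s ≠ 0) : Splits (s ^ 2 * c) r ↔ Splits c r := by
  constructor
  · intro h
    have := h.sq_mul s⁻¹
    rwa [← mul_assoc, ← mul_pow, inv_mul_cancel₀ hs, one_pow, one_mul] at this
  · intro h
    exact h.sq_mul s

theorem splits_sq (c r : E) : Splits (c ^ 2) r := ⟨c, 0, by ring⟩

theorem splits_of_sq {r t : E} (h2 : (2 : E) ≠ 0) (ht : t ≠ 0) (h : t ^ 2 = r) (c : E) : Splits c r := by
  refine ⟨(c + 1) / 2, (c - 1) / (2 * t), ?_⟩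
  rw [← h]
  field_simp
  ring

theorem splits_swap {c d r y : E} (hc : c ≠ 0) (h : c * d = -(r * y ^ 2)) (hs : Splits c r) :
    Splits d r := by
  obtain ⟨u, v, huv⟩ := hs
  refine ⟨r * y * v / c, y * u / c, ?_⟩
  have h1 : d = -(r * y ^ 2) / c := by
    rw [eq_div_iff hc, mul_comm, h]
  rw [h1]
  field_simp
  rw [huv]
  ring

/-- the first form -/
def FF1 (m : ℕ) (x z : E) : E := x ^ (2 * m) + z ^ (2 * m)

/-- the second form -/
def FF2 (m : ℕ) (x z : E) : E := x ^ (2 * m) + 2 * x ^ m * z ^ m + 3 * z ^ (2 * m)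

open Classical in
/-- the value of the first entry -/
noncomputable def val (m : ℕ) (x z : E) : E := if FF1 m x z = 0 then - FF2 m x z else FF1 m x z

theorem FF1_scale (m : ℕ) (l x z : E) : FF1 m (l * x) (l * z) = (l ^ m) ^ 2 * FF1 m x z := by
  unfold FF1
  rw [mul_pow, mul_pow]
  ring

theorem FF2_scale (m : ℕ) (l x z : E) : FF2 m (l * x) (l * z) = (l ^ m) ^ 2 * FF2 m x z := by
  unfold FF2
  rw [mul_pow, mul_pow, mul_pow, mul_pow]
  ring

theorem val_scale {m : ℕ} {l : E} (hl : l ≠ 0) (x z : E) :
    val m (l * x) (l * z) = (l ^ m) ^ 2 * val m x z := by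
  have h1 : (l ^ m) ^ 2 ≠ 0 := pow_ne_zero _ (pow_ne_zero _ hl)
  unfold val
  rw [FF1_scale, FF2_scale]
  by_cases h : FF1 m x z = 0
  · rw [if_pos h, if_pos (by rw [h, mul_zero])]
    ring
  · rw [if_neg h, if_neg (mul_ne_zero h1 h)]

end basic

section local_

variable {E : Type*} [Field E] (V : Valuation E ℤᵐ⁰)

/-- the value of `c` is a square -/
def EvenV (c : E) : Prop := ∃ z : E, V c = V z ^ 2


theorem res_zero_iff (a : V.valuationSubring) : IsLocalRing.residue V.valuationSubring a = 0 ↔ V (a : E) < 1 := by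
  rw [IsLocalRing.residue_eq_zero_iff]
  exact Valuation.mem_maximalIdeal_iff (v := V)

theorem res_ne_iff (a : V.valuationSubring) : IsLocalRing.residue V.valuationSubring a ≠ 0 ↔ V (a : E) = 1 := by
  rw [Ne, res_zero_iff, not_lt]
  constructor
  · intro h
    exact le_antisymm ((Valuation.mem_valuationSubring_iff _ _).1 a.2) h
  · intro h
    exact h.ge

theorem not_norm {d : V.valuationSubring} {r : E} (hr : ¬ EvenV V r) (hd : IsLocalRing.residue V.valuationSubring d ≠ 0)
    (h : Splits (d : E) r) : IsSquare (IsLocalRing.residue V.valuationSubring d) := by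
  obtain ⟨u, v, huv⟩ := h
  have hd1 := (res_ne_iff V d).1 hd
  have hne : V (u ^ 2) ≠ V (r * v ^ 2) ∨ v = 0 := by
    by_cases hv : v = 0
    · exact Or.inr hv
    · left
      intro h1
      apply hr
      refine ⟨u / v, ?_⟩
      have hv' : V v ≠ 0 := (Valuation.ne_zero_iff _).2 hv
      rw [map_pow, map_mul, map_pow] at h1
      rw [map_div₀, div_pow, h1, mul_div_cancel_right₀ _ (pow_ne_zero _ hv')]
  have hlt : V (r * v ^ 2) < 1 ∧ V u = 1 := by
    rcases hne with h1 | h1
    · have h2 : V (u ^ 2 - r * v ^ 2) = max (V (u ^ 2)) (V (r * v ^ 2)) := by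
        rw [sub_eq_add_neg, Valuation.map_add_of_distinct_val _ (by rwa [Valuation.map_neg]),
          Valuation.map_neg]
      rw [← huv, hd1] at h2
      rcases lt_or_gt_of_ne h1 with h3 | h3
      · exfalso
        rw [max_eq_right h3.le] at h2
        apply hr
        have hv : v ≠ 0 := by
          rintro rfl
          rw [zero_pow two_ne_zero, mul_zero, map_zero] at h2
          exact zero_ne_one h2.symm
        refine ⟨v⁻¹, ?_⟩
        have hv' : V v ≠ 0 := (Valuation.ne_zero_iff _).2 hv
        rw [map_inv₀, inv_pow]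
        rw [map_mul, map_pow] at h2
        exact eq_inv_of_mul_eq_one_left h2.symm
      · rw [max_eq_left h3.le] at h2
        refine ⟨by rw [h2]; exact h3, ?_⟩
        rw [map_pow] at h2
        exact (pow_eq_one_iff.1 h2.symm).resolve_right (by norm_num)
    · subst h1
      rw [zero_pow two_ne_zero, mul_zero, sub_zero] at huv
      rw [zero_pow two_ne_zero, mul_zero, map_zero]
      refine ⟨zero_lt_one, ?_⟩
      rw [huv, map_pow] at hd1
      exact (pow_eq_one_iff.1 hd1).resolve_right (by norm_num)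
  obtain ⟨u', hu'⟩ : ∃ u' : V.valuationSubring, (u' : E) = u :=
    ⟨⟨u, (Valuation.mem_valuationSubring_iff _ _).2 hlt.2.le⟩, rfl⟩
  refine ⟨IsLocalRing.residue V.valuationSubring u', ?_⟩
  rw [← sub_eq_zero, ← map_mul, ← map_sub, res_zero_iff]
  have : ((d - u' * u' : V.valuationSubring) : E) = -(r * v ^ 2) := by
    push_cast
    rw [hu', huv]
    ring
  rw [this, Valuation.map_neg]
  exact hlt.1

variable [HenselianLocalRing V.valuationSubring]

theorem hens_sqrt (h2 : (2 : IsLocalRing.ResidueField V.valuationSubring) ≠ 0) {u : V.valuationSubring} (hu : IsLocalRing.residue V.valuationSubring u ≠ 0)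
    (hsq : IsSquare (IsLocalRing.residue V.valuationSubring u)) : ∃ t : V.valuationSubring, t ^ 2 = u := by
  obtain ⟨b0, hb0⟩ := hsq
  obtain ⟨b, rfl⟩ := IsLocalRing.residue_surjective b0
  have hb : IsLocalRing.residue V.valuationSubring b ≠ 0 := by
    intro h
    rw [h, mul_zero] at hb0
    exact hu hb0
  obtain ⟨t, ht, -⟩ := HenselianLocalRing.is_henselian (X ^ 2 - C u : V.valuationSubring[X])
    (monic_X_pow_sub_C _ two_ne_zero) b (by
      rw [← IsLocalRing.residue_eq_zero_iff, eval_sub, eval_pow, eval_X, eval_C, map_sub, map_pow,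
        hb0]
      ring) (by
      rw [← IsLocalRing.residue_ne_zero_iff_isUnit, derivative_sub, derivative_X_pow, derivative_C,
        sub_zero, eval_mul, eval_C, eval_pow, eval_X, map_mul, map_natCast]
      simp only [Nat.add_one_sub_one, pow_one, Nat.cast_ofNat]
      exact mul_ne_zero h2 hb)
  refine ⟨t, ?_⟩
  rw [IsRoot.def, eval_sub, eval_pow, eval_X, eval_C] at ht
  exact sub_eq_zero.1 ht

variable [Finite (IsLocalRing.ResidueField V.valuationSubring)]

theorem norm_unit (h2 : (2 : IsLocalRing.ResidueField V.valuationSubring) ≠ 0) {c r : V.valuationSubring} (hc : IsLocalRing.residue V.valuationSubring c ≠ 0) (hr : IsLocalRing.residue V.valuationSubring r ≠ 0) :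
    Splits (c : E) (r : E) := by
  classical
  let _ : Fintype (IsLocalRing.ResidueField V.valuationSubring) := Fintype.ofFinite _
  have hchar : ringChar (IsLocalRing.ResidueField V.valuationSubring) ≠ 2 := by
    intro h
    apply h2
    have : ((ringChar (IsLocalRing.ResidueField V.valuationSubring) : ℕ) : IsLocalRing.ResidueField V.valuationSubring) = 0 := ringChar.Nat.cast_ringChar
    rw [h] at this
    exact_mod_cast this
  have hodd : Fintype.card (IsLocalRing.ResidueField V.valuationSubring) % 2 = 1 := FiniteField.odd_card_of_char_ne_two hchar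
  obtain ⟨a0, b0, hab⟩ := FiniteField.exists_root_sum_quadratic (f := (X ^ 2 - C (IsLocalRing.residue V.valuationSubring c) : (IsLocalRing.ResidueField V.valuationSubring)[X]))
    (g := (C (-IsLocalRing.residue V.valuationSubring r) * X ^ 2 : (IsLocalRing.ResidueField V.valuationSubring)[X])) (degree_X_pow_sub_C (by norm_num) _)
    (degree_C_mul_X_pow 2 (neg_ne_zero.2 hr)) hodd
  rw [eval_sub, eval_pow, eval_X, eval_C, eval_mul, eval_C, eval_pow, eval_X] at hab
  obtain ⟨a, rfl⟩ := IsLocalRing.residue_surjective a0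
  obtain ⟨b, rfl⟩ := IsLocalRing.residue_surjective b0
  by_cases ha : IsLocalRing.residue V.valuationSubring a = 0
  · have hrA : IsUnit r := (IsLocalRing.residue_ne_zero_iff_isUnit _).1 hr
    obtain ⟨ru, hru⟩ := hrA
    have hrr : (↑(ru⁻¹) : V.valuationSubring) * r = 1 := by
      rw [← hru, Units.inv_mul]
    have hres : IsLocalRing.residue V.valuationSubring (↑(ru⁻¹) : V.valuationSubring) * IsLocalRing.residue V.valuationSubring r = 1 := by
      rw [← map_mul, hrr, map_one]
    have hb2 : IsLocalRing.residue V.valuationSubring (-(↑(ru⁻¹) : V.valuationSubring) * c) = IsLocalRing.residue V.valuationSubring b ^ 2 := by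
      rw [map_mul, map_neg]
      rw [ha] at hab
      linear_combination (IsLocalRing.residue V.valuationSubring (↑(ru⁻¹) : V.valuationSubring)) * hab + ((IsLocalRing.residue V.valuationSubring b) ^ 2) * hres
    obtain ⟨t, ht⟩ := hens_sqrt V h2 (u := -(↑(ru⁻¹) : V.valuationSubring) * c) (by
      rw [map_mul, map_neg]
      refine mul_ne_zero (neg_ne_zero.2 ?_) hc
      intro h
      rw [h, zero_mul] at hres
      exact zero_ne_one hres) ⟨IsLocalRing.residue V.valuationSubring b, by rw [hb2, sq]⟩
    refine ⟨0, t, ?_⟩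
    have h3 : c = -(r * t ^ 2) := by
      rw [ht]
      linear_combination (-c) * hrr
    have := congrArg (fun s : V.valuationSubring => (s : E)) h3
    push_cast at this
    rw [this]
    ring
  · have h1 : IsLocalRing.residue V.valuationSubring (c + r * b ^ 2) = IsLocalRing.residue V.valuationSubring a ^ 2 := by
      rw [map_add, map_mul, map_pow]
      linear_combination -hab
    obtain ⟨t, ht⟩ := hens_sqrt V h2 (u := c + r * b ^ 2) (by rw [h1]; exact pow_ne_zero _ ha)
      ⟨IsLocalRing.residue V.valuationSubring a, by rw [h1, sq]⟩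
    refine ⟨t, b, ?_⟩
    have := congrArg (fun s : V.valuationSubring => (s : E)) ht
    push_cast at this
    rw [this]
    ring

theorem norm_even (h2 : (2 : IsLocalRing.ResidueField V.valuationSubring) ≠ 0) {c r : E} (hc : c ≠ 0) (hr : r ≠ 0) (hcv : EvenV V c)
    (hrv : EvenV V r) : Splits c r := by
  obtain ⟨s, hs⟩ := hcv
  obtain ⟨t, ht⟩ := hrv
  have hs0 : s ≠ 0 := by
    rintro rfl
    rw [map_zero, zero_pow two_ne_zero, map_eq_zero] at hs
    exact hc hs
  have ht0 : t ≠ 0 := by
    rintro rfl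
    rw [map_zero, zero_pow two_ne_zero, map_eq_zero] at ht
    exact hr ht
  have h1 : V (c / s ^ 2) = 1 := by
    rw [map_div₀, map_pow, hs, div_self]
    exact pow_ne_zero _ ((Valuation.ne_zero_iff _).2 hs0)
  have h3 : V (r / t ^ 2) = 1 := by
    rw [map_div₀, map_pow, ht, div_self]
    exact pow_ne_zero _ ((Valuation.ne_zero_iff _).2 ht0)
  obtain ⟨u, v, huv⟩ := norm_unit V h2 (c := ⟨c / s ^ 2, (Valuation.mem_valuationSubring_iff _ _).2 h1.le⟩)
    (r := ⟨r / t ^ 2, (Valuation.mem_valuationSubring_iff _ _).2 h3.le⟩)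
    ((res_ne_iff V _).2 h1) ((res_ne_iff V _).2 h3)
  refine ⟨s * u, s * v / t, ?_⟩
  have huv' : c / s ^ 2 = u ^ 2 - r / t ^ 2 * v ^ 2 := huv
  field_simp at huv' ⊢
  linear_combination huv'

end local_

end Pool.Agent.Helper47.GX
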