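import Mathlib
import Pool.Agent.Helper47.GX.Lf

/-!
# Local invariants of the class `(x^(2m) + 1, r)`: the places
-/

set_option autoImplicit false

namespace Pool.Agent.Helper47.GX

open Polynomial WithZero

section

variable {E : Type*} [Field E] (V : Valuation E ℤᵐ⁰)


/-- normalisation of the homogeneous coordinates -/
theorem normal {x z : E} (hxz : x ≠ 0 ∨ z ≠ 0) : ∃ (l : E) (x' z' : V.valuationSubring), l ≠ 0 ∧
    x = l * x' ∧ z = l * z' ∧ (z' = 1 ∨ (x' = 1 ∧ IsLocalRing.residue V.valuationSubring z' = 0)) := by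
  rcases le_or_gt (V x) (V z) with h | h
  · have hz : z ≠ 0 := by
      rintro rfl
      rw [map_zero, le_zero_iff, map_eq_zero] at h
      rcases hxz with h1 | h1 <;> exact h1 (by first | exact h | rfl)
    have hzv : V z ≠ 0 := (Valuation.ne_zero_iff _).2 hz
    refine ⟨z, ⟨x / z, ?_⟩, 1, hz, ?_, ?_, Or.inl rfl⟩
    · rw [Valuation.mem_valuationSubring_iff, map_div₀]
      exact div_le_one_of_le₀ h zero_le
    · change x = z * (x / z)
      field_simp
    · simp
  · have hx : x ≠ 0 := by
      rintro rfl
      rw [map_zero] at h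
      exact absurd h not_lt_zero
    have hxv : V x ≠ 0 := (Valuation.ne_zero_iff _).2 hx
    have h1 : V (z / x) < 1 := by
      rw [map_div₀]
      exact (div_lt_one₀ (zero_lt_iff.2 hxv)).2 h
    refine ⟨x, 1, ⟨z / x, ?_⟩, hx, ?_, ?_, Or.inr ⟨rfl, ?_⟩⟩
    · rw [Valuation.mem_valuationSubring_iff]
      exact h1.le
    · simp
    · change z = x * (z / x)
      field_simp
    · rw [res_zero_iff]
      exact h1

theorem coe_FF1 (m : ℕ) (x z : V.valuationSubring) :
    (((x ^ (2 * m) + z ^ (2 * m) : V.valuationSubring)) : E) = FF1 m (x : E) z := by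
  unfold FF1
  push_cast
  rfl

theorem coe_FF2 (m : ℕ) (x z : V.valuationSubring) :
    (((x ^ (2 * m) + 2 * x ^ m * z ^ m + 3 * z ^ (2 * m) : V.valuationSubring)) : E) =
      FF2 m (x : E) z := by
  unfold FF2
  push_cast
  rfl

/-- the reductions of the two forms have no common zero -/
theorem not_both (h2 : (2 : IsLocalRing.ResidueField V.valuationSubring) ≠ 0) {m : ℕ} (hm : 0 < m) {x z : V.valuationSubring}
    (hxz : z = 1 ∨ (x = 1 ∧ IsLocalRing.residue V.valuationSubring z = 0)) (h1 : IsLocalRing.residue V.valuationSubring (x ^ (2 * m) + z ^ (2 * m)) = 0) :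
    IsLocalRing.residue V.valuationSubring (x ^ (2 * m) + 2 * x ^ m * z ^ m + 3 * z ^ (2 * m)) ≠ 0 := by
  rcases hxz with rfl | ⟨rfl, hz⟩
  · intro h3
    simp only [map_add, map_mul, map_pow, map_one, one_pow, mul_one, map_ofNat] at h1 h3
    have h4 : (2 : IsLocalRing.ResidueField V.valuationSubring) * (IsLocalRing.residue V.valuationSubring x ^ m + 1) = 0 := by linear_combination h3 - h1
    have h5 : IsLocalRing.residue V.valuationSubring x ^ m = -1 := by
      have := (mul_eq_zero.1 h4).resolve_left h2
      linear_combination this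
    have h6 : IsLocalRing.residue V.valuationSubring x ^ (2 * m) = 1 := by
      rw [mul_comm, pow_mul, h5]
      norm_num
    rw [h6] at h1
    apply h2
    linear_combination h1
  · exfalso
    simp only [map_add, map_pow, map_one, one_pow, hz, zero_pow (show 2 * m ≠ 0 by omega),
      add_zero] at h1
    exact one_ne_zero h1

variable {V} in
theorem EvenV.of_mul {c d r y : E} (h : r * y ^ 2 = c * d) (hc : V c = 1) (hy : y ≠ 0)
    (hd : EvenV V d) : EvenV V r := by
  obtain ⟨s, hs⟩ := hd
  refine ⟨s / y, ?_⟩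
  have hyv : V y ≠ 0 := (Valuation.ne_zero_iff _).2 hy
  have := congrArg V h
  rw [map_mul, map_pow, map_mul, hc, one_mul, hs] at this
  rw [map_div₀, div_pow, ← this, mul_div_cancel_right₀ _ (pow_ne_zero _ hyv)]

variable {V} in
theorem EvenV.of_mul' {c d r y : E} (h : r * y ^ 2 = c * d) (hc : V c = 1)
    (hr : EvenV V r) : EvenV V d := by
  obtain ⟨s, hs⟩ := hr
  refine ⟨s * y, ?_⟩
  have := congrArg V h
  rw [map_mul, map_pow, map_mul, hc, one_mul, hs] at this
  rw [map_mul, mul_pow, ← this]

theorem evenV_one {c : E} (h : V c = 1) : EvenV V c := ⟨1, by rw [map_one, one_pow, h]⟩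

variable [HenselianLocalRing V.valuationSubring] [Finite (IsLocalRing.ResidueField V.valuationSubring)]

/-- the places at which the value of `r` is even -/
theorem even_place (h2 : (2 : IsLocalRing.ResidueField V.valuationSubring) ≠ 0) {m : ℕ} (hm : 0 < m) {r x z y : E} (hr0 : r ≠ 0)
    (hr : EvenV V r) (hxz : x ≠ 0 ∨ z ≠ 0) (h : r * y ^ 2 = FF1 m x z * FF2 m x z) :
    Splits (val m x z) r := by
  classical
  obtain ⟨l, x', z', hl, rfl, rfl, hn⟩ := normal V hxz
  rw [val_scale hl, splits_sq_mul_iff (pow_ne_zero _ hl)]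
  have h' : r * (y / (l ^ m) ^ 2) ^ 2 = FF1 m (x' : E) z' * FF2 m (x' : E) z' := by
    rw [FF1_scale, FF2_scale] at h
    have hlm : (l ^ m) ≠ 0 := pow_ne_zero _ hl
    rw [div_pow, mul_div_assoc', h]
    field_simp
  obtain ⟨y', hy'⟩ : ∃ y' : E, y' = y / (l ^ m) ^ 2 := ⟨_, rfl⟩
  rw [← hy'] at h'
  set p1 : V.valuationSubring := x' ^ (2 * m) + z' ^ (2 * m) with hp1
  set p2 : V.valuationSubring := x' ^ (2 * m) + 2 * x' ^ m * z' ^ m + 3 * z' ^ (2 * m) with hp2
  have hc1 : (p1 : E) = FF1 m (x' : E) z' := coe_FF1 V m x' z'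
  have hc2 : (p2 : E) = FF2 m (x' : E) z' := coe_FF2 V m x' z'
  have hnb : IsLocalRing.residue V.valuationSubring p1 = 0 → IsLocalRing.residue V.valuationSubring p2 ≠ 0 := not_both V h2 hm hn
  rw [← hc1, ← hc2] at h'
  unfold val
  rw [← hc1, ← hc2]
  by_cases h0 : (p1 : E) = 0
  · rw [if_pos h0]
    have h3 : IsLocalRing.residue V.valuationSubring p1 = 0 := by
      rw [res_zero_iff, h0, map_zero]
      exact zero_lt_one
    have h4 := (res_ne_iff V _).1 (hnb h3)
    refine norm_even V h2 ?_ hr0 (evenV_one V (by rw [Valuation.map_neg, h4])) hr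
    rw [neg_ne_zero]
    exact (Valuation.ne_zero_iff V).1 (by rw [h4]; exact one_ne_zero)
  · rw [if_neg h0]
    refine norm_even V h2 h0 hr0 ?_ hr
    by_cases h3 : IsLocalRing.residue V.valuationSubring p1 = 0
    · have h4 := (res_ne_iff V _).1 (hnb h3)
      exact EvenV.of_mul' (by rw [h', mul_comm]) h4 hr
    · exact evenV_one V ((res_ne_iff V _).1 h3)

/-- the places above `r` at which the value of `r` is odd -/
theorem odd_place {rn f : ℕ} (hrp : rn.Prime) (h16 : 16 ∣ rn - 1)
    (h2r : (2 : ZMod rn) ^ ((rn - 1) / 4) = -1) [CharP (IsLocalRing.ResidueField V.valuationSubring) rn]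
    (hq : Nat.card (IsLocalRing.ResidueField V.valuationSubring) = rn ^ f) {m : ℕ} (hm : 0 < m) {r x z y : E}
    (hr : ¬ EvenV V r) (hxz : x ≠ 0 ∨ z ≠ 0) (h : r * y ^ 2 = FF1 m x z * FF2 m x z) :
    Splits (val m x z) r ↔ Even f := by
  classical
  have h2 : (2 : IsLocalRing.ResidueField V.valuationSubring) ≠ 0 := by
    intro h
    have h5 : ((2 : ℕ) : IsLocalRing.ResidueField V.valuationSubring) = 0 := by exact_mod_cast h
    rw [CharP.cast_eq_zero_iff (IsLocalRing.ResidueField V.valuationSubring) rn] at h5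
    have := Nat.le_of_dvd (by norm_num) h5
    obtain ⟨c, hc⟩ := h16
    have := hrp.two_le
    omega
  obtain ⟨t, ht⟩ := kap_t (κ := (IsLocalRing.ResidueField V.valuationSubring)) hrp h16
  obtain ⟨l, x', z', hl, rfl, rfl, hn⟩ := normal V hxz
  rw [val_scale hl, splits_sq_mul_iff (pow_ne_zero _ hl)]
  have h' : r * (y / (l ^ m) ^ 2) ^ 2 = FF1 m (x' : E) z' * FF2 m (x' : E) z' := by
    rw [FF1_scale, FF2_scale] at h
    have hlm : (l ^ m) ≠ 0 := pow_ne_zero _ hl
    rw [div_pow, mul_div_assoc', h]
    field_simp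
  obtain ⟨y', hy'⟩ : ∃ y' : E, y' = y / (l ^ m) ^ 2 := ⟨_, rfl⟩
  rw [← hy'] at h'
  set p1 : V.valuationSubring := x' ^ (2 * m) + z' ^ (2 * m) with hp1
  set p2 : V.valuationSubring := x' ^ (2 * m) + 2 * x' ^ m * z' ^ m + 3 * z' ^ (2 * m) with hp2
  have hc1 : (p1 : E) = FF1 m (x' : E) z' := coe_FF1 V m x' z'
  have hc2 : (p2 : E) = FF2 m (x' : E) z' := coe_FF2 V m x' z'
  have hnb : IsLocalRing.residue V.valuationSubring p1 = 0 → IsLocalRing.residue V.valuationSubring p2 ≠ 0 := not_both V h2 hm hn
  rw [← hc1, ← hc2] at h'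
  unfold val
  rw [← hc1, ← hc2]
  -- not both are units
  have hzero : IsLocalRing.residue V.valuationSubring p1 = 0 ∨ IsLocalRing.residue V.valuationSubring p2 = 0 := by
    by_contra hno
    push Not at hno
    have v1 := (res_ne_iff V _).1 hno.1
    have v2 := (res_ne_iff V _).1 hno.2
    apply hr
    refine EvenV.of_mul h' v1 ?_ (evenV_one V v2)
    rintro rfl
    rw [zero_pow two_ne_zero, mul_zero] at h'
    have := congrArg V h'
    rw [map_zero, map_mul, v1, v2, one_mul] at this
    exact zero_ne_one this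
  have hz1 : z' = 1 := by
    rcases hn with h3 | ⟨h3, h4⟩
    · exact h3
    · exfalso
      rcases hzero with h5 | h5
      · rw [hp1, h3] at h5
        simp only [map_add, map_pow, map_one, one_pow, h4, zero_pow (show 2 * m ≠ 0 by omega),
          add_zero] at h5
        exact one_ne_zero h5
      · rw [hp2, h3] at h5
        simp only [map_add, map_mul, map_pow, map_one, one_pow, h4,
          zero_pow (show 2 * m ≠ 0 by omega), zero_pow (show m ≠ 0 by omega), mul_zero,
          add_zero] at h5
        exact one_ne_zero h5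
  have e1 : IsLocalRing.residue V.valuationSubring p1 = IsLocalRing.residue V.valuationSubring x' ^ (2 * m) + 1 := by
    rw [hp1, hz1]
    simp only [map_add, map_pow, map_one, one_pow]
  have e2 : IsLocalRing.residue V.valuationSubring p2 = IsLocalRing.residue V.valuationSubring x' ^ (2 * m) + 2 * IsLocalRing.residue V.valuationSubring x' ^ m + 3 := by
    rw [hp2, hz1]
    simp only [map_add, map_mul, map_pow, map_one, one_pow, mul_one, map_ofNat]
  have hneg : ∀ a : IsLocalRing.ResidueField V.valuationSubring, IsSquare (-a) ↔ IsSquare a := by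
    intro a
    have key : ∀ a : IsLocalRing.ResidueField V.valuationSubring, IsSquare a → IsSquare (-a) := by
      rintro a ⟨b, rfl⟩
      exact ⟨t ^ 4 * b, by linear_combination -(b * b) * ht⟩
    constructor
    · intro h
      have := key _ h
      rwa [neg_neg] at this
    · exact key a
  rcases hzero with h3 | h3
  · -- the first factor vanishes
    have h4 := hnb h3
    have h5 : IsLocalRing.residue V.valuationSubring (-p2) ≠ 0 := by rw [map_neg]; exact neg_ne_zero.2 h4
    have hmain : Splits (((-p2 : V.valuationSubring)) : E) r ↔ Even f := by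
      constructor
      · intro hs
        by_contra hf
        have h6 := not_norm V hr h5 hs
        rw [map_neg, hneg, e2] at h6
        exact nonsq1 ht (kap_odd (κ := (IsLocalRing.ResidueField V.valuationSubring)) hrp h16 h2r hq (Nat.not_even_iff_odd.1 hf))
          (by rw [← e1]; exact h3) h6
      · intro hf
        obtain ⟨u, hu⟩ := kap_even (κ := (IsLocalRing.ResidueField V.valuationSubring)) hrp h16 h2r hq hf
        have h6 : IsSquare (IsLocalRing.residue V.valuationSubring (-p2)) := by
          rw [map_neg, hneg, e2]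
          exact sq1 ht hu (by rw [← e1]; exact h3)
        obtain ⟨s, hs⟩ := hens_sqrt V h2 h5 h6
        rw [← hs]
        push_cast
        exact splits_sq _ _
    have hco : (((-p2 : V.valuationSubring)) : E) = -(p2 : E) := by push_cast; rfl
    rw [hco] at hmain
    by_cases h0 : (p1 : E) = 0
    · rw [if_pos h0]
      exact hmain
    · rw [if_neg h0, ← hmain]
      have hp20 : -(p2 : E) ≠ 0 := by
        rw [neg_ne_zero]
        exact (Valuation.ne_zero_iff V).1 (by rw [(res_ne_iff V _).1 h4]; exact one_ne_zero)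
      constructor
      · exact splits_swap (y := y') h0 (by rw [h']; ring)
      · exact splits_swap (y := y') hp20 (by rw [h']; ring)
  · -- the second factor vanishes
    have h4 : IsLocalRing.residue V.valuationSubring p1 ≠ 0 := fun h => hnb h h3
    have h0 : (p1 : E) ≠ 0 :=
      (Valuation.ne_zero_iff V).1 (by rw [(res_ne_iff V _).1 h4]; exact one_ne_zero)
    rw [if_neg h0]
    constructor
    · intro hs
      by_contra hf
      have h6 := not_norm V hr h4 hs
      rw [e1] at h6
      exact nonsq2 ht (kap_odd (κ := (IsLocalRing.ResidueField V.valuationSubring)) hrp h16 h2r hq (Nat.not_even_iff_odd.1 hf))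
        (by rw [← e2]; exact h3) h6
    · intro hf
      obtain ⟨u, hu⟩ := kap_even (κ := (IsLocalRing.ResidueField V.valuationSubring)) hrp h16 h2r hq hf
      have h6 : IsSquare (IsLocalRing.residue V.valuationSubring p1) := by
        rw [e1]
        exact sq2 ht hu (by rw [← e2]; exact h3)
      obtain ⟨s, hs⟩ := hens_sqrt V h2 h4 h6
      rw [← hs]
      push_cast
      exact splits_sq _ _

omit [Finite (IsLocalRing.ResidueField V.valuationSubring)] in
/-- the places above `2` -/
theorem two_place [CharZero E] (h2 : (2 : IsLocalRing.ResidueField V.valuationSubring) = 0) {rn : ℕ} (hr : rn ≠ 0) (h8 : 8 ∣ rn - 1) (c : E) :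
    Splits c (rn : E) := by
  obtain ⟨k, hk⟩ := h8
  have hrk : rn = 8 * k + 1 := by omega
  obtain ⟨t, ht, -⟩ := HenselianLocalRing.is_henselian
    (X ^ 2 + (X - C ((2 * k : ℕ) : V.valuationSubring)) : V.valuationSubring[X])
    (by
      apply (monic_X_pow 2).add_of_left
      rw [degree_X_pow, degree_X_sub_C]
      norm_num) 0 (by
      rw [← IsLocalRing.residue_eq_zero_iff]
      rw [eval_add, eval_pow, eval_X, eval_sub, eval_X, eval_C, map_add, map_pow, map_sub, map_zero,
        map_natCast, Nat.cast_mul, Nat.cast_ofNat, h2]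
      ring) (by
      simp)
  rw [IsRoot.def, eval_add, eval_pow, eval_X, eval_sub, eval_X, eval_C] at ht
  have ht' : (t : E) ^ 2 + ((t : E) - ((2 * k : ℕ) : E)) = 0 := by
    have := congrArg V.valuationSubring.subtype ht
    rwa [map_add, map_pow, map_sub, map_natCast, map_zero] at this
  push_cast at ht'
  refine splits_of_sq (t := 2 * (t : E) + 1) two_ne_zero ?_ ?_ c
  · intro h0
    have h1 : (rn : E) = 0 := by
      rw [hrk]
      push_cast
      linear_combination -4 * ht' + (2 * (t : E) + 1) * h0
    exact hr (by exact_mod_cast h1)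
  · rw [hrk]
    push_cast
    linear_combination 4 * ht'

end

end Pool.Agent.Helper47.GX
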