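import Mathlib
import Pool.Agent.Helper47.GX.Lp
import Pool.Graph.R_pool_sql_team_seeded_3997aac3.Q52.SecW.Val

/-!
# Local invariants of the class `(x^(2m) + 1, r)` at the places of a number field of odd degree
-/

set_option autoImplicit false

namespace Pool.Agent.Helper47.GX

open Polynomial NumberField IsDedekindDomain WithZero
open Pool.Agent.W858.SF

section

variable {L : Type} [Field L] [NumberField L] (w : HeightOneSpectrum (𝓞 L))

theorem vv_natCast (n : ℕ) :
    vv w ((n : ℕ) : w.adicCompletion L) = w.intValuation ((n : ℕ) : 𝓞 L) := by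
  have h1 : ((n : ℕ) : w.adicCompletion L) =
      algebraMap L (w.adicCompletion L) (algebraMap (𝓞 L) L (n : 𝓞 L)) := by
    rw [map_natCast, map_natCast]
  rw [h1, vv_algebraMap, HeightOneSpectrum.valuation_of_algebraMap]

theorem res_natCast (n : ℕ) :
    ((n : ℕ) : IsLocalRing.ResidueField (vv w).valuationSubring) = 0 ↔ (n : 𝓞 L) ∈ w.asIdeal := by
  rw [← map_natCast (IsLocalRing.residue (vv w).valuationSubring), res_zero_iff,
    SubringClass.coe_natCast, vv_natCast]
  exact HeightOneSpectrum.intValuation_lt_one_iff_mem w _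

theorem vv_one_of_not_mem {n : ℕ} (h : (n : 𝓞 L) ∉ w.asIdeal) :
    vv w ((n : ℕ) : w.adicCompletion L) = 1 := by
  rw [vv_natCast]
  have h1 := HeightOneSpectrum.intValuation_le_one w (n : 𝓞 L)
  have h2 := (HeightOneSpectrum.intValuation_lt_one_iff_mem w (n : 𝓞 L)).not.2 h
  exact le_antisymm h1 (not_lt.1 h2)

variable {r : ℕ} (hr : r.Prime) (hw : (r : 𝓞 L) ∈ w.asIdeal)

include hr hw in
theorem liesOver_span : w.asIdeal.LiesOver (Ideal.span {(r : ℤ)}) := by
  have hp : Prime (r : ℤ) := Nat.prime_iff_prime_int.1 hr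
  have hmax : (Ideal.span {(r : ℤ)}).IsMaximal :=
    ((Ideal.span_singleton_prime hp.ne_zero).2 hp).isMaximal (by
      rw [Ne, Ideal.span_singleton_eq_bot]
      exact hp.ne_zero)
  refine ⟨?_⟩
  refine hmax.eq_of_le ?_ ?_
  · intro h
    have h1 : (1 : 𝓞 L) ∈ w.asIdeal := by
      have h2 : (1 : ℤ) ∈ Ideal.under ℤ w.asIdeal := by
        rw [h]
        trivial
      rw [Ideal.under_def, Ideal.mem_comap, map_one] at h2
      exact h2
    exact w.isPrime.ne_top ((Ideal.eq_top_iff_one _).2 h1)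
  · rw [Ideal.span_le, Set.singleton_subset_iff]
    change (r : ℤ) ∈ Ideal.under ℤ w.asIdeal
    rw [Ideal.under_def, Ideal.mem_comap, map_natCast]
    exact hw

include hr hw in
theorem card_residue : Nat.card (IsLocalRing.ResidueField (vv w).valuationSubring) =
    r ^ (Ideal.inertiaDeg' (Ideal.span {(r : ℤ)}) w.asIdeal) := by
  obtain ⟨θ, hsurj, -⟩ := exists_residue_map w
  have := w.isMaximal
  let _ : Field (𝓞 L ⧸ w.asIdeal) := Ideal.Quotient.field _
  have hinj : Function.Injective θ := θ.injective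
  rw [← Nat.card_congr (Equiv.ofBijective θ ⟨hinj, hsurj⟩)]
  have hl := liesOver_span w hr hw
  have h1 := Ideal.absNorm_eq_pow_inertiaDeg (p := (r : ℤ)) w.asIdeal (Nat.prime_iff_prime_int.1 hr)
  rw [Int.natAbs_natCast] at h1
  rw [← h1, Ideal.absNorm_apply]
  rfl

include hr hw in
theorem charP_residue : CharP (IsLocalRing.ResidueField (vv w).valuationSubring) r := by
  have h0 := (res_natCast w r).2 hw
  have h1 := ringChar.dvd h0
  rcases (Nat.dvd_prime hr).1 h1 with h2 | h2
  · exact absurd h2 CharP.ringChar_ne_one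
  · rw [← h2]
    exact ringChar.charP _

include hr hw in
theorem evenV_iff : EvenV (vv w) ((r : ℕ) : w.adicCompletion L) ↔
    Even (Ideal.ramificationIdx' (Ideal.span {(r : ℤ)}) w.asIdeal) := by
  have hl := liesOver_span w hr hw
  have hp : Prime (r : ℤ) := Nat.prime_iff_prime_int.1 hr
  let v : HeightOneSpectrum ℤ := ⟨Ideal.span {(r : ℤ)}, (Ideal.span_singleton_prime hp.ne_zero).2 hp,
    by
      rw [Ne, Ideal.span_singleton_eq_bot]
      exact hp.ne_zero⟩
  have hlv : w.asIdeal.LiesOver v.asIdeal := hl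
  have h1 := HeightOneSpectrum.intValuation_liesOver v w (r : ℤ)
  have h2 : v.intValuation (r : ℤ) = exp (-1) :=
    HeightOneSpectrum.intValuation_singleton v hp.ne_zero rfl
  have h3 : vv w ((r : ℕ) : w.adicCompletion L) =
      exp (-(Ideal.ramificationIdx' (Ideal.span {(r : ℤ)}) w.asIdeal : ℤ)) := by
    rw [vv_natCast]
    rw [h2, map_natCast, ← exp_nsmul] at h1
    rw [← h1]
    congr 1
    change _ • (-1 : ℤ) = _
    rw [smul_neg, nsmul_eq_mul, mul_one]
  unfold EvenV
  rw [h3]
  constructor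
  · rintro ⟨z, hz⟩
    have hz0 : vv w z ≠ 0 := by
      intro h
      rw [h, zero_pow two_ne_zero] at hz
      exact exp_ne_zero hz
    rw [← exp_log hz0, ← exp_nsmul, exp_inj, two_nsmul] at hz
    rw [← Int.even_coe_nat, ← even_neg, hz]
    exact ⟨log (vv w z), rfl⟩
  · rintro ⟨k, hk⟩
    obtain ⟨ϖ, hϖ⟩ := w.valuation_exists_uniformizer L
    refine ⟨algebraMap L (w.adicCompletion L) (ϖ ^ k), ?_⟩
    rw [vv_algebraMap, map_pow, hϖ, hk, ← exp_nsmul, ← exp_nsmul, exp_inj]
    push_cast
    simp only [nsmul_eq_mul]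
    push_cast
    ring

end

end Pool.Agent.Helper47.GX
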