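import Mathlib

/-!
# Polynomials in two variables: even and odd part, degrees of the coefficients, resultants
-/

set_option autoImplicit false

namespace Pool.Agent.Helper47.GX

open Polynomial

/-- even and odd part -/
theorem exists_eo {R : Type*} [CommRing R] (f : R[X]) :
    ∃ E O : R[X], f = expand R 2 E + X * expand R 2 O := by
  induction f using Polynomial.induction_on' with
  | add p q hp hq =>
    obtain ⟨E, O, h⟩ := hp
    obtain ⟨E', O', h'⟩ := hq
    exact ⟨E + E', O + O', by rw [h, h', map_add, map_add]; ring⟩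
  | monomial n a =>
    rcases Nat.even_or_odd' n with ⟨k, rfl | rfl⟩
    · exact ⟨monomial k a, 0, by rw [expand_monomial, map_zero, mul_zero, add_zero, mul_comm]⟩
    · refine ⟨0, monomial k a, ?_⟩
      rw [expand_monomial, map_zero, zero_add, X_mul_monomial, mul_comm k 2]

theorem comp_neg_expand {R : Type*} [CommRing R] (f : R[X]) :
    (expand R 2 f).comp (-X) = expand R 2 f := by
  rw [expand_eq_comp_X_pow, comp_assoc, X_pow_comp, neg_sq]

/-- an even polynomial is a polynomial in `X²` -/
theorem exists_expand {R : Type*} [CommRing R] [IsDomain R] (h2 : (2 : R) ≠ 0) {f : R[X]}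
    (hf : f.comp (-X) = f) : ∃ Q : R[X], f = expand R 2 Q := by
  obtain ⟨E, O, h⟩ := exists_eo f
  have h1 := hf
  rw [h, add_comp, mul_comp, X_comp, comp_neg_expand, comp_neg_expand] at h1
  have h3 : (C 2 * X) * expand R 2 O = 0 := by
    rw [map_ofNat]
    linear_combination -h1
  have h4 : expand R 2 O = 0 := by
    rcases mul_eq_zero.1 h3 with h5 | h5
    · exfalso
      have h6 := congrArg (fun p : R[X] => p.coeff 1) h5
      simp at h6
      exact h2 h6
    · exact h5
  exact ⟨E, by rw [h, h4, mul_zero, add_zero]⟩

section CB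

variable {F : Type*} [Field F]

/-- the degrees in `x` are at most `d` -/
def CB (f : F[X][X]) (d : ℕ) : Prop := ∀ i, (f.coeff i).natDegree ≤ d

theorem CB.mono {f : F[X][X]} {d e : ℕ} (h : CB f d) (hde : d ≤ e) : CB f e := fun i => (h i).trans hde

theorem CB_mul {f g : F[X][X]} {d e : ℕ} (hf : CB f d) (hg : CB g e) : CB (f * g) (d + e) := by
  intro i
  rw [coeff_mul]
  refine natDegree_sum_le_of_forall_le _ _ fun ij _ => ?_
  exact natDegree_mul_le.trans (Nat.add_le_add (hf _) (hg _))

theorem CB_add {f g : F[X][X]} {d : ℕ} (hf : CB f d) (hg : CB g d) : CB (f + g) d := by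
  intro i
  rw [coeff_add]
  exact (natDegree_add_le _ _).trans (max_le (hf _) (hg _))

theorem CB_C (c : F[X]) {d : ℕ} (hc : c.natDegree ≤ d) : CB (C c) d := by
  intro i
  rw [coeff_C]
  split_ifs
  · exact hc
  · simp

theorem CB_X {d : ℕ} : CB (X : F[X][X]) d := by
  intro i
  rw [coeff_X]
  split_ifs <;> simp

theorem CB_neg {f : F[X][X]} {d : ℕ} (hf : CB f d) : CB (-f) d := by
  intro i
  rw [coeff_neg, natDegree_neg]
  exact hf i

theorem CB_pow_zero {f : F[X][X]} (hf : CB f 0) (n : ℕ) : CB (f ^ n) 0 := by
  induction n with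
  | zero => rw [pow_zero, ← C_1]; exact CB_C 1 (by simp)
  | succ n ih => rw [pow_succ]; exact CB_mul ih hf

theorem CB_comp {f g : F[X][X]} {d : ℕ} (hf : CB f d) (hg : CB g 0) : CB (f.comp g) d := by
  rw [comp, eval₂_eq_sum_range]
  have key : ∀ s : Finset ℕ, CB (∑ i ∈ s, C (f.coeff i) * g ^ i) d := by
    intro s
    classical
    induction s using Finset.induction_on with
    | empty =>
      rw [Finset.sum_empty]
      intro i
      simp
    | insert a s ha ih =>
      rw [Finset.sum_insert ha]
      exact CB_add (CB_mul (CB_C _ (hf a)) (CB_pow_zero hg a)) ih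
  exact key _

theorem CB_of_expand {f : F[X][X]} {d : ℕ} (hf : CB (expand F[X] 2 f) d) : CB f d := by
  intro i
  have := hf (i * 2)
  rwa [coeff_expand_mul (by norm_num)] at this

theorem CB_expand {f : F[X][X]} {d : ℕ} (hf : CB f d) : CB (expand F[X] 2 f) d := by
  intro i
  rw [coeff_expand (by norm_num)]
  split_ifs
  · exact hf _
  · simp

theorem CB_scaleRoots {f : F[X][X]} {d : ℕ} (hf : CB f d) (g : F[X]) :
    CB (f.scaleRoots g) (d + f.natDegree * g.natDegree) := by
  intro i
  rw [coeff_scaleRoots]
  refine natDegree_mul_le.trans (Nat.add_le_add (hf i) ?_)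
  refine natDegree_pow_le.trans (Nat.mul_le_mul_right _ (Nat.sub_le _ _))

theorem CB_derivative {f : F[X][X]} {d : ℕ} (hf : CB f d) : CB (derivative f) d := by
  intro i
  rw [coeff_derivative]
  refine natDegree_mul_le.trans ?_
  have h1 : ((i : F[X]) + 1).natDegree = 0 := by
    have : ((i : F[X]) + 1) = C ((i : F) + 1) := by simp
    rw [this, natDegree_C]
  rw [h1, add_zero]
  exact hf _

theorem natDegree_resultant {f g : F[X][X]} {d : ℕ} (hf : CB f d) (hg : CB g d) (m n : ℕ) :
    (resultant f g m n).natDegree ≤ (m + n) * d := by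
  rw [resultant, Matrix.det_apply]
  refine natDegree_sum_le_of_forall_le _ _ fun σ _ => ?_
  have h1 : ∀ i j, (sylvester f g m n i j).natDegree ≤ d := by
    intro i j
    rw [sylvester, Matrix.of_apply]
    induction j using Fin.addCases with
    | left j =>
      rw [Fin.addCases_left]
      split_ifs
      · exact hg _
      · simp
    | right j =>
      rw [Fin.addCases_right]
      split_ifs
      · exact hf _
      · simp
  have h2 : (∏ i, sylvester f g m n (σ i) i).natDegree ≤ (m + n) * d := by
    refine (natDegree_prod_le _ _).trans ?_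
    refine (Finset.sum_le_card_nsmul _ _ d fun i _ => h1 _ _).trans ?_
    rw [Finset.card_univ, Fintype.card_fin, smul_eq_mul]
  have h3 : (Equiv.Perm.sign σ • ∏ i, sylvester f g m n (σ i) i).natDegree ≤ (m + n) * d := by
    rcases Int.units_eq_one_or (Equiv.Perm.sign σ) with h | h
    · rw [h, one_smul]
      exact h2
    · rw [h, Units.neg_smul, one_smul, natDegree_neg]
      exact h2
  exact h3

/-- a nonzero element of `F[x]` in the ideal generated by `f` and its derivative -/
theorem exists_disc {f : F[X][X]} {d : ℕ} (hf : CB f d) (hfm : f.Monic) (hn : 0 < f.natDegree)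
    {K : Type*} [Field K] [Algebra F[X] K] [IsFractionRing F[X] K]
    (hs : (f.map (algebraMap F[X] K)).Separable) :
    ∃ (A B : F[X][X]) (D : F[X]), A * f + B * derivative f = C D ∧ D ≠ 0 ∧
      D.natDegree ≤ (f.natDegree + f.natDegree) * d := by
  have hinj : Function.Injective (algebraMap F[X] K) := IsFractionRing.injective F[X] K
  obtain ⟨p, q, -, -, h⟩ := exists_mul_add_mul_eq_C_resultant (m := f.natDegree)
    (n := (derivative f).natDegree) f (derivative f) le_rfl le_rfl (Or.inl hn.ne')
  refine ⟨p, q, resultant f (derivative f), by rw [← h]; ring, ?_, ?_⟩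
  · intro h0
    have h1 := resultant_map_map f (derivative f) f.natDegree (derivative f).natDegree (algebraMap F[X] K)
    rw [h0, map_zero] at h1
    have h2 := (resultant_eq_zero_iff (f := f.map (algebraMap F[X] K))
      (g := (derivative f).map (algebraMap F[X] K))).1 (by
        rw [natDegree_map_eq_of_injective hinj, natDegree_map_eq_of_injective hinj]
        exact h1)
    apply h2.2
    rw [← derivative_map]
    exact hs
  · refine (natDegree_resultant hf (CB_derivative hf) _ _).trans ?_
    apply Nat.mul_le_mul_right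
    have := natDegree_derivative_le f
    omega

end CB

end Pool.Agent.Helper47.GX
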