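import Mathlib
import Pool.Agent.Helper47.GX.Nsq

/-!
# A plane model of the double covering `w² = g(x)` of `G(x, y) = 0`
-/

set_option autoImplicit false

namespace Pool.Agent.Helper47.GX

open Polynomial

/-- `(-1)^n G(x, -y)` -/
noncomputable def gt {R : Type*} [CommRing R] (G : R[X]) : R[X] := C ((-1) ^ G.natDegree) * G.comp (-X)

theorem neg_X_natDegree {R : Type*} [CommRing R] [Nontrivial R] : (-X : R[X]).natDegree = 1 := by
  rw [natDegree_neg, natDegree_X]

theorem gt_monic {R : Type*} [CommRing R] [IsDomain R] {G : R[X]} (hG : G.Monic) : (gt G).Monic := by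
  unfold gt Monic
  rw [leadingCoeff_mul, leadingCoeff_C, leadingCoeff_comp (by rw [neg_X_natDegree]; norm_num),
    hG.leadingCoeff, leadingCoeff_neg, leadingCoeff_X, one_mul, ← mul_pow, neg_one_mul, neg_neg, one_pow]

theorem gt_natDegree {R : Type*} [CommRing R] [IsDomain R] (G : R[X]) :
    (gt G).natDegree = G.natDegree := by
  unfold gt
  rw [natDegree_C_mul (pow_ne_zero _ (neg_ne_zero.2 one_ne_zero)), natDegree_comp, neg_X_natDegree, mul_one]

theorem gt_map {R S : Type*} [CommRing R] [IsDomain R] [CommRing S] [IsDomain S] (φ : R →+* S) {G : R[X]}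
    (hG : G.Monic) : (gt G).map φ = gt (G.map φ) := by
  unfold gt
  rw [Polynomial.map_mul, map_C, map_pow, map_neg, map_one, Polynomial.map_comp, hG.natDegree_map φ,
    Polynomial.map_neg, map_X]

theorem gt_eval {R : Type*} [CommRing R] (G : R[X]) (a : R) :
    (gt G).eval a = (-1) ^ G.natDegree * G.eval (-a) := by
  simp [gt, eval_comp]

theorem mul_gt_even {R : Type*} [CommRing R] (G : R[X]) : (G * gt G).comp (-X) = G * gt G := by
  have h1 : (G.comp (-X)).comp (-X) = G := by
    rw [comp_assoc]
    simp
  have h2 : (C ((-1 : R) ^ G.natDegree) : R[X]) * C ((-1) ^ G.natDegree) = 1 := by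
    rw [← C_mul, ← mul_pow]
    simp
  unfold gt
  rw [mul_comp, mul_comp, C_comp, h1]
  ring

variable {k : Type} [Field k] {K : Type} [Field K] [Algebra k[X] K] [IsFractionRing k[X] K]
  {Ω : Type} [Field Ω] [IsAlgClosed Ω] [Algebra K Ω] [Algebra.IsAlgebraic K Ω]

include K Ω in
theorem irr_H {G : k[X][X]} (hG : G.Monic) (hirr : Irreducible G)
    (hS : ∀ u v : Ω, aeval u (G.map (algebraMap k[X] K)) = 0 → aeval v (G.map (algebraMap k[X] K)) = 0 →
      u + v ≠ 0) {α : k} (hsq : Squarefree (G.map (evalRingHom α))) {g g1 : k[X]}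
    (hg : g = (X - C α) * g1) (hg1 : g1.eval α ≠ 0) {Q : k[X][X]} (hQ : G * gt G = expand k[X] 2 Q) :
    Irreducible (expand k[X] 2 (Q.scaleRoots g)) := by
  classical
  set GK := G.map (algebraMap k[X] K) with hGK
  have hinj : Function.Injective (algebraMap k[X] K) := IsFractionRing.injective k[X] K
  have hn : 0 < G.natDegree := by
    rcases Nat.eq_zero_or_pos G.natDegree with h | h
    · exact absurd (by rw [eq_one_of_monic_natDegree_zero hG h]; exact isUnit_one) hirr.not_isUnit
    · exact h
  have hGKm : GK.Monic := hG.map _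
  have hGKd : GK.natDegree = G.natDegree := hG.natDegree_map _
  have hGKirr : Irreducible GK := (hG.irreducible_iff_irreducible_map_fraction_map (K := K)).1 hirr
  have hg10 : g1 ≠ 0 := by
    rintro rfl
    exact hg1 (by simp)
  have hg0 : g ≠ 0 := by
    rw [hg]
    exact mul_ne_zero (X_sub_C_ne_zero α) hg10
  have hQm : Q.Monic := by
    have h1 : (expand k[X] 2 Q).Monic := by
      rw [← hQ]
      exact hG.mul (gt_monic hG)
    rwa [monic_expand_iff (by norm_num)] at h1
  have hQd : Q.natDegree = G.natDegree := by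
    have h1 := congrArg natDegree hQ
    rw [hG.natDegree_mul (gt_monic hG), gt_natDegree, natDegree_expand] at h1
    omega
  -- the elements
  obtain ⟨y, hy⟩ := IsAlgClosed.exists_aeval_eq_zero Ω GK (by
    rw [degree_eq_natDegree hGKm.ne_zero, hGKd]
    exact_mod_cast hn.ne')
  obtain ⟨w, hw⟩ := IsAlgClosed.exists_pow_nat_eq (algebraMap K Ω (algebraMap k[X] K g)) (n := 2) (by norm_num)
  have hgΩ : algebraMap K Ω (algebraMap k[X] K g) ≠ 0 := by
    rw [Ne, map_eq_zero, map_eq_zero_iff _ hinj]
    exact hg0
  have hy0 : y ≠ 0 := by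
    rintro rfl
    exact hS 0 0 hy hy (add_zero 0)
  have hint : IsIntegral K y := ⟨_, hGKm, hy⟩
  set z := y * w with hz
  have hzint : IsIntegral K z := Algebra.IsIntegral.isIntegral z
  -- `y ^ 2` is a zero of `Q`
  set QK := Q.map (algebraMap k[X] K) with hQK
  have hQy : aeval (y ^ 2) QK = 0 := by
    have h1 := congrArg (fun f : k[X][X] => aeval y (f.map (algebraMap k[X] K))) hQ
    simp only [Polynomial.map_mul, map_mul, map_expand, expand_aeval] at h1
    rw [← h1]
    have : aeval y (map (algebraMap k[X] K) G) = 0 := hy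
    rw [this, zero_mul]
  set H := expand k[X] 2 (Q.scaleRoots g) with hH
  have hHm : H.Monic := by
    rw [hH, monic_expand_iff (by norm_num), monic_scaleRoots_iff]
    exact hQm
  have hHd : H.natDegree = 2 * G.natDegree := by
    rw [hH, natDegree_expand, natDegree_scaleRoots, hQd, mul_comm]
  have hHK : H.map (algebraMap k[X] K) = expand K 2 (QK.scaleRoots (algebraMap k[X] K g)) := by
    rw [hH, map_expand, map_scaleRoots]
    rw [hQm.leadingCoeff, map_one]
    exact one_ne_zero
  have hHz : aeval z (H.map (algebraMap k[X] K)) = 0 := by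
    rw [hHK, expand_aeval, hz, mul_pow, hw, mul_comm]
    exact scaleRoots_aeval_eq_zero hQy
  -- `y` is contained in `K(z)`
  set Kz := IntermediateField.adjoin K {z} with hKz
  have hzmem : z ∈ Kz := IntermediateField.mem_adjoin_simple_self K z
  have hy2 : y ^ 2 ∈ Kz := by
    have h1 : y ^ 2 = z ^ 2 / algebraMap K Ω (algebraMap k[X] K g) := by
      rw [eq_div_iff hgΩ, hz, mul_pow, hw]
    rw [h1]
    exact div_mem (pow_mem hzmem 2) (Kz.algebraMap_mem _)
  have hymem : y ∈ Kz := by
    obtain ⟨E, O, hEO⟩ := exists_eo GK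
    have h1 : aeval (y ^ 2) E + y * aeval (y ^ 2) O = 0 := by
      have h2 := hy
      rw [hEO, map_add, map_mul, aeval_X, expand_aeval, expand_aeval] at h2
      exact h2
    have hO : aeval (y ^ 2) O ≠ 0 := by
      intro h0
      rw [h0, mul_zero, add_zero] at h1
      refine hS y (-y) hy ?_ (add_neg_cancel y)
      show aeval (-y) GK = 0
      rw [hEO, map_add, map_mul, aeval_X, expand_aeval, expand_aeval, neg_sq, h1, h0, mul_zero,
        add_zero]
    have h3 : y = -(aeval (y ^ 2) E) / aeval (y ^ 2) O := by
      rw [eq_div_iff hO]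
      linear_combination h1
    have hmem : ∀ P : K[X], aeval (y ^ 2) P ∈ Kz := by
      intro P
      have h4 : aeval (y ^ 2) P = ((aeval (⟨y ^ 2, hy2⟩ : Kz) P : Kz) : Ω) := by
        have := Polynomial.aeval_algebraMap_apply Ω (⟨y ^ 2, hy2⟩ : Kz) P
        exact this
      rw [h4]
      exact SetLike.coe_mem _
    rw [h3]
    exact div_mem (neg_mem (hmem E)) (hmem O)
  have hle : IntermediateField.adjoin K {y} ≤ Kz := by
    rw [IntermediateField.adjoin_simple_le_iff]
    exact hymem
  have hfy : Module.finrank K (IntermediateField.adjoin K {y}) = G.natDegree := by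
    rw [IntermediateField.adjoin.finrank hint, ← minpoly.eq_of_irreducible_of_monic hGKirr hy hGKm, hGKd]
  have hfz : Module.finrank K Kz = (minpoly K z).natDegree := IntermediateField.adjoin.finrank hzint
  haveI : FiniteDimensional K Kz := IntermediateField.adjoin.finiteDimensional hzint
  have hdvd : Module.finrank K (IntermediateField.adjoin K {y}) ∣ Module.finrank K Kz :=
    IntermediateField.finrank_dvd_of_le_right hle
  have hpos : 0 < Module.finrank K Kz := Module.finrank_pos
  have hge : 2 * G.natDegree ≤ (minpoly K z).natDegree := by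
    by_contra hlt
    rw [← hfz] at hlt
    rw [hfy] at hdvd
    obtain ⟨c, hc⟩ := hdvd
    have hc1 : c = 1 := by
      have h1 : 0 < c := by
        rcases Nat.eq_zero_or_pos c with h | h
        · subst h; omega
        · exact h
      by_contra hne
      have h2 : 2 ≤ c := by omega
      have h3 : G.natDegree * 2 ≤ G.natDegree * c := Nat.mul_le_mul_left _ h2
      omega
    rw [hc1, mul_one] at hc
    have heq : IntermediateField.adjoin K {y} = Kz :=
      IntermediateField.eq_of_le_of_finrank_eq hle (by rw [hfy, hc])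
    have hwmem : w ∈ IntermediateField.adjoin K {y} := by
      rw [heq]
      have h1 : w = z / y := by rw [hz, mul_div_cancel_left₀ _ hy0]
      rw [h1]
      exact div_mem hzmem hymem
    exact not_sq (K := K) hG hirr hsq hg hg1 hy hwmem hw
  have hmd : minpoly K z ∣ H.map (algebraMap k[X] K) := minpoly.dvd K z hHz
  have heq : H.map (algebraMap k[X] K) = minpoly K z := by
    refine eq_of_monic_of_dvd_of_natDegree_le (minpoly.monic hzint) (hHm.map _) hmd ?_
    rw [hHm.natDegree_map, hHd]
    exact hge
  rw [hHm.irreducible_iff_irreducible_map_fraction_map (K := K), heq]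
  exact minpoly.irreducible hzint

end Pool.Agent.Helper47.GX
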