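import Mathlib
import Pool.Graph.R_seed8.R410.PW.Weil
import Pool.Agent.Helper47.GX.Irr

/-!
# Points of the double covering `w² = g(x)` of `G(x, y) = 0` over finite fields
-/

set_option autoImplicit false

namespace Pool.Agent.Helper47.GX

open Polynomial

theorem sep_comp_neg {R : Type*} [CommRing R] {G : R[X]} (hG : G.Separable) : (gt G).Separable := by
  rw [separable_def'] at hG ⊢
  obtain ⟨a, b, h⟩ := hG
  have h1 := congrArg (fun f : R[X] => f.comp (-X)) h
  simp only [add_comp, mul_comp, one_comp] at h1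
  have h2 : (C ((-1 : R) ^ G.natDegree) : R[X]) * C ((-1) ^ G.natDegree) = 1 := by
    rw [← C_mul, ← mul_pow]
    simp
  refine ⟨C ((-1) ^ G.natDegree) * a.comp (-X), -(C ((-1) ^ G.natDegree) * b.comp (-X)), ?_⟩
  have h3 : derivative (gt G) = -(C ((-1) ^ G.natDegree) * (derivative G).comp (-X)) := by
    rw [gt, derivative_C_mul, derivative_comp, derivative_neg, derivative_X]
    ring
  rw [h3, gt]
  linear_combination (C ((-1 : R) ^ G.natDegree) * C ((-1) ^ G.natDegree)) * h1 + h2

theorem sep_mul_gt {Ω : Type*} [Field Ω] [IsAlgClosed Ω] {G : Polynomial Ω} (hG : G.Separable)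
    (hS : ∀ u v : Ω, G.eval u = 0 → G.eval v = 0 → u + v ≠ 0) : (G * gt G).Separable := by
  refine hG.mul (sep_comp_neg hG) ?_
  rw [Polynomial.isCoprime_iff_aeval_ne_zero_of_isAlgClosed (K := Ω) (k := Ω)]
  intro a
  by_contra hno
  push Not at hno
  obtain ⟨h1, h2⟩ := hno
  rw [coe_aeval_eq_eval] at h1 h2
  rw [gt_eval] at h2
  have h3 : G.eval (-a) = 0 := by
    refine (mul_eq_zero.1 h2).resolve_left ?_
    exact pow_ne_zero _ (neg_ne_zero.2 one_ne_zero)
  exact hS a (-a) h1 h3 (add_neg_cancel a)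

/-- from a bezout identity to separability after specialization -/
theorem sep_of {R S : Type*} [CommRing R] [Field S] (φ : R →+* S) {G A B : R[X]} {D : R}
    (hAB : A * G + B * derivative G = C D) (hD : φ D ≠ 0) : (G.map φ).Separable := by
  have h1 := congrArg (Polynomial.map φ) hAB
  rw [Polynomial.map_add, Polynomial.map_mul, Polynomial.map_mul, map_C] at h1
  rw [separable_def']
  refine ⟨C (φ D)⁻¹ * A.map φ, C (φ D)⁻¹ * B.map φ, ?_⟩
  rw [derivative_map, mul_assoc, mul_assoc, ← mul_add, h1, ← C_mul, inv_mul_cancel₀ hD, C_1]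

/-- the constant -/
noncomputable def CW (n d δ N : ℕ) : ℕ :=
  (Pool.Agent.R410.PW.WC (2 * n) (2 * d + n * N) ((2 * n + 2 * n) * (2 * d + n * N)) +
    (N + (2 * n + 2 * n) * (2 * d) + δ) * (2 * n) + 1) ^ 2 + 2 * n

/-- the extraction of a point of the double covering from a point of the plane model -/
theorem extract {F : Type} [Field F] (hF2 : (2 : F) ≠ 0) {G A B AP BP Q : F[X][X]} {D DP g : F[X]}
    (hG : G.Monic) (hAB : A * G + B * derivative G = C D)
    (hP : AP * (G * gt G) + BP * derivative (G * gt G) = C DP)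
    (hQm : Q.Monic) (hQ : G * gt G = expand F[X] 2 Q) {x0 z0 : F}
    (hz : (expand F[X] 2 (Q.scaleRoots g)).evalEval x0 z0 = 0) (hg0 : g.eval x0 ≠ 0)
    (hD0 : D.eval x0 ≠ 0) (hDP0 : DP.eval x0 ≠ 0) :
    ∃ y0 w0 : F, G.evalEval x0 y0 = 0 ∧ (derivative G).evalEval x0 y0 ≠ 0 ∧ w0 ^ 2 = g.eval x0 ∧
      w0 ≠ 0 := by
  classical
  set ev := evalRingHom x0 with hev
  set g0 := g.eval x0 with hg0def
  set Q0 := Q.map ev with hQ0
  set G0 := G.map ev with hG0
  have hQ0m : Q0.Monic := hQm.map _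
  have hP0 : G0 * gt G0 = expand F 2 Q0 := by
    have h1 := congrArg (Polynomial.map ev) hQ
    rw [Polynomial.map_mul, gt_map ev hG, map_expand] at h1
    exact h1
  have hsep : (G0 * gt G0).Separable := by
    have h1 := sep_of ev hP (by exact hDP0)
    rw [Polynomial.map_mul, gt_map ev hG] at h1
    exact h1
  have hz1 : (Q0.scaleRoots g0).eval (z0 ^ 2) = 0 := by
    rw [← map_evalRingHom_eval, map_expand, expand_eval, map_scaleRoots] at hz
    · exact hz
    · rw [hQm.leadingCoeff, map_one]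
      exact one_ne_zero
  set T0 := z0 ^ 2 / g0 with hT0
  have hzT : z0 ^ 2 = g0 * T0 := by rw [hT0, mul_div_cancel₀ _ hg0]
  have hQT : Q0.eval T0 = 0 := by
    rw [hzT, scaleRoots_eval_mul] at hz1
    exact (mul_eq_zero.1 hz1).resolve_left (pow_ne_zero _ hg0)
  have hT00 : T0 ≠ 0 := by
    intro h0
    have h1 : (G0 * gt G0).eval 0 = 0 := by
      rw [h0] at hQT
      rw [hP0, expand_eval, zero_pow two_ne_zero]
      exact hQT
    have h2 : (derivative (G0 * gt G0)).eval 0 = 0 := by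
      rw [hP0, derivative_expand]
      simp
    obtain ⟨a, b, h3⟩ := separable_def' _ |>.1 hsep
    have h4 : eval 0 a * eval 0 (G0 * gt G0) + eval 0 b * eval 0 (derivative (G0 * gt G0)) = 1 := by
      rw [← eval_mul, ← eval_mul, ← eval_add, h3, eval_one]
    rw [h1, h2] at h4
    simp at h4
  have hz00 : z0 ≠ 0 := by
    rintro rfl
    apply hT00
    rw [hT0, zero_pow two_ne_zero, zero_div]
  have key : ∃ y0 : F, G0.eval y0 = 0 ∧ y0 ^ 2 = T0 := by
    by_cases hsq : IsSquare T0
    · obtain ⟨u, hu⟩ := hsq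
      have h1 : G0.eval u * (gt G0).eval u = 0 := by
        rw [← eval_mul, hP0, expand_eval, sq, ← hu]
        exact hQT
      rcases mul_eq_zero.1 h1 with h | h
      · exact ⟨u, h, by rw [sq, hu]⟩
      · rw [gt_eval] at h
        refine ⟨-u, (mul_eq_zero.1 h).resolve_left ?_, by rw [neg_sq, sq, hu]⟩
        exact pow_ne_zero _ (neg_ne_zero.2 one_ne_zero)
    · exfalso
      have hirr : Irreducible (X ^ 2 - C T0 : F[X]) :=
        X_pow_sub_C_irreducible_of_prime Nat.prime_two (fun b hb => hsq ⟨b, by rw [← sq, hb]⟩)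
      have hprime := hirr.prime
      have h1 : (X - C T0) ∣ Q0 := dvd_iff_isRoot.2 hQT
      have h2 : (X ^ 2 - C T0 : F[X]) ∣ G0 * gt G0 := by
        rw [hP0]
        obtain ⟨q, hq⟩ := h1
        refine ⟨expand F 2 q, ?_⟩
        rw [hq, map_mul, map_sub, expand_X, expand_C]
      have hcomp : ∀ f : F[X], (X ^ 2 - C T0 : F[X]) ∣ f → (X ^ 2 - C T0 : F[X]) ∣ f.comp (-X) := by
        rintro f ⟨q, rfl⟩
        refine ⟨q.comp (-X), ?_⟩
        rw [mul_comp, sub_comp, X_pow_comp, C_comp, neg_sq]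
      have hu : IsUnit (C ((-1 : F) ^ G0.natDegree)) :=
        isUnit_C.2 (isUnit_iff_ne_zero.2 (pow_ne_zero _ (neg_ne_zero.2 one_ne_zero)))
      have h3 : (X ^ 2 - C T0 : F[X]) ∣ G0 ∧ (X ^ 2 - C T0 : F[X]) ∣ gt G0 := by
        rcases hprime.dvd_or_dvd h2 with h | h
        · refine ⟨h, ?_⟩
          rw [gt]
          exact (hcomp _ h).mul_left _
        · refine ⟨?_, h⟩
          rw [gt] at h
          have h4 : (X ^ 2 - C T0 : F[X]) ∣ G0.comp (-X) := by
            rwa [hu.dvd_mul_left] at h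
          have h5 := hcomp _ h4
          have h6 : (G0.comp (-X)).comp (-X) = G0 := by
            rw [comp_assoc]
            simp
          rwa [h6] at h5
      have h7 := hsep.squarefree _ (mul_dvd_mul h3.1 h3.2)
      exact hirr.not_isUnit h7
  obtain ⟨y0, hy0, hyT⟩ := key
  have hy00 : y0 ≠ 0 := by
    rintro rfl
    exact hT00 (by rw [← hyT, zero_pow two_ne_zero])
  refine ⟨y0, z0 / y0, ?_, ?_, ?_, div_ne_zero hz00 hy00⟩
  · rw [← map_evalRingHom_eval]
    exact hy0
  · intro h0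
    have h1 := congrArg (fun f : F[X][X] => f.evalEval x0 y0) hAB
    simp only [evalEval_add, evalEval_mul, evalEval_C] at h1
    rw [h0, ← map_evalRingHom_eval x0 y0 G] at h1
    have h2 : eval y0 (map (evalRingHom x0) G) = 0 := hy0
    rw [h2, mul_zero, mul_zero, add_zero] at h1
    exact hD0 h1.symm
  · rw [div_pow, hyT, hzT, mul_div_assoc, div_self hT00, mul_one]

end Pool.Agent.Helper47.GX
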