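import Mathlib
import Pool.Agent.Helper47.GX.Wl

/-!
# Points of the double covering `w² = g(x)` of `G(x, y) = 0` over finite fields: existence
-/

set_option autoImplicit false

namespace Pool.Agent.Helper47.GX

open Polynomial

section count

variable {F : Type} [Field F] [Finite F]

/-- few points have `x` in a given finite set -/
theorem count_bad {H : F[X][X]} (hH : H.Monic) {W : F[X]} (hW : W ≠ 0) :
    {z : F × F | H.evalEval z.1 z.2 = 0 ∧ W.eval z.1 = 0}.ncard ≤ W.natDegree * H.natDegree := by
  classical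
  let T : Finset (F × F) := (W.roots.toFinset.sigma (fun x => ((H.map (evalRingHom x)).roots.toFinset))).image
    (fun s => (s.1, s.2))
  have hsub : {z : F × F | H.evalEval z.1 z.2 = 0 ∧ W.eval z.1 = 0} ⊆ (T : Set (F × F)) := by
    rintro ⟨a, b⟩ ⟨h1, h2⟩
    rw [Finset.mem_coe, Finset.mem_image]
    refine ⟨⟨a, b⟩, ?_, rfl⟩
    rw [Finset.mem_sigma, Multiset.mem_toFinset, Multiset.mem_toFinset, mem_roots hW,
      mem_roots (hH.map _).ne_zero, IsRoot.def, IsRoot.def, map_evalRingHom_eval]
    exact ⟨h2, h1⟩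
  refine (Set.ncard_le_ncard hsub (Finset.finite_toSet T)).trans ?_
  rw [Set.ncard_coe_finset]
  refine Finset.card_image_le.trans ?_
  rw [Finset.card_sigma]
  refine (Finset.sum_le_card_nsmul _ _ H.natDegree fun x _ => ?_).trans ?_
  · refine (Multiset.toFinset_card_le _).trans ((card_roots' _).trans natDegree_map_le)
  · rw [smul_eq_mul]
    exact Nat.mul_le_mul_right _ ((Multiset.toFinset_card_le _).trans (card_roots' _))

end count

/-- the plane model has a good point -/
theorem W1 {F : Type} [Field F] [Finite F] {G A B : F[X][X]} {D g : F[X]} (hG : G.Monic)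
    (hn : 0 < G.natDegree) (hAB : A * G + B * derivative G = C D) (hD : D ≠ 0) {δ : ℕ}
    (hδ : D.natDegree ≤ δ) {d : ℕ} (hd : CB G d)
    (hirr : Irreducible (G.map (mapRingHom (algebraMap F (AlgebraicClosure F)))))
    (hS : ∀ u v : AlgebraicClosure (RatFunc (AlgebraicClosure F)),
      aeval u ((G.map (mapRingHom (algebraMap F (AlgebraicClosure F)))).map
        (algebraMap (AlgebraicClosure F)[X] (RatFunc (AlgebraicClosure F)))) = 0 →
      aeval v ((G.map (mapRingHom (algebraMap F (AlgebraicClosure F)))).map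
        (algebraMap (AlgebraicClosure F)[X] (RatFunc (AlgebraicClosure F)))) = 0 → u + v ≠ 0)
    (hg : g.Separable) (hgN : δ < g.natDegree) (h2n : ((2 * G.natDegree : ℕ) : F) ≠ 0)
    (hq : CW G.natDegree d δ g.natDegree < Nat.card F) :
    ∃ x0 y0 w0 : F, G.evalEval x0 y0 = 0 ∧ (derivative G).evalEval x0 y0 ≠ 0 ∧
      w0 ^ 2 = g.eval x0 ∧ w0 ≠ 0 := by
  classical
  set k := AlgebraicClosure F with hk
  set φ := algebraMap F k with hφ
  set K := RatFunc k with hK
  let Om := AlgebraicClosure K
  have hF2 : (2 : F) ≠ 0 := by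
    intro h
    apply h2n
    rw [Nat.cast_mul, Nat.cast_ofNat, h, zero_mul]
  have hg0 : g ≠ 0 := by
    rintro rfl
    simp at hgN
  set Gk := G.map (mapRingHom φ) with hGk
  have hGkm : Gk.Monic := hG.map _
  -- the zero of `g`
  obtain ⟨α, hα, hDα⟩ : ∃ α : k, (g.map φ).eval α = 0 ∧ (D.map φ).eval α ≠ 0 := by
    by_contra hno
    push Not at hno
    have h1 : (g.map φ).roots.toFinset ⊆ (D.map φ).roots.toFinset := by
      intro a ha
      rw [Multiset.mem_toFinset, mem_roots ((Polynomial.map_ne_zero_iff φ.injective).2 hg0)] at ha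
      rw [Multiset.mem_toFinset, mem_roots ((Polynomial.map_ne_zero_iff φ.injective).2 hD)]
      exact hno a ha
    have h2 := Finset.card_le_card h1
    have h3 : (g.map φ).roots.toFinset.card = g.natDegree := by
      rw [Multiset.toFinset_card_of_nodup (nodup_roots hg.map), IsAlgClosed.card_roots_eq_natDegree,
        natDegree_map]
    have h4 : (D.map φ).roots.toFinset.card ≤ δ :=
      (Multiset.toFinset_card_le _).trans ((card_roots' _).trans (by rw [natDegree_map]; exact hδ))
    omega
  obtain ⟨g1, hg1⟩ := dvd_iff_isRoot.2 (show (g.map φ).IsRoot α from hα)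
  have hg1α : g1.eval α ≠ 0 := by
    intro h0
    obtain ⟨a, b, hab⟩ := (separable_def' _).1 (hg.map (f := φ))
    have h1 : (derivative (g.map φ)).eval α = 0 := by
      rw [hg1, derivative_mul, derivative_sub, derivative_X, derivative_C]
      simp [h0]
    have h2 : a.eval α * (g.map φ).eval α + b.eval α * (derivative (g.map φ)).eval α = 1 := by
      rw [← eval_mul, ← eval_mul, ← eval_add, hab, eval_one]
    rw [hα, h1] at h2
    simp at h2
  have hABk : A.map (mapRingHom φ) * Gk + B.map (mapRingHom φ) * derivative Gk = C (D.map φ) := by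
    have h1 := congrArg (Polynomial.map (mapRingHom φ)) hAB
    rw [Polynomial.map_add, Polynomial.map_mul, Polynomial.map_mul, map_C, ← derivative_map] at h1
    exact h1
  have hsq : Squarefree (Gk.map (evalRingHom α)) := (sep_of (evalRingHom α) hABk hDα).squarefree
  -- the even polynomial
  obtain ⟨Q, hQ⟩ := exists_expand (R := F[X]) (by
    intro h
    apply hF2
    have := congrArg (Polynomial.eval 0) h
    simpa using this) (mul_gt_even G)
  have hPm : (G * gt G).Monic := hG.mul (gt_monic hG)
  have hPd : (G * gt G).natDegree = 2 * G.natDegree := by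
    rw [hG.natDegree_mul (gt_monic hG), gt_natDegree]; ring
  have hQm : Q.Monic := by
    rw [hQ, monic_expand_iff (by norm_num)] at hPm
    exact hPm
  have hQd : Q.natDegree = G.natDegree := by
    have h1 := hPd
    rw [hQ, natDegree_expand] at h1
    omega
  set H := expand F[X] 2 (Q.scaleRoots g) with hH
  have hHm : H.Monic := by
    rw [hH, monic_expand_iff (by norm_num), monic_scaleRoots_iff]
    exact hQm
  have hHd : H.natDegree = 2 * G.natDegree := by
    rw [hH, natDegree_expand, natDegree_scaleRoots, hQd, mul_comm]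
  have hmapC : ∀ f : F[X][X], (expand F[X] 2 f).map (mapRingHom φ) = expand k[X] 2 (f.map (mapRingHom φ)) :=
    fun f => map_expand
  have hHirr : Irreducible (H.map (mapRingHom φ)) := by
    have h1 : H.map (mapRingHom φ) = expand k[X] 2 ((Q.map (mapRingHom φ)).scaleRoots (g.map φ)) := by
      rw [hH, hmapC, map_scaleRoots]
      · rfl
      · rw [hQm.leadingCoeff, map_one]
        exact one_ne_zero
    rw [h1]
    refine irr_H (K := K) (Ω := Om) hGkm hirr hS hsq hg1 hg1α ?_
    have h2 := congrArg (Polynomial.map (mapRingHom φ)) hQ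
    rw [Polynomial.map_mul, gt_map _ hG, hmapC] at h2
    exact h2
  -- discriminants
  have hGtd : CB (gt G) d := by
    unfold gt
    have h1 := CB_mul (CB_C ((-1 : F[X]) ^ G.natDegree) (d := 0) (by
      have : ((-1 : F[X]) ^ G.natDegree) = C ((-1) ^ G.natDegree) := by simp
      rw [this, natDegree_C])) (CB_comp hd (CB_neg (CB_X (F := F) (d := 0))))
    rwa [zero_add] at h1
  have hPCB : CB (G * gt G) (2 * d) := by
    rw [two_mul]
    exact CB_mul hd hGtd
  have hQCB : CB Q (2 * d) := CB_of_expand (by rw [← hQ]; exact hPCB)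
  have hHCB : CB H (2 * d + G.natDegree * g.natDegree) := by
    have := CB_expand (CB_scaleRoots hQCB g)
    rwa [hQd] at this
  have hsepP : ((G * gt G).map (algebraMap F[X] (RatFunc F))).Separable := by
    let i : F[X] →+* Om := (algebraMap K Om).comp ((algebraMap k[X] K).comp (mapRingHom φ))
    have hi : Function.Injective i := by
      refine (algebraMap K Om).injective.comp ((IsFractionRing.injective k[X] K).comp ?_)
      exact Polynomial.map_injective φ φ.injective
    let ψ : RatFunc F →+* Om := IsFractionRing.lift hi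
    rw [← separable_map ψ, Polynomial.map_map]
    have h1 : ψ.comp (algebraMap F[X] (RatFunc F)) = i := by
      refine RingHom.ext fun a => ?_
      rw [RingHom.comp_apply]
      exact IsFractionRing.lift_algebraMap hi a
    rw [h1, Polynomial.map_mul, gt_map i hG]
    refine sep_mul_gt (sep_of i hAB (by rw [Ne, map_eq_zero_iff i hi]; exact hD)) ?_
    intro u v hu hv
    refine hS u v ?_ ?_
    · rw [hGk, aeval_def, eval₂_map, eval₂_map, ← eval_map]
      exact hu
    · rw [hGk, aeval_def, eval₂_map, eval₂_map, ← eval_map]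
      exact hv
  obtain ⟨AP, BP, DP, hABP, hDP0, hDPd⟩ := exists_disc hPCB hPm (by rw [hPd]; omega) hsepP
  have hirrF : Irreducible H := hHm.irreducible_of_irreducible_map _ _ hHirr
  have hsepH : (H.map (algebraMap F[X] (RatFunc F))).Separable := by
    have h1 : Irreducible (H.map (algebraMap F[X] (RatFunc F))) :=
      (hHm.irreducible_iff_irreducible_map_fraction_map (K := RatFunc F)).1 hirrF
    rw [separable_iff_derivative_ne_zero h1]
    intro h0
    have h2 := congrArg (fun f : (RatFunc F)[X] => f.coeff (2 * G.natDegree - 1)) h0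
    simp only [coeff_derivative, coeff_zero] at h2
    have h3 : 2 * G.natDegree - 1 + 1 = 2 * G.natDegree := by omega
    rw [h3, coeff_map, ← hHd, hHm.coeff_natDegree, map_one, one_mul, hHd] at h2
    apply h2n
    have h4 : (((2 * G.natDegree - 1 : ℕ) : RatFunc F) + 1) = algebraMap F (RatFunc F) ((2 * G.natDegree : ℕ) : F) := by
      rw [map_natCast, ← h3]
      push_cast
      simp
    rw [h4] at h2
    exact (map_eq_zero_iff _ (algebraMap F (RatFunc F)).injective).1 h2
  obtain ⟨AH, BH, DH, hABH, hDH0, hDHd⟩ := exists_disc hHCB hHm (by rw [hHd]; omega) hsepH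
  rw [hHd] at hDHd
  rw [hPd] at hDPd
  have hw := Pool.Agent.R410.PW.weil k hHm (by rw [hHd]; omega) hABH hDH0 hDHd hHCB hHirr
  rw [hHd] at hw
  set WCc := Pool.Agent.R410.PW.WC (2 * G.natDegree) (2 * d + G.natDegree * g.natDegree)
    ((2 * G.natDegree + 2 * G.natDegree) * (2 * d + G.natDegree * g.natDegree)) with hWCc
  set W := g * DP * D with hWdef
  have hW0 : W ≠ 0 := mul_ne_zero (mul_ne_zero hg0 hDP0) hD
  have hWd : W.natDegree ≤ g.natDegree + (2 * G.natDegree + 2 * G.natDegree) * (2 * d) + δ := by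
    refine natDegree_mul_le.trans (Nat.add_le_add (natDegree_mul_le.trans (Nat.add_le_add le_rfl hDPd)) hδ)
  -- a good point of the plane model
  obtain ⟨x0, z0, hz, hW⟩ : ∃ x0 z0 : F, H.evalEval x0 z0 = 0 ∧ W.eval x0 ≠ 0 := by
    by_contra hno
    push Not at hno
    have h1 : {z : F × F | H.evalEval z.1 z.2 = 0} ⊆ {z : F × F | H.evalEval z.1 z.2 = 0 ∧ W.eval z.1 = 0} :=
      fun z hz => ⟨hz, hno z.1 z.2 hz⟩
    have h2 := (Set.ncard_le_ncard h1 (Set.toFinite _)).trans (count_bad hHm hW0)
    rw [hHd] at h2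
    have h3 : {z : F × F | H.evalEval z.1 z.2 = 0}.ncard ≤
        (g.natDegree + (2 * G.natDegree + 2 * G.natDegree) * (2 * d) + δ) * (2 * G.natDegree) :=
      h2.trans (Nat.mul_le_mul_right _ hWd)
    set M := (g.natDegree + (2 * G.natDegree + 2 * G.natDegree) * (2 * d) + δ) * (2 * G.natDegree) with hM
    set q : ℝ := (Nat.card F : ℝ) with hqd
    have hCW : (((WCc : ℕ) : ℝ) + M + 1) ^ 2 ≤ q := by
      have h4 : (WCc + M + 1) ^ 2 ≤ Nat.card F :=
        (lt_of_le_of_lt (Nat.le_add_right _ _) hq).le
      have h5 : (((WCc + M + 1) ^ 2 : ℕ) : ℝ) ≤ (Nat.card F : ℝ) := by exact_mod_cast h4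
      push_cast at h5
      exact h5
    have hsqrt : (WCc : ℝ) + M + 1 ≤ √q := Real.le_sqrt_of_sq_le hCW
    have hqq : √q * √q = q := Real.mul_self_sqrt (by positivity)
    have h6 : (({z : F × F | H.evalEval z.1 z.2 = 0}.ncard : ℕ) : ℝ) ≤ M := by exact_mod_cast h3
    rw [abs_le] at hw
    have h7 : (0 : ℝ) ≤ (WCc : ℝ) := by positivity
    have h8 : (0 : ℝ) ≤ (M : ℝ) := by positivity
    have h9 : ((WCc : ℝ) + M + 1) * √q ≤ √q * √q := mul_le_mul_of_nonneg_right hsqrt (Real.sqrt_nonneg q)
    have h10 : (M : ℝ) + 1 ≤ (M + 1) * √q := by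
      have : 1 ≤ √q := by linarith
      nlinarith
    nlinarith [hw.1]
  rw [hWdef, eval_mul, eval_mul] at hW
  have hg0' := left_ne_zero_of_mul (left_ne_zero_of_mul hW)
  have hDP' := right_ne_zero_of_mul (left_ne_zero_of_mul hW)
  have hD' := right_ne_zero_of_mul hW
  obtain ⟨y0, w0, h1, h2, h3, h4⟩ := extract hF2 hG hAB hABP hQm hQ hz hg0' hD' hDP'
  exact ⟨x0, y0, w0, h1, h2, h3, h4⟩

end Pool.Agent.Helper47.GX
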