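import Mathlib
import Pool.Agent.Helper47.GX.Wt

/-!
# Points of the double covering `w² = g(x)` of `G(x, y) = 0` over finite fields: final form
-/

set_option autoImplicit false

namespace Pool.Agent.Helper47.GX

open Polynomial

/-- the constant -/
noncomputable def CX (n d δ N : ℕ) : ℕ := CW n d δ N + n * n

theorem irr_comp {R : Type*} [CommRing R] [IsDomain R] {G : R[X]} (hG : Irreducible G) (c : R) :
    Irreducible (G.comp (X - C c)) := by
  have h1 : G.comp (X - C c) = Polynomial.algEquivAevalXAddC (-c) G := by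
    rw [Polynomial.algEquivAevalXAddC_apply, ← comp_eq_aeval, C_neg, sub_eq_add_neg]
  rw [h1, MulEquiv.irreducible_iff]
  exact hG

theorem W {F : Type} [Field F] [Finite F] {G A B : F[X][X]} {D g : F[X]} (hG : G.Monic)
    (hn : 0 < G.natDegree) (hAB : A * G + B * derivative G = C D) (hD : D ≠ 0) {δ : ℕ}
    (hδ : D.natDegree ≤ δ) {d : ℕ} (hd : CB G d)
    (hirr : Irreducible (G.map (mapRingHom (algebraMap F (AlgebraicClosure F)))))
    (hg : g.Separable) (hgN : δ < g.natDegree) (h2n : ((2 * G.natDegree : ℕ) : F) ≠ 0)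
    (hq : CX G.natDegree d δ g.natDegree < Nat.card F) :
    ∃ x0 y0 w0 : F, G.evalEval x0 y0 = 0 ∧ (derivative G).evalEval x0 y0 ≠ 0 ∧
      w0 ^ 2 = g.eval x0 ∧ w0 ≠ 0 := by
  classical
  set k := AlgebraicClosure F with hk
  set φ := algebraMap F k with hφ
  set K := RatFunc k with hK
  let Om := AlgebraicClosure K
  have hF2 : (2 : F) ≠ 0 := by
    intro h
    apply h2n
    rw [Nat.cast_mul, Nat.cast_ofNat, h, zero_mul]
  set Gk := G.map (mapRingHom φ) with hGk
  have hGkm : Gk.Monic := hG.map _
  set GO := (Gk.map (algebraMap k[X] K)).map (algebraMap K Om) with hGO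
  have hGOm : GO.Monic := (hGkm.map _).map _
  have hGOd : GO.natDegree = G.natDegree := by
    rw [hGO, (hGkm.map _).natDegree_map, hGkm.natDegree_map, hG.natDegree_map]
  let ι : F →+* Om := ((algebraMap K Om).comp (algebraMap k[X] K)).comp (C.comp φ)
  have hι : Function.Injective ι := ι.injective
  have hOm2 : (2 : Om) ≠ 0 := by
    have := (map_ne_zero_iff ι hι).2 hF2
    rwa [map_ofNat] at this
  set R := GO.roots.toFinset with hR
  have hRc : R.card ≤ G.natDegree := by
    rw [← hGOd]
    exact (Multiset.toFinset_card_le _).trans (card_roots' _)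
  set T : Finset Om := (R ×ˢ R).image (fun s => -(s.1 + s.2) / 2) with hT
  have hTc : T.card ≤ G.natDegree * G.natDegree := by
    refine Finset.card_image_le.trans ?_
    rw [Finset.card_product]
    exact Nat.mul_le_mul hRc hRc
  obtain ⟨c, hc⟩ : ∃ c : F, ι c ∉ T := by
    by_contra hno
    push Not at hno
    haveI := Fintype.ofFinite F
    have h1 : (Finset.univ : Finset F).image ι ⊆ T := by
      intro a ha
      obtain ⟨b, -, rfl⟩ := Finset.mem_image.1 ha
      exact hno b
    have h2 := Finset.card_le_card h1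
    rw [Finset.card_image_of_injective _ hι, Finset.card_univ, ← Nat.card_eq_fintype_card] at h2
    unfold CX at hq
    omega
  set L : F[X][X] := X - C (C c) with hL
  have hLm : L.Monic := monic_X_sub_C _
  have hLd : L.natDegree = 1 := natDegree_X_sub_C _
  set Gc := G.comp L with hGc
  have hGcd : Gc.natDegree = G.natDegree := by rw [hGc, natDegree_comp, hLd, mul_one]
  have hGcm : Gc.Monic := hG.comp hLm (by rw [hLd]; norm_num)
  have hdL : derivative Gc = (derivative G).comp L := by
    rw [hGc, derivative_comp, hL, derivative_sub, derivative_X, derivative_C, sub_zero, one_mul]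
  have hABc : A.comp L * Gc + B.comp L * derivative Gc = C D := by
    rw [hdL, hGc, ← mul_comp, ← mul_comp, ← add_comp, hAB, C_comp]
  have hdc : CB Gc d := by
    refine CB_comp hd ?_
    rw [hL, sub_eq_add_neg]
    exact CB_add CB_X (CB_neg (CB_C _ (by rw [natDegree_C])))
  have hev : ∀ (f : F[X][X]) (a b : F), (f.comp L).evalEval a b = f.evalEval a (b - c) := by
    intro f a b
    rw [← map_evalRingHom_eval, ← map_evalRingHom_eval, Polynomial.map_comp, eval_comp]
    congr 1
    simp [hL]
  have hirrc : Irreducible (Gc.map (mapRingHom φ)) := by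
    have h1 : Gc.map (mapRingHom φ) = Gk.comp (X - C (C (φ c))) := by
      rw [hGc, Polynomial.map_comp, hGk]
      congr 1
      simp [hL]
    rw [h1]
    exact irr_comp hirr _
  have hS : ∀ u v : Om, aeval u ((Gc.map (mapRingHom φ)).map (algebraMap k[X] K)) = 0 →
      aeval v ((Gc.map (mapRingHom φ)).map (algebraMap k[X] K)) = 0 → u + v ≠ 0 := by
    have hroot : ∀ u : Om, aeval u ((Gc.map (mapRingHom φ)).map (algebraMap k[X] K)) = 0 →
        u - ι c ∈ R := by
      intro u hu
      rw [hR, Multiset.mem_toFinset, mem_roots hGOm.ne_zero, IsRoot.def]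
      have h1 : (Gc.map (mapRingHom φ)).map (algebraMap k[X] K) =
          (Gk.map (algebraMap k[X] K)).comp (X - C (algebraMap k[X] K (C (φ c)))) := by
        rw [hGc, Polynomial.map_comp, Polynomial.map_comp, hGk]
        congr 1
        simp [hL]
      rw [h1, aeval_comp, aeval_def, ← eval_map] at hu
      rw [hGO]
      have h2 : aeval u ((X : K[X]) - C (algebraMap k[X] K (C (φ c)))) = u - ι c := by
        rw [map_sub, aeval_X, aeval_C]
        rfl
      rw [h2] at hu
      exact hu
    intro u v hu hv huv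
    apply hc
    rw [hT, Finset.mem_image]
    refine ⟨(u - ι c, v - ι c), Finset.mem_product.2 ⟨hroot u hu, hroot v hv⟩, ?_⟩
    rw [div_eq_iff hOm2]
    linear_combination -huv
  have hq' : CW Gc.natDegree d δ g.natDegree < Nat.card F := by
    rw [hGcd]
    exact lt_of_le_of_lt (Nat.le_add_right _ _) hq
  obtain ⟨x0, y0, w0, h1, h2, h3, h4⟩ := W1 hGcm (by rw [hGcd]; exact hn) hABc hD hδ hdc hirrc hS hg hgN
    (by rw [hGcd]; exact h2n) hq'
  refine ⟨x0, y0 - c, w0, ?_, ?_, h3, h4⟩
  · rw [← hev]
    exact h1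
  · rw [← hev, ← hdL]
    exact h2

end Pool.Agent.Helper47.GX
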