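import Mathlib
import Pool.Agent.Helper47.GX.Frm

/-!
# Local points
-/

set_option autoImplicit false

namespace Pool.Agent.Helper47.GX

open Polynomial

theorem aaev {A : Type*} [CommRing A] (x y : A) (G : ℤ[X][X]) :
    aevalAeval x y G = eval₂ ((aeval x : ℤ[X] →ₐ[ℤ] A) : ℤ[X] →+* A) y G := by
  induction G using Polynomial.induction_on' with
  | add p q hp hq => rw [map_add, hp, hq, eval₂_add]
  | monomial n a =>
    rw [← C_mul_X_pow_eq_monomial, map_mul, map_pow, aevalAeval_C, aevalAeval_Y, eval₂_mul,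
      eval₂_C, eval₂_pow, eval₂_X]
    rfl

theorem aaev_int {A : Type*} [CommRing A] (x : ℤ) (y : A) (G : ℤ[X][X]) :
    aevalAeval (x : A) y G = aeval y (G.map (evalRingHom x)) := by
  rw [aaev, aeval_def, eval₂_map]
  congr 1
  refine Polynomial.ringHom_ext (fun a => ?_) ?_
  · simp
  · simp

theorem hens_pt {p : ℕ} [Fact p.Prime] (G : ℤ[X][X]) (x0 y0 : ℤ)
    (h0 : (p : ℤ) ∣ (G.map (evalRingHom x0)).eval y0)
    (h1 : ¬ (p : ℤ) ∣ ((derivative G).map (evalRingHom x0)).eval y0) :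
    ∃ y : ℚ_[p], aevalAeval (x0 : ℚ_[p]) y G = 0 ∧ aevalAeval (x0 : ℚ_[p]) y (derivative G) ≠ 0 := by
  set g := G.map (evalRingHom x0) with hg
  have hg' : derivative g = (derivative G).map (evalRingHom x0) := by rw [hg, derivative_map]
  have e1 : ∀ q : ℤ[X], aeval ((y0 : ℤ) : ℤ_[p]) q = ((q.eval y0 : ℤ) : ℤ_[p]) := by
    intro q
    have := Polynomial.aeval_algebraMap_apply ℤ_[p] y0 q
    simpa using this
  have hn0 : ‖aeval ((y0 : ℤ) : ℤ_[p]) g‖ < 1 := by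
    rw [e1]
    exact (PadicInt.norm_int_lt_one_iff_dvd _).2 h0
  have hn1 : ‖aeval ((y0 : ℤ) : ℤ_[p]) (derivative g)‖ = 1 := by
    rw [e1, hg']
    have h2 := PadicInt.norm_le_one ((((derivative G).map (evalRingHom x0)).eval y0 : ℤ) : ℤ_[p])
    refine le_antisymm h2 (not_lt.1 fun h => h1 ((PadicInt.norm_int_lt_one_iff_dvd _).1 h))
  obtain ⟨z, hz, -, hz1, -⟩ := hensels_lemma (p := p) (R := ℤ) (F := g) (a := ((y0 : ℤ) : ℤ_[p])) (by
    rw [hn1, one_pow]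
    exact hn0)
  refine ⟨(z : ℚ_[p]), ?_, ?_⟩
  · rw [aaev_int, ← hg]
    have : aeval (z : ℚ_[p]) g = ((aeval z g : ℤ_[p]) : ℚ_[p]) := by
      have := Polynomial.aeval_algebraMap_apply ℚ_[p] z g
      exact this
    rw [this, hz]
    rfl
  · rw [aaev_int, ← hg']
    have : aeval (z : ℚ_[p]) (derivative g) = ((aeval z (derivative g) : ℤ_[p]) : ℚ_[p]) := by
      have := Polynomial.aeval_algebraMap_apply ℚ_[p] z (derivative g)
      exact this
    rw [this]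
    intro h
    have h2 : aeval z (derivative g) = 0 := PadicInt.coe_eq_zero.1 h
    rw [h2, hn1, norm_zero] at hz1
    exact zero_ne_one hz1

theorem hens_sq {p : ℕ} [hp : Fact p.Prime] (hp2 : p ≠ 2) (c w0 : ℤ) (h : (p : ℤ) ∣ c - w0 ^ 2)
    (hw : ¬ (p : ℤ) ∣ w0) : ∃ w : ℚ_[p], w ≠ 0 ∧ w ^ 2 = c := by
  set F : ℤ[X] := X ^ 2 - C c with hF
  have hpz : Prime (p : ℤ) := Nat.prime_iff_prime_int.1 hp.out
  have e1 : aeval ((w0 : ℤ) : ℤ_[p]) F = (((w0 ^ 2 - c : ℤ)) : ℤ_[p]) := by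
    simp [hF]
  have e2 : aeval ((w0 : ℤ) : ℤ_[p]) (derivative F) = (((2 * w0 : ℤ)) : ℤ_[p]) := by
    have : derivative F = C 2 * X := by
      rw [hF, derivative_sub, derivative_X_pow, derivative_C, sub_zero]
      simp
    rw [this, map_mul, aeval_C, aeval_X]
    push_cast
    rfl
  have hn0 : ‖aeval ((w0 : ℤ) : ℤ_[p]) F‖ < 1 := by
    rw [e1]
    refine (PadicInt.norm_int_lt_one_iff_dvd _).2 ?_
    rw [← neg_sub]
    exact (dvd_neg).2 h
  have hn1 : ‖aeval ((w0 : ℤ) : ℤ_[p]) (derivative F)‖ = 1 := by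
    rw [e2]
    have h2 := PadicInt.norm_le_one (((2 * w0 : ℤ)) : ℤ_[p])
    refine le_antisymm h2 (not_lt.1 fun h => ?_)
    rcases hpz.dvd_or_dvd ((PadicInt.norm_int_lt_one_iff_dvd _).1 h) with h3 | h3
    · exact hp2 ((Nat.prime_dvd_prime_iff_eq hp.out Nat.prime_two).1
        (Int.natCast_dvd_natCast.1 (by exact_mod_cast h3)))
    · exact hw h3
  obtain ⟨z, hz, -, hz1, -⟩ := hensels_lemma (p := p) (R := ℤ) (F := F) (a := ((w0 : ℤ) : ℤ_[p])) (by
    rw [hn1, one_pow]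
    exact hn0)
  have h3 : z ^ 2 = (c : ℤ_[p]) := by
    have : aeval z F = z ^ 2 - (c : ℤ_[p]) := by simp [hF]
    rw [this] at hz
    exact sub_eq_zero.1 hz
  refine ⟨(z : ℚ_[p]), ?_, ?_⟩
  · intro h0
    have h4 : z = 0 := PadicInt.coe_eq_zero.1 h0
    rw [h4, zero_pow two_ne_zero] at h3
    apply hw
    have h5 : c = 0 := by exact_mod_cast h3.symm
    rw [h5, zero_sub, dvd_neg] at h
    exact hpz.dvd_of_dvd_pow h
  · have := congrArg (fun t : ℤ_[p] => (t : ℚ_[p])) h3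
    push_cast at this
    exact this

theorem sq_near {p : ℕ} [hp : Fact p.Prime] (c : ℚ_[p]) (hc : ‖c - 1‖ < ‖(4 : ℚ_[p])‖) :
    ∃ w : ℚ_[p], w ≠ 0 ∧ w ^ 2 = c := by
  have h4 : ‖(4 : ℚ_[p])‖ ≤ 1 := by
    have := PadicInt.norm_le_one (4 : ℤ_[p])
    rw [PadicInt.norm_def] at this
    exact this
  have hc1 : ‖c‖ ≤ 1 := by
    have : c = (c - 1) + 1 := by ring
    rw [this]
    refine (Padic.nonarchimedean _ _).trans (max_le (hc.le.trans h4) norm_one.le)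
  set c' : ℤ_[p] := ⟨c, hc1⟩ with hc'
  set F : ℤ_[p][X] := X ^ 2 - C c' with hF
  have e1 : aeval (1 : ℤ_[p]) F = 1 - c' := by
    simp [hF]
  have e2 : aeval (1 : ℤ_[p]) (derivative F) = 2 := by
    have : derivative F = C 2 * X := by
      rw [hF, derivative_sub, derivative_X_pow, derivative_C, sub_zero]
      simp
    rw [this]
    simp
  obtain ⟨z, hz, -⟩ := hensels_lemma (p := p) (R := ℤ_[p]) (F := F) (a := (1 : ℤ_[p])) (by
    rw [e1, e2, ← norm_pow, ← neg_sub, norm_neg]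
    have h5 : ‖c' - 1‖ = ‖c - 1‖ := by
      rw [PadicInt.norm_def]
      push_cast
      rfl
    have h6 : ‖(2 : ℤ_[p]) ^ 2‖ = ‖(4 : ℚ_[p])‖ := by
      rw [show (2 : ℤ_[p]) ^ 2 = 4 by norm_num, PadicInt.norm_def]
      rfl
    rw [h5, h6]
    exact hc)
  have h3 : z ^ 2 = c' := by
    have : aeval z F = z ^ 2 - c' := by simp [hF]
    rw [this] at hz
    exact sub_eq_zero.1 hz
  have h7 : (z : ℚ_[p]) ^ 2 = c := by
    have := congrArg (fun t : ℤ_[p] => (t : ℚ_[p])) h3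
    push_cast at this
    exact this
  refine ⟨(z : ℚ_[p]), ?_, h7⟩
  intro h0
  rw [h0, zero_pow two_ne_zero] at h7
  rw [← h7, zero_sub, norm_neg, norm_one] at hc
  exact absurd hc (not_lt.2 h4)

end Pool.Agent.Helper47.GX
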