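import Mathlib
import Pool.Graph.R_seed8.R410.LW.BN1
import Pool.Graph.R_seed8.R410.LW.Bez
import Pool.Agent.Helper47.GX.Wf
import Pool.Agent.Helper47.GX.Loc

/-!
# Points of the double covering `w² = f(x)` of `G(x, y) = 0` modulo the primes of good reduction
-/

set_option autoImplicit false

namespace Pool.Agent.Helper47.GX

open Polynomial

theorem exists_CB {F : Type*} [CommRing F] (G : F[X][X]) : ∃ d : ℕ, ∀ i, (G.coeff i).natDegree ≤ d := by
  refine ⟨∑ i ∈ G.support, (G.coeff i).natDegree, fun i => ?_⟩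
  by_cases hi : i ∈ G.support
  · exact Finset.single_le_sum (f := fun i => (G.coeff i).natDegree) (fun _ _ => Nat.zero_le _) hi
  · rw [notMem_support_iff.1 hi, natDegree_zero]
    exact Nat.zero_le _

/-- a monic polynomial in `y` over `ℤ[x]`, irreducible over an algebraic closure of `ℚ` -/
def AbsIrr (G : ℤ[X][X]) : Prop :=
  Irreducible (G.map (mapRingHom (algebraMap ℤ (AlgebraicClosure ℚ))))

theorem evalEval_cast {p : ℕ} (G : ℤ[X][X]) (x y : ℤ) :
    (G.map (mapRingHom (Int.castRingHom (ZMod p)))).evalEval (x : ZMod p) (y : ZMod p) =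
      (((G.map (evalRingHom x)).eval y : ℤ) : ZMod p) := by
  have h1 : (((G.map (evalRingHom x)).eval y : ℤ) : ZMod p) =
      (Int.castRingHom (ZMod p)) ((G.map (evalRingHom x)).eval y) := rfl
  rw [h1, ← map_evalRingHom_eval, ← eval₂_at_apply, eval₂_eq_eval_map, Polynomial.map_map,
    Polynomial.map_map]
  congr 1
  congr 1
  refine Polynomial.ringHom_ext (fun a => ?_) ?_
  · simp
  · simp

theorem exists_good (G : ℤ[X][X]) (hG : G.Monic) (hn : 0 < G.natDegree) (hirr : AbsIrr G) :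
    ∃ (δ E : ℕ) (B : ℕ → ℕ), E ≠ 0 ∧ ∀ (p : ℕ) [Fact p.Prime], ¬ p ∣ E → ∀ f : ℤ[X],
      (f.map (Int.castRingHom (ZMod p))).Separable →
      δ < (f.map (Int.castRingHom (ZMod p))).natDegree →
      B (f.map (Int.castRingHom (ZMod p))).natDegree < p →
      ∃ x0 y0 w0 : ℤ, (p : ℤ) ∣ (G.map (evalRingHom x0)).eval y0 ∧
        ¬ (p : ℤ) ∣ ((derivative G).map (evalRingHom x0)).eval y0 ∧
        (p : ℤ) ∣ f.eval x0 - w0 ^ 2 ∧ ¬ (p : ℤ) ∣ w0 := by
  classical
  obtain ⟨D1, hD1, hbn⟩ := Pool.Agent.R410.LW.bn_poly (k := ℚ) (kb := AlgebraicClosure ℚ) G hG hn (by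
    have : ((algebraMap ℚ (AlgebraicClosure ℚ)).comp (algebraMap ℤ ℚ)) =
      algebraMap ℤ (AlgebraicClosure ℚ) := RingHom.ext_int _ _
    rw [this]
    exact hirr)
  obtain ⟨A, Bz, D, hD, hAB⟩ := Pool.Agent.R410.LW.bezout (ι := algebraMap ℤ (AlgebraicClosure ℚ))
    (FaithfulSMul.algebraMap_injective ℤ (AlgebraicClosure ℚ)) hG hirr
  obtain ⟨d, hd⟩ := exists_CB G
  refine ⟨D.natDegree, (D1 * D.leadingCoeff * (2 * G.natDegree : ℕ)).natAbs,
    CX G.natDegree d D.natDegree, ?_, ?_⟩
  · rw [Int.natAbs_ne_zero]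
    refine mul_ne_zero (mul_ne_zero hD1 (leadingCoeff_ne_zero.2 hD)) ?_
    have : 2 * G.natDegree ≠ 0 := by omega
    exact_mod_cast this
  · intro p hp hpE f hf hδf hBf
    have hpz : ¬ (p : ℤ) ∣ D1 * D.leadingCoeff * (2 * G.natDegree : ℕ) := fun h =>
      hpE (Int.natCast_dvd.1 h)
    set ψ := Int.castRingHom (ZMod p) with hψ
    have key : ∀ z : ℤ, ¬ (p : ℤ) ∣ z → ψ z ≠ 0 := fun z hz h =>
      hz ((ZMod.intCast_zmod_eq_zero_iff_dvd _ _).1 h)
    have hD1p : ψ D1 ≠ 0 := key _ fun h => hpz ((h.mul_right _).mul_right _)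
    have hDp : ψ D.leadingCoeff ≠ 0 := key _ fun h => hpz ((h.mul_left _).mul_right _)
    have h2p : ψ (2 * G.natDegree : ℕ) ≠ 0 := key _ fun h => hpz (h.mul_left _)
    set Gp := G.map (mapRingHom ψ) with hGp
    have hGpd : Gp.natDegree = G.natDegree := hG.natDegree_map _
    obtain ⟨x0, y0, w0, h1, h2, h3, h4⟩ := W (F := ZMod p) (G := Gp) (A := A.map (mapRingHom ψ))
      (B := Bz.map (mapRingHom ψ)) (D := D.map ψ) (g := f.map ψ) (hG.map _) (by rw [hGpd]; exact hn)
      (by
        rw [hGp, derivative_map, ← Polynomial.map_mul, ← Polynomial.map_mul, ← Polynomial.map_add,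
          hAB, map_C]
        rfl)
      (by
        intro h
        apply hDp
        have := congrArg (fun q => q.coeff D.natDegree) h
        simp only [coeff_map, coeff_zero] at this
        exact this)
      (δ := D.natDegree) natDegree_map_le (d := d)
      (by
        intro i
        rw [hGp, coeff_map]
        exact natDegree_map_le.trans (hd i))
      (by
        have := hbn (AlgebraicClosure (ZMod p)) ((algebraMap (ZMod p) (AlgebraicClosure (ZMod p))).comp ψ)
          (by
            rw [RingHom.comp_apply]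
            exact (map_ne_zero_iff _ (algebraMap (ZMod p) (AlgebraicClosure (ZMod p))).injective).2 hD1p)
        rw [hGp, Polynomial.map_map, mapRingHom_comp]
        exact this)
      hf hδf (by
        rw [hGpd]
        have e : ψ ((2 * G.natDegree : ℕ) : ℤ) = ((2 * G.natDegree : ℕ) : ZMod p) := by
          rw [map_natCast]
        rw [← e]
        exact h2p)
      (by
        rw [hGpd, Nat.card_eq_fintype_card, ZMod.card]
        exact hBf)
    obtain ⟨a, rfl⟩ := ZMod.intCast_surjective x0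
    obtain ⟨b, rfl⟩ := ZMod.intCast_surjective y0
    obtain ⟨c, rfl⟩ := ZMod.intCast_surjective w0
    refine ⟨a, b, c, ?_, ?_, ?_, ?_⟩
    · rw [← ZMod.intCast_zmod_eq_zero_iff_dvd, ← evalEval_cast]
      exact h1
    · rw [← ZMod.intCast_zmod_eq_zero_iff_dvd, ← evalEval_cast, ← derivative_map]
      exact h2
    · rw [← ZMod.intCast_zmod_eq_zero_iff_dvd, Int.cast_sub, Int.cast_pow, h3]
      have : ((f.eval a : ℤ) : ZMod p) = (f.map ψ).eval (a : ZMod p) := by
        have h5 : ((f.eval a : ℤ) : ZMod p) = ψ (f.eval a) := rfl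
        rw [h5, ← eval₂_at_apply, eval₂_eq_eval_map]
        rfl
      rw [this, sub_self]
    · rw [← ZMod.intCast_zmod_eq_zero_iff_dvd]
      exact h4

end Pool.Agent.Helper47.GX
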