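import Mathlib
import Pool.Agent.Helper47.GX.Loc

/-!
# Arithmetic of the polynomials `r P1(x) P2(x)`
-/

set_option autoImplicit false

namespace Pool.Agent.Helper47.GX

open Polynomial

/-- `-1` is an `n`-th power modulo `r` if `2 n ∣ r - 1` -/
theorem exists_neg_one_pow {r : ℕ} [Fact r.Prime] {n : ℕ} (hn : 2 * n ∣ r - 1) :
    ∃ t : ZMod r, t ^ n = -1 := by
  have hr := Fact.out (p := r.Prime)
  obtain ⟨g, hg⟩ := IsCyclic.exists_generator (α := (ZMod r)ˣ)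
  have hord : orderOf g = r - 1 := by
    rw [orderOf_eq_card_of_forall_mem_zpowers hg, Nat.card_eq_fintype_card, ZMod.card_units]
  obtain ⟨k, hk⟩ := hn
  have hr1 := hr.one_lt
  have hk0 : 0 < n * k := by
    rcases Nat.eq_zero_or_pos (n * k) with h | h
    · rw [mul_assoc, h] at hk; omega
    · exact h
  refine ⟨((g ^ k : (ZMod r)ˣ) : ZMod r), ?_⟩
  have h1 : ((g ^ k) ^ n) ^ 2 = 1 := by
    rw [← pow_mul, ← pow_mul, show k * (n * 2) = r - 1 by rw [hk]; ring, ← hord,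
      pow_orderOf_eq_one]
  have h2 : (g ^ k) ^ n ≠ 1 := by
    rw [← pow_mul]
    intro h
    have := orderOf_dvd_of_pow_eq_one h
    rw [hord, hk, mul_comm k n] at this
    have := Nat.le_of_dvd hk0 this
    rw [mul_assoc] at this
    omega
  have h3 : (((g ^ k : (ZMod r)ˣ) : ZMod r) ^ n - 1) * (((g ^ k : (ZMod r)ˣ) : ZMod r) ^ n + 1) = 0 := by
    have := congrArg Units.val h1
    push_cast at this ⊢
    linear_combination this
  rcases mul_eq_zero.1 h3 with h | h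
  · exfalso
    apply h2
    apply Units.ext
    push_cast at h ⊢
    linear_combination h
  · linear_combination h

theorem mul_near {p : ℕ} [Fact p.Prime] {A B : ℚ_[p]} {ε : ℝ} (hε : ε ≤ 1) (hA : ‖A - 1‖ < ε)
    (hB : ‖B - 1‖ < ε) : ‖A * B - 1‖ < ε := by
  have h1 : A * B - 1 = (A - 1) * (B - 1) + ((A - 1) + (B - 1)) := by ring
  rw [h1]
  have h0 : 0 ≤ ‖A - 1‖ := norm_nonneg _
  have h0' : 0 ≤ ‖B - 1‖ := norm_nonneg _
  refine (Padic.nonarchimedean _ _).trans_lt (max_lt ?_ ((Padic.nonarchimedean _ _).trans_lt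
    (max_lt hA hB)))
  rw [norm_mul]
  calc ‖A - 1‖ * ‖B - 1‖ ≤ ‖A - 1‖ * 1 := mul_le_mul_of_nonneg_left (hB.le.trans hε) h0
    _ < ε := by rwa [mul_one]

theorem aeval_P1 {K : Type*} [CommRing K] (m : ℕ) (a b : ℤ) (x : K) :
    aeval x (P1 m a b) = (x - a) ^ (2 * m) + (b : K) ^ (2 * m) := by
  have h : aeval x (P1 m a b) = ((P1 m a b).map (algebraMap ℤ K)).eval x := by
    rw [aeval_def, eval₂_eq_eval_map]
  rw [h, map_P1, eval_P1]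
  simp

theorem aeval_P2 {K : Type*} [CommRing K] (m : ℕ) (a b : ℤ) (x : K) :
    aeval x (P2 m a b) = (x - a) ^ (2 * m) + 2 * (b : K) ^ m * (x - a) ^ m + 3 * (b : K) ^ (2 * m) := by
  have h : aeval x (P2 m a b) = ((P2 m a b).map (algebraMap ℤ K)).eval x := by
    rw [aeval_def, eval₂_eq_eval_map]
  rw [h, map_P2, eval_P2]
  simp

/-- the polynomial `f` -/
noncomputable def ffin (m r : ℕ) (a b : ℤ) : ℤ[X] := C (r : ℤ) * (P1 m a b * P2 m a b)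

theorem aeval_ffin {K : Type*} [CommRing K] (m r : ℕ) (a b : ℤ) (x : K) :
    aeval x (ffin m r a b) = r * (((x - a) ^ (2 * m) + (b : K) ^ (2 * m)) *
      ((x - a) ^ (2 * m) + 2 * (b : K) ^ m * (x - a) ^ m + 3 * (b : K) ^ (2 * m))) := by
  rw [ffin, map_mul, map_mul, aeval_P1, aeval_P2, aeval_C]
  simp

theorem at_T {p : ℕ} [hp : Fact p.Prime] {m r : ℕ} (hm : 0 < m) {a b : ℤ} {x : ℚ_[p]}
    (hr : ‖(r : ℚ_[p]) - 1‖ < ‖(4 : ℚ_[p])‖) (hx : x ≠ a)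
    (hb : ‖(b : ℚ_[p])‖ < ‖(4 : ℚ_[p])‖ * ‖x - a‖) :
    ∃ w : ℚ_[p], w ≠ 0 ∧ w ^ 2 = aeval x (ffin m r a b) := by
  have hx0 : x - a ≠ 0 := sub_ne_zero.2 hx
  have hxn : 0 < ‖x - a‖ := norm_pos_iff.2 hx0
  have h4 : ‖(4 : ℚ_[p])‖ ≤ 1 := by
    have := PadicInt.norm_le_one (4 : ℤ_[p])
    rw [PadicInt.norm_def] at this
    exact this
  have h2 : ‖(2 : ℚ_[p])‖ ≤ 1 := by
    have := PadicInt.norm_le_one (2 : ℤ_[p])
    rw [PadicInt.norm_def] at this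
    exact this
  have h3 : ‖(3 : ℚ_[p])‖ ≤ 1 := by
    have := PadicInt.norm_le_one (3 : ℤ_[p])
    rw [PadicInt.norm_def] at this
    exact this
  set β : ℚ_[p] := b / (x - a) with hβ
  have hβn : ‖β‖ < ‖(4 : ℚ_[p])‖ := by
    rw [hβ, norm_div, div_lt_iff₀ hxn]
    exact hb
  have hβ1 : ‖β‖ ≤ 1 := hβn.le.trans h4
  have hpow : ∀ n : ℕ, 0 < n → ‖β ^ n‖ < ‖(4 : ℚ_[p])‖ := by
    intro n hn
    rw [norm_pow]
    exact (pow_le_of_le_one (norm_nonneg _) hβ1 hn.ne').trans_lt hβn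
  have hA : ‖(1 + β ^ (2 * m)) - 1‖ < ‖(4 : ℚ_[p])‖ := by
    rw [add_sub_cancel_left]
    exact hpow _ (by omega)
  have hsmall : ∀ c z : ℚ_[p], ‖c‖ ≤ 1 → ‖z‖ < ‖(4 : ℚ_[p])‖ → ‖c * z‖ < ‖(4 : ℚ_[p])‖ := by
    intro c z hc hz
    rw [norm_mul]
    calc ‖c‖ * ‖z‖ ≤ 1 * ‖z‖ := mul_le_mul_of_nonneg_right hc (norm_nonneg _)
      _ < _ := by rwa [one_mul]
  have hB : ‖(1 + 2 * β ^ m + 3 * β ^ (2 * m)) - 1‖ < ‖(4 : ℚ_[p])‖ := by
    have e : (1 + 2 * β ^ m + 3 * β ^ (2 * m)) - 1 = 2 * β ^ m + 3 * β ^ (2 * m) := by ring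
    rw [e]
    exact (Padic.nonarchimedean _ _).trans_lt (max_lt (hsmall _ _ h2 (hpow _ hm))
      (hsmall _ _ h3 (hpow _ (by omega))))
  obtain ⟨w, hw0, hw⟩ := sq_near _ (mul_near h4 hr (mul_near h4 hA hB))
  refine ⟨(x - a) ^ (2 * m) * w, mul_ne_zero (pow_ne_zero _ hx0) hw0, ?_⟩
  rw [aeval_ffin, mul_pow, hw]
  have hb' : (b : ℚ_[p]) = β * (x - a) := by
    rw [hβ, div_mul_cancel₀ _ hx0]
  rw [hb', mul_pow, mul_pow]
  ring

/-- shift to a simple zero -/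
theorem shift {r : ℕ} [hr : Fact r.Prime] (g : ℤ[X]) (x0 : ℤ) (h0 : (r : ℤ) ∣ g.eval x0)
    (h1 : ¬ (r : ℤ) ∣ (derivative g).eval x0) :
    ∃ (x d : ℤ), (x : ZMod r) = x0 ∧ g.eval x = r * (1 + r * d) := by
  obtain ⟨c, hc⟩ := h0
  have hpz : Prime (r : ℤ) := Nat.prime_iff_prime_int.1 hr.out
  have hco : IsCoprime (r : ℤ) ((derivative g).eval x0) := (hpz.coprime_iff_not_dvd).2 h1
  obtain ⟨u, v, huv⟩ := hco
  obtain ⟨t, ht⟩ : ∃ t : ℤ, t = (1 - c) * v := ⟨_, rfl⟩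
  obtain ⟨z, hz⟩ := Polynomial.binomExpansion g x0 (r * t)
  refine ⟨x0 + r * t, z * t ^ 2 - (1 - c) * u, ?_, ?_⟩
  · push_cast
    simp
  · rw [hz, hc]
    have : (derivative g).eval x0 * t = (1 - c) * (1 - u * r) := by
      rw [ht]
      linear_combination (1 - c) * huv
    linear_combination (r : ℤ) * this

theorem at_r {r : ℕ} [hr : Fact r.Prime] (hr2 : r ≠ 2) {m : ℕ} {a b : ℤ} (x0 : ℤ)
    (h0 : (r : ℤ) ∣ (P1 m a b * P2 m a b).eval x0)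
    (h1 : ¬ (r : ℤ) ∣ (derivative (P1 m a b * P2 m a b)).eval x0) :
    ∃ (x : ℤ), (x : ZMod r) = x0 ∧ ∃ w : ℚ_[r], w ≠ 0 ∧ w ^ 2 = aeval (x : ℚ_[r]) (ffin m r a b) := by
  obtain ⟨x, d, hx, hd⟩ := shift _ x0 h0 h1
  obtain ⟨w, hw0, hw⟩ := hens_sq hr2 (1 + r * d) 1 (by simp) (by
    intro h
    exact (Nat.prime_iff_prime_int.1 hr.out).not_isUnit (isUnit_of_dvd_one h))
  have hr0 : (r : ℚ_[r]) ≠ 0 := by exact_mod_cast hr.out.ne_zero
  refine ⟨x, hx, r * w, mul_ne_zero hr0 hw0, ?_⟩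
  rw [ffin, map_mul, aeval_C, mul_pow, hw]
  have e : aeval (x : ℚ_[r]) (P1 m a b * P2 m a b) = (((P1 m a b * P2 m a b).eval x : ℤ) : ℚ_[r]) := by
    have := Polynomial.aeval_algebraMap_apply ℚ_[r] x (P1 m a b * P2 m a b)
    simpa using this
  rw [e, hd]
  push_cast
  ring

end Pool.Agent.Helper47.GX
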