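import Mathlib
import Pool.Graph.R_seed8.W401.Cheb.Main

/-!
# Primes `r ≡ 1 mod M` for which `2` is no fourth power
-/

set_option autoImplicit false

namespace Pool.Agent.Helper47.GX

open Polynomial NumberField Pool.Agent.W401.Cheb

/-- the field with the `M`-th roots of unity and the fourth roots of `2` -/
abbrev LM (M : ℕ) : Type := SplittingField (cyclotomic M ℚ * (X ^ 4 - 2 : ℚ[X]))

instance (M : ℕ) : NumberField (LM M) where
  to_charZero := inferInstance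
  to_finiteDimensional := inferInstance

instance (M : ℕ) : IsGalois ℚ (LM M) := by
  have h1 : IsSplittingField ℚ (LM M) (cyclotomic M ℚ * (X ^ 4 - 2 : ℚ[X])) :=
    IsSplittingField.splittingField _
  have h2 : Normal ℚ (LM M) := Normal.of_isSplittingField (cyclotomic M ℚ * (X ^ 4 - 2 : ℚ[X]))
  exact ⟨⟩

theorem pol_ne (M : ℕ) : (cyclotomic M ℚ * (X ^ 4 - 2 : ℚ[X])) ≠ 0 := by
  refine mul_ne_zero (cyclotomic_ne_zero M ℚ) ?_
  intro h
  have := congrArg (Polynomial.eval 0) h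
  simp at this

theorem exists_zeta (M : ℕ) (hM : 0 < M) : ∃ ζ : LM M, IsPrimitiveRoot ζ M := by
  have h1 := SplittingField.splits (cyclotomic M ℚ * (X ^ 4 - 2 : ℚ[X]))
  rw [Polynomial.map_mul] at h1
  have h0 : ((cyclotomic M ℚ).map (algebraMap ℚ (LM M))) * ((X ^ 4 - 2 : ℚ[X]).map (algebraMap ℚ (LM M))) ≠ 0 := by
    rw [← Polynomial.map_mul]
    exact (Polynomial.map_ne_zero_iff (algebraMap ℚ (LM M)).injective).2 (pol_ne M)
  have h2 : ((cyclotomic M ℚ).map (algebraMap ℚ (LM M))).Splits := by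
    exact h1.of_dvd h0 (dvd_mul_right _ _)
  have h3 : ((cyclotomic M ℚ).map (algebraMap ℚ (LM M))).degree ≠ 0 := by
    rw [degree_map, degree_cyclotomic]
    have := Nat.totient_pos.2 hM
    exact_mod_cast this.ne'
  obtain ⟨ζ, hζ⟩ := h2.exists_eval_eq_zero h3
  refine ⟨ζ, ?_⟩
  haveI : NeZero ((M : ℕ) : LM M) := ⟨by exact_mod_cast hM.ne'⟩
  rw [← isRoot_cyclotomic_iff, IsRoot.def]
  rw [map_cyclotomic] at hζ
  exact hζ

theorem exists_theta (M : ℕ) : ∃ θ : LM M, θ ^ 4 = 2 := by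
  have h1 := SplittingField.splits (cyclotomic M ℚ * (X ^ 4 - 2 : ℚ[X]))
  rw [Polynomial.map_mul] at h1
  have h0 : ((cyclotomic M ℚ).map (algebraMap ℚ (LM M))) * ((X ^ 4 - 2 : ℚ[X]).map (algebraMap ℚ (LM M))) ≠ 0 := by
    rw [← Polynomial.map_mul]
    exact (Polynomial.map_ne_zero_iff (algebraMap ℚ (LM M)).injective).2 (pol_ne M)
  have h2 : ((X ^ 4 - 2 : ℚ[X]).map (algebraMap ℚ (LM M))).Splits := by
    exact h1.of_dvd h0 (dvd_mul_left _ _)
  have h3 : ((X ^ 4 - 2 : ℚ[X]).map (algebraMap ℚ (LM M))).degree ≠ 0 := by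
    rw [degree_map]
    have : (X ^ 4 - 2 : ℚ[X]) = X ^ 4 - C 2 := by rw [map_ofNat]
    rw [this, degree_X_pow_sub_C (by norm_num)]
    norm_num
  obtain ⟨θ, hθ⟩ := h2.exists_eval_eq_zero h3
  refine ⟨θ, ?_⟩
  simp at hθ
  linear_combination hθ

/-- some automorphism does not multiply `θ` by `±1` -/
theorem exists_tau {M : ℕ} {θ : LM M} (hθ : θ ^ 4 = 2) :
    ∃ τ : Gal(LM M/ℚ), (τ θ / θ) ^ 2 = -1 := by
  have hθ0 : θ ≠ 0 := by
    rintro rfl
    norm_num at hθ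
  by_contra hno
  push Not at hno
  have h1 : ∀ τ : Gal(LM M/ℚ), τ (θ ^ 2) = θ ^ 2 := by
    intro τ
    have h2 : (τ θ) ^ 4 = 2 := by
      rw [← map_pow, hθ, map_ofNat]
    have h3 : ((τ θ / θ) ^ 2 - 1) * ((τ θ / θ) ^ 2 + 1) = 0 := by
      have : (τ θ / θ) ^ 4 = 1 := by
        rw [div_pow, h2, hθ]
        norm_num
      linear_combination this
    rcases mul_eq_zero.1 h3 with h | h
    · have h4 : (τ θ / θ) ^ 2 = 1 := by linear_combination h
      rw [div_pow, div_eq_one_iff_eq (pow_ne_zero _ hθ0)] at h4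
      rw [map_pow, h4]
    · exact absurd (by linear_combination h) (hno τ)
  obtain ⟨q, hq⟩ := (IsGalois.mem_range_algebraMap_iff_fixed (F := ℚ) (θ ^ 2)).2 h1
  have h2 : q ^ 2 = 2 := by
    apply (algebraMap ℚ (LM M)).injective
    rw [map_pow, hq, ← pow_mul, hθ, map_ofNat]
  exact not_isSquare_of_sq_eq_two q h2
where
  not_isSquare_of_sq_eq_two (q : ℚ) (h : q ^ 2 = 2) : False := by
    have h1 : IsSquare (2 : ℚ) := ⟨q, by rw [← h, sq]⟩
    have h2 : IsSquare ((2 : ℤ) : ℚ) := by exact_mod_cast h1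
    rw [Rat.isSquare_intCast_iff] at h2
    exact Int.prime_two.not_isSquare h2

/-- a fourth root of two on which the complex conjugation acts trivially -/
theorem exists_conj (M : ℕ) : ∃ (θ : LM M) (c : Gal(LM M/ℚ)), θ ^ 4 = 2 ∧ c θ = θ ∧
    ∀ j : LM M, j ^ 2 = -1 → c j = -j := by
  obtain ⟨φ⟩ : Nonempty (LM M →+* ℂ) := inferInstance
  letI : Algebra (LM M) ℂ := φ.toAlgebra
  haveI : IsScalarTower ℚ (LM M) ℂ := IsScalarTower.of_algebraMap_eq fun q => by simp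
  let c : Gal(LM M/ℚ) := (Complex.conjAe.restrictScalars ℚ).restrictNormal (LM M)
  have hc : ∀ z : LM M, φ (c z) = (starRingEnd ℂ) (φ z) := by
    intro z
    exact AlgEquiv.restrictNormal_commutes (Complex.conjAe.restrictScalars ℚ) (LM M) z
  have hj : ∀ j : LM M, j ^ 2 = -1 → c j = -j := by
    intro j hj
    apply φ.injective
    rw [hc, map_neg]
    have h1 : φ j ^ 2 = -1 := by rw [← map_pow, hj, map_neg, map_one]
    have h2 : (φ j - Complex.I) * (φ j + Complex.I) = 0 := by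
      linear_combination h1 - Complex.I_sq
    rcases mul_eq_zero.1 h2 with h | h
    · rw [sub_eq_zero.1 h, Complex.conj_I]
    · rw [eq_neg_of_add_eq_zero_left h, map_neg, Complex.conj_I]
  have hreal : ∀ z : LM M, φ z ^ 2 = (Real.sqrt 2 : ℂ) → c z = z := by
    intro z hz
    apply φ.injective
    rw [hc, Complex.conj_eq_iff_im]
    have h1 := congrArg Complex.re hz
    have h2 := congrArg Complex.im hz
    simp only [sq, Complex.mul_re, Complex.mul_im, Complex.ofReal_re, Complex.ofReal_im] at h1 h2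
    by_contra him
    have h3 : (φ z).re = 0 := by
      have : (φ z).re * (φ z).im = 0 := by linarith
      exact (mul_eq_zero.1 this).resolve_right him
    rw [h3] at h1
    have h4 := Real.sqrt_pos.2 (show (0 : ℝ) < 2 by norm_num)
    nlinarith [mul_self_nonneg (φ z).im]
  obtain ⟨θ₀, hθ₀⟩ := exists_theta M
  obtain ⟨τ, hτ⟩ := exists_tau hθ₀
  set j := τ θ₀ / θ₀ with hjdef
  have hs : (Real.sqrt 2 : ℂ) ^ 2 = 2 := by
    rw [← Complex.ofReal_pow, Real.sq_sqrt (by norm_num)]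
    norm_num
  have h1 : (φ θ₀ ^ 2 - (Real.sqrt 2 : ℂ)) * (φ θ₀ ^ 2 + (Real.sqrt 2 : ℂ)) = 0 := by
    have : φ θ₀ ^ 4 = 2 := by rw [← map_pow, hθ₀, map_ofNat]
    linear_combination this - hs
  rcases mul_eq_zero.1 h1 with h | h
  · exact ⟨θ₀, c, hθ₀, hreal θ₀ (by linear_combination h), hj⟩
  · refine ⟨j * θ₀, c, ?_, hreal (j * θ₀) ?_, hj⟩
    · rw [mul_pow, hθ₀, show j ^ 4 = (j ^ 2) ^ 2 by ring, hτ]
      norm_num
    · rw [map_mul, mul_pow, ← map_pow φ j, hτ, map_neg, map_one]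
      linear_combination -h

theorem exists_g (M : ℕ) (hM : 0 < M) : ∃ (ζ θ : LM M) (g : Gal(LM M/ℚ)), IsPrimitiveRoot ζ M ∧
    θ ^ 4 = 2 ∧ g ζ = ζ ∧ g θ = -θ := by
  obtain ⟨ζ, hζ⟩ := exists_zeta M hM
  obtain ⟨θ, c, hθ, hcθ, hcj⟩ := exists_conj M
  obtain ⟨τ, hτ⟩ := exists_tau hθ
  have hθ0 : θ ≠ 0 := by
    rintro rfl
    norm_num at hθ
  set j := τ θ / θ with hj
  have hτθ : τ θ = j * θ := by rw [hj, div_mul_cancel₀ _ hθ0]
  have hpow : ∀ σ : Gal(LM M/ℚ), ∃ a : ℕ, σ ζ = ζ ^ a := by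
    intro σ
    have h1 : (σ ζ) ^ M = 1 := by rw [← map_pow, hζ.pow_eq_one, map_one]
    haveI : NeZero M := ⟨hM.ne'⟩
    obtain ⟨a, -, ha⟩ := hζ.eq_pow_of_pow_eq_one h1
    exact ⟨a, ha.symm⟩
  obtain ⟨a, ha⟩ := hpow c
  obtain ⟨b, hb⟩ := hpow τ
  refine ⟨ζ, θ, (c * τ)⁻¹ * (τ * c), hζ, hθ, ?_, ?_⟩
  · have h1 : (τ * c) ζ = (c * τ) ζ := by
      rw [AlgEquiv.mul_apply, AlgEquiv.mul_apply, ha, hb, map_pow, map_pow, ha, hb, ← pow_mul,
        ← pow_mul, Nat.mul_comm a b]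
    rw [AlgEquiv.mul_apply, h1, ← AlgEquiv.mul_apply, inv_mul_cancel, AlgEquiv.one_apply]
  · have h1 : (τ * c) θ = (c * τ) (-θ) := by
      rw [AlgEquiv.mul_apply, AlgEquiv.mul_apply, hcθ, map_neg, hτθ, map_neg, map_mul, hcθ,
        hcj j hτ]
      ring
    rw [AlgEquiv.mul_apply, h1, ← AlgEquiv.mul_apply, inv_mul_cancel, AlgEquiv.one_apply]

/-- **primes `r ≡ 1 mod M` for which `2` is no fourth power** -/
theorem primes (M N : ℕ) (hM : 0 < M) (h4 : 4 ∣ M) : ∃ r : ℕ, r.Prime ∧ N < r ∧ M ∣ r - 1 ∧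
    (2 : ZMod r) ^ ((r - 1) / 4) = -1 := by
  have h4M := h4
  obtain ⟨ζ, θ, g, hζ, hθ, hgζ, hgθ⟩ := exists_g M hM
  obtain ⟨r, ⟨hr, hx⟩, hrN⟩ := (infinite_frob (LM M) g).exists_gt (N + M)
  haveI : Fact r.Prime := ⟨hr⟩
  refine ⟨r, hr, by omega, ?_⟩
  have hx' : Nonempty {φ : 𝓞 (LM M) →+* AlgebraicClosure (ZMod r) // HasFrob r φ g} := by
    by_contra h
    apply hx
    rw [xp, dif_pos hr]
    haveI := not_nonempty_iff.1 h
    exact Nat.card_of_isEmpty
  obtain ⟨φ, hφ⟩ := hx'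
  have hζi : IsIntegral ℤ ζ := hζ.isIntegral hM
  have hθi : IsIntegral ℤ θ := by
    apply IsIntegral.of_pow (n := 4) (by norm_num)
    rw [hθ]
    exact_mod_cast isIntegral_algebraMap (R := ℤ) (A := LM M) (x := 2)
  let z : 𝓞 (LM M) := ⟨ζ, hζi⟩
  let t : 𝓞 (LM M) := ⟨θ, hθi⟩
  have hgz : g • z = z := by
    apply RingOfIntegers.ext
    exact hgζ
  have hgt : g • t = -t := by
    apply RingOfIntegers.ext
    exact hgθ
  have ht4 : t ^ 4 = 2 := by
    apply RingOfIntegers.ext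
    exact hθ
  have hzp : IsPrimitiveRoot z M := by
    refine IsPrimitiveRoot.of_map_of_injective (f := algebraMap (𝓞 (LM M)) (LM M)) ?_
      RingOfIntegers.coe_injective
    exact hζ
  set k := AlgebraicClosure (ZMod r)
  haveI : CharP k r := inferInstance
  have hMk : ((M : ℕ) : k) ≠ 0 := by
    intro h
    rw [CharP.cast_eq_zero_iff k r] at h
    exact absurd (Nat.le_of_dvd hM h) (by omega)
  haveI : NeZero ((M : ℕ) : k) := ⟨hMk⟩
  have h1 := hφ z
  have h2 := hφ t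
  rw [hgz] at h1
  rw [hgt, map_neg] at h2
  have hzk : IsPrimitiveRoot (φ z) M := by
    rw [← isRoot_cyclotomic_iff]
    have h3 : (cyclotomic M (𝓞 (LM M))).IsRoot z := hzp.isRoot_cyclotomic hM
    have h4 := h3.map (f := φ)
    rwa [map_cyclotomic] at h4
  have hz0 : φ z ≠ 0 := hzk.ne_zero hM.ne'
  have ht0 : φ t ≠ 0 := by
    intro h
    have h3 : (φ t) ^ 4 = 2 := by rw [← map_pow, ht4, map_ofNat]
    rw [h, zero_pow (by norm_num)] at h3
    have h4 : ((2 : ℕ) : k) = 0 := by rw [Nat.cast_ofNat]; exact h3.symm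
    rw [CharP.cast_eq_zero_iff k r] at h4
    have h5 := Nat.le_of_dvd (by norm_num) h4
    have h6 := Nat.le_of_dvd hM h4M
    omega
  have hr1 : 1 ≤ r := hr.one_lt.le
  have h3 : φ z ^ (r - 1) = 1 := by
    apply mul_right_cancel₀ hz0
    rw [← pow_succ, Nat.sub_add_cancel hr1, one_mul, ← h1]
  have hMr : M ∣ r - 1 := hzk.dvd_of_pow_eq_one _ h3
  refine ⟨hMr, ?_⟩
  have h5 : φ t ^ (r - 1) = -1 := by
    apply mul_right_cancel₀ ht0
    rw [← pow_succ, Nat.sub_add_cancel hr1, neg_one_mul, ← h2]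
  obtain ⟨n, hn⟩ := h4.trans hMr
  have h6 : (r - 1) / 4 = n := by omega
  rw [h6]
  apply (algebraMap (ZMod r) k).injective
  rw [map_pow, map_neg, map_one, map_ofNat, ← h5, hn, pow_mul, ← map_pow, ht4, map_ofNat]

end Pool.Agent.Helper47.GX
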