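import Mathlib
import Pool.Agent.Helper47.GX.Good
import Pool.Agent.Helper47.GX.Arith
import Pool.Agent.Helper47.GX.Scn
import Pool.Agent.Helper47.GX.Qt

/-!
# Everywhere locally soluble double covers
-/

set_option autoImplicit false

namespace Pool.Agent.Helper47.GX

open Polynomial

/-- a point of the plane curve `G(x, y) = 0` with `∂G/∂y ≠ 0` -/
def SmPt (G : ℤ[X][X]) {K : Type} [Field K] (x y : K) : Prop :=
  aevalAeval x y G = 0 ∧ aevalAeval x y (derivative G) ≠ 0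

theorem map_ffin {R : Type} [CommRing R] (φ : ℤ →+* R) (m r : ℕ) (a b : ℤ) :
    (ffin m r a b).map φ = C (r : R) * (P1 m (φ a) (φ b) * P2 m (φ a) (φ b)) := by
  rw [ffin, Polynomial.map_mul, Polynomial.map_mul, map_P1, map_P2, map_C, map_natCast]

theorem ffin_good {F : Type} [Field F] (φ : ℤ →+* F) {m r : ℕ} (hm : 0 < m) {a b : ℤ}
    (h2 : (2 : F) ≠ 0) (h3 : (3 : F) ≠ 0) (hmF : (m : F) ≠ 0) (hr : (r : F) ≠ 0) (hb : φ b ≠ 0) :
    ((ffin m r a b).map φ).Separable ∧ ((ffin m r a b).map φ).natDegree = 4 * m := by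
  rw [map_ffin]
  constructor
  · exact Separable.unit_mul (Polynomial.isUnit_C.2 (isUnit_iff_ne_zero.2 hr))
      (sep_P hm (isUnit_iff_ne_zero.2 h2) (isUnit_iff_ne_zero.2 h3) (isUnit_iff_ne_zero.2 hmF)
        (isUnit_iff_ne_zero.2 hb))
  · rw [natDegree_C_mul hr, (monic_P1 hm _ _).natDegree_mul (monic_P2 hm _ _), natDegree_P1 hm,
      natDegree_P2 hm]
    ring

/-- avoid finitely many values -/
theorem avoid (T : Finset ℕ) (c r : ℤ) (hr : r ≠ 0) (x : ∀ (p : ℕ) [Fact p.Prime], ℚ_[p]) :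
    ∃ a : ℤ, r ∣ a - c ∧ ∀ (p : ℕ) [Fact p.Prime], p ∈ T → x p ≠ (a : ℚ_[p]) := by
  classical
  by_contra hno
  push Not at hno
  have h1 : ∀ k : ℕ, ∃ p ∈ T, ∃ _ : Fact p.Prime, x p = ((c + r * k : ℤ) : ℚ_[p]) := by
    intro k
    obtain ⟨p, hp, hpT, h⟩ := hno (c + r * k) ⟨k, by ring⟩
    exact ⟨p, hpT, hp, h⟩
  choose f hfT hf1 hf2 using h1
  obtain ⟨i, j, hij, hfij⟩ := Finite.exists_ne_map_eq_of_infinite (fun k => (⟨f k, hfT k⟩ : T))
  have h2 : f i = f j := congrArg Subtype.val hfij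
  have key : ∀ (p q : ℕ) (_ : p = q) (h1 : Fact p.Prime) (h2 : Fact q.Prime) (u v : ℤ),
      x p = (u : ℚ_[p]) → x q = (v : ℚ_[q]) → u = v := by
    rintro p q rfl h1 h2 u v hu hv
    have : (u : ℚ_[p]) = v := by
      rw [← hu]
      exact hv
    exact_mod_cast this
  have h3 := key _ _ h2 (hf1 i) (hf1 j) _ _ (hf2 i) (hf2 j)
  have h4 : r * (i : ℤ) = r * j := by linarith
  exact hij (by exact_mod_cast mul_left_cancel₀ hr h4)

theorem exists_exp (T : Finset ℕ) (Q : ℕ) (hQ : ∀ p ∈ T, p ∣ Q) (ε : ∀ (p : ℕ) [Fact p.Prime], ℝ)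
    (hε : ∀ (p : ℕ) [Fact p.Prime], p ∈ T → 0 < ε p) :
    ∃ J : ℕ, ∀ (p : ℕ) [Fact p.Prime], p ∈ T → ∀ j, J ≤ j → ‖((Q : ℚ_[p])) ^ j‖ < ε p := by
  classical
  have h1 : ∀ p : ℕ, ∃ J : ℕ, ∀ [Fact p.Prime], p ∈ T → ∀ j, J ≤ j → ‖((Q : ℚ_[p])) ^ j‖ < ε p := by
    intro p
    by_cases hp : p.Prime
    · by_cases hpT : p ∈ T
      · have := Fact.mk hp
        have h2 : ‖(Q : ℚ_[p])‖ < 1 := by
          have := (Padic.norm_natCast_lt_one_iff (p := p) (n := Q)).2 (hQ p hpT)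
          exact this
        obtain ⟨J, hJ⟩ := exists_pow_lt_of_lt_one (hε p hpT) h2
        refine ⟨J, fun {_} _ j hj => ?_⟩
        rw [norm_pow]
        exact (pow_le_pow_of_le_one (norm_nonneg _) h2.le hj).trans_lt hJ
      · exact ⟨0, fun {_} h => absurd h hpT⟩
    · exact ⟨0, fun {h} => absurd h.out hp⟩
  choose J hJ using h1
  refine ⟨T.sup J, fun p _ hpT j hj => hJ p hpT j ((Finset.le_sup hpT).trans hj)⟩

theorem main (G : ℤ[X][X]) (hG : G.Monic) (hn : 0 < G.natDegree) (hirr : AbsIrr G) (N : ℕ)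
    (S : Finset ℕ) (x y : ∀ (p : ℕ) [Fact p.Prime], ℚ_[p]) (hxy : ∀ (p : ℕ) [Fact p.Prime],
      SmPt G (x p) (y p)) :
    ∃ (m r : ℕ) (a b : ℤ), 0 < m ∧ N ≤ m ∧ r.Prime ∧ 48 * m ∣ r - 1 ∧
      (2 : ZMod r) ^ ((r - 1) / 4) = -1 ∧ b ≠ 0 ∧
      (∀ (p : ℕ) [Fact p.Prime], ∃ x y w : ℚ_[p], SmPt G x y ∧ w ≠ 0 ∧ w ^ 2 = aeval x (ffin m r a b)) ∧
      (∀ (p : ℕ) [Fact p.Prime], p ∈ S → ∃ w : ℚ_[p], w ≠ 0 ∧ w ^ 2 = aeval (x p) (ffin m r a b)) := by
  classical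
  obtain ⟨δ, E, B, hE, hgood⟩ := exists_good G hG hn hirr
  set m := N + δ + 1 with hm
  have hm0 : 0 < m := by omega
  set T : Finset ℕ := ((Finset.range (B (4 * m) + 1)) ∪ S ∪ (6 * m * E).primeFactors).filter
    Nat.Prime with hT
  have hTp : ∀ p ∈ T, p.Prime := fun p hp => (Finset.mem_filter.1 hp).2
  have h6mE : 6 * m * E ≠ 0 := by positivity
  set Q := ∏ p ∈ T, p with hQ
  have hQ0 : 0 < Q := Finset.prod_pos fun p hp => (hTp p hp).pos
  have hTQ : ∀ p ∈ T, p ∣ Q := fun p hp => Finset.dvd_prod_of_mem _ hp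
  have hnT : ∀ p : ℕ, p.Prime → p ∉ T → B (4 * m) < p ∧ ¬ p ∣ 6 * m ∧ ¬ p ∣ E ∧ p ∉ S := by
    intro p hp hpT
    rw [hT, Finset.mem_filter, not_and, imp_not_comm] at hpT
    have h1 := hpT hp
    rw [Finset.mem_union, Finset.mem_union, Finset.mem_range, not_or, not_or,
      Nat.mem_primeFactors] at h1
    obtain ⟨⟨h2, h3⟩, h4⟩ := h1
    have h5 : ¬ p ∣ 6 * m * E := fun h => h4 ⟨hp, h, h6mE⟩
    exact ⟨by omega, fun h => h5 (h.mul_right _), fun h => h5 (h.mul_left _), h3⟩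
  obtain ⟨r, hr, hrQ, hMr, h2r⟩ := primes (48 * m * Q) Q (by positivity)
    (Dvd.intro (12 * m * Q) (by ring))
  have hrF : Fact r.Prime := ⟨hr⟩
  have hrT : r ∉ T := fun h => absurd (Nat.le_of_dvd hQ0 (hTQ r h)) (not_le.2 hrQ)
  obtain ⟨hrB, hr6m, hrE, hrS⟩ := hnT r hr hrT
  have h48 : 48 * m ∣ r - 1 := (Dvd.intro Q rfl).trans hMr
  have hr1 := hr.one_lt
  have hr2 : r ≠ 2 := by
    rintro rfl
    exact hr6m (Dvd.intro (3 * m) (by ring))
  have hunit : ∀ {p : ℕ} [Fact p.Prime], ¬ p ∣ 6 * m → (2 : ZMod p) ≠ 0 ∧ (3 : ZMod p) ≠ 0 ∧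
      (m : ZMod p) ≠ 0 := by
    intro p hp hpm
    obtain ⟨u2, u3, um⟩ := units_of hp.out hpm
    exact ⟨u2.ne_zero, u3.ne_zero, um.ne_zero⟩
  have hcast : ∀ {p : ℕ} [Fact p.Prime] (z : ℤ), ((z : ℤ) : ZMod p) ≠ 0 ↔ ¬ (p : ℤ) ∣ z := by
    intro p _ z
    rw [Ne, ZMod.intCast_zmod_eq_zero_iff_dvd]
  -- the point modulo `r`
  obtain ⟨hs1, hd1⟩ := ffin_good (Int.castRingHom (ZMod r)) (m := m) (r := 1) (a := 0) (b := 1) hm0
    (hunit hr6m).1 (hunit hr6m).2.1 (hunit hr6m).2.2 (by simp) (by simp)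
  obtain ⟨X0, Y0, -, hX0, hX0', -, -⟩ := hgood r hrE (ffin m 1 0 1) hs1 (by rw [hd1]; omega)
    (by rw [hd1]; exact hrB)
  -- the root of `-1`
  obtain ⟨α, hα⟩ := exists_neg_one_pow (r := r) (n := 2 * m)
    ((Dvd.intro 12 (by ring)).trans h48)
  obtain ⟨A, rfl⟩ := ZMod.intCast_surjective α
  -- the centre
  obtain ⟨a, har, haT⟩ := avoid T (X0 - A) r (by exact_mod_cast hr.ne_zero) x
  -- the exponent
  obtain ⟨J, hJ⟩ := exists_exp T Q hTQ (fun p _ => ‖(4 : ℚ_[p])‖ * ‖x p - a‖) (by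
    intro p _ hp
    refine mul_pos (norm_pos_iff.2 (by norm_num)) (norm_pos_iff.2 (sub_ne_zero.2 (haT p hp))))
  set b : ℤ := ((Q ^ ((r - 1) * J) : ℕ) : ℤ) with hb
  have hb0 : b ≠ 0 := by
    rw [hb]
    exact_mod_cast (pow_pos hQ0 _).ne'
  have hbp : ∀ {p : ℕ} [Fact p.Prime], p ∉ T → (b : ZMod p) ≠ 0 := by
    intro p hp hpT h
    rw [hb, Int.cast_natCast, Nat.cast_pow] at h
    have h1 : ((Q : ℕ) : ZMod p) = 0 := eq_zero_of_pow_eq_zero h
    rw [ZMod.natCast_eq_zero_iff] at h1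
    obtain ⟨q, hq, hpq⟩ := (hp.out.prime.dvd_finsetProd_iff _).1 h1
    rw [(Nat.prime_dvd_prime_iff_eq hp.out (hTp q hq)).1 hpq] at hpT
    exact hpT hq
  have hbr : (b : ZMod r) = 1 := by
    rw [hb, Int.cast_natCast, Nat.cast_pow, pow_mul, ZMod.pow_card_sub_one_eq_one, one_pow]
    intro h
    rw [ZMod.natCast_eq_zero_iff] at h
    obtain ⟨q, hq, hpq⟩ := (hr.prime.dvd_finsetProd_iff _).1 h
    rw [(Nat.prime_dvd_prime_iff_eq hr (hTp q hq)).1 hpq] at hrT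
    exact hrT hq
  -- the places in `T`
  have hatT : ∀ (p : ℕ) [Fact p.Prime], p ∈ T → ∃ w : ℚ_[p], w ≠ 0 ∧
      w ^ 2 = aeval (x p) (ffin m r a b) := by
    intro p hp hpT
    refine at_T hm0 ?_ (haT p hpT) ?_
    · have h8 : (8 * p : ℤ) ∣ ((r : ℤ) - 1) * 1 ∨ True := Or.inr trivial
      have e : (r : ℚ_[p]) - 1 = (((r - 1 : ℕ) : ℤ) : ℚ_[p]) := by
        rw [Int.cast_natCast, Nat.cast_sub hr1.le, Nat.cast_one]
      have hd : 8 * p ∣ r - 1 := by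
        refine Dvd.dvd.trans ?_ hMr
        obtain ⟨q, hq⟩ := hTQ p hpT
        rw [hq]
        exact ⟨6 * m * q, by ring⟩
      obtain ⟨t, ht⟩ := hd
      rw [e, ht]
      push_cast
      rw [norm_mul, norm_mul]
      have h2 : ‖(2 : ℚ_[p])‖ ≤ 1 := by
        have := PadicInt.norm_le_one (2 : ℤ_[p])
        rw [PadicInt.norm_def] at this
        exact this
      have h8e : ‖(8 : ℚ_[p])‖ = ‖(4 : ℚ_[p])‖ * ‖(2 : ℚ_[p])‖ := by
        rw [← norm_mul]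
        norm_num
      have ht1 : ‖(t : ℚ_[p])‖ ≤ 1 := by
        have := PadicInt.norm_le_one (t : ℤ_[p])
        rw [PadicInt.norm_def] at this
        exact_mod_cast this
      have hp1 : ‖(p : ℚ_[p])‖ < 1 := Padic.norm_p_lt_one
      have h40 : 0 < ‖(4 : ℚ_[p])‖ := norm_pos_iff.2 (by norm_num)
      calc ‖(8 : ℚ_[p])‖ * ‖(p : ℚ_[p])‖ * ‖(t : ℚ_[p])‖
          ≤ ‖(8 : ℚ_[p])‖ * ‖(p : ℚ_[p])‖ * 1 := mul_le_mul_of_nonneg_left ht1 (by positivity)
        _ ≤ ‖(4 : ℚ_[p])‖ * 1 * ‖(p : ℚ_[p])‖ * 1 := by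
            rw [h8e]
            gcongr
        _ = ‖(4 : ℚ_[p])‖ * ‖(p : ℚ_[p])‖ := by ring
        _ < ‖(4 : ℚ_[p])‖ * 1 := mul_lt_mul_of_pos_left hp1 h40
        _ = _ := mul_one _
    · rw [hb, Int.cast_natCast, Nat.cast_pow]
      exact hJ p hpT _ (Nat.le_mul_of_pos_left _ (by omega))
  refine ⟨m, r, a, b, hm0, by omega, hr, h48, h2r, hb0, ?_, ?_⟩
  · intro p hp
    by_cases hpT : p ∈ T
    · obtain ⟨w, hw0, hw⟩ := hatT p hpT
      exact ⟨x p, y p, w, hxy p, hw0, hw⟩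
    obtain ⟨hpB, hp6m, hpE, hpS⟩ := hnT p hp.out hpT
    obtain ⟨h2, h3, hmp⟩ := hunit hp6m
    by_cases hpr : p = r
    · subst hpr
      -- the place `r`
      have hX0a : (X0 : ZMod p) - a = A := by
        have := (ZMod.intCast_zmod_eq_zero_iff_dvd _ _).2 har
        push_cast at this
        linear_combination -this
      have hP1 : (P1 m (a : ZMod p) (b : ZMod p)).eval (X0 : ZMod p) = 0 := by
        rw [eval_P1, hX0a, hα, hbr, one_pow]
        ring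
      have hev : ∀ q : ℤ[X], ((q.eval X0 : ℤ) : ZMod p) =
          (q.map (Int.castRingHom (ZMod p))).eval (X0 : ZMod p) := by
        intro q
        have h5 : ((q.eval X0 : ℤ) : ZMod p) = (Int.castRingHom (ZMod p)) (q.eval X0) := rfl
        rw [h5, ← eval₂_at_apply, eval₂_eq_eval_map]
        rfl
      have hmap : (P1 m a b * P2 m a b).map (Int.castRingHom (ZMod p)) =
          P1 m (a : ZMod p) (b : ZMod p) * P2 m (a : ZMod p) (b : ZMod p) := by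
        rw [Polynomial.map_mul, map_P1, map_P2]
        rfl
      have hsep := sep_P (R := ZMod p) (m := m) (a := (a : ZMod p)) (b := (b : ZMod p)) hm0
        (isUnit_iff_ne_zero.2 h2) (isUnit_iff_ne_zero.2 h3) (isUnit_iff_ne_zero.2 hmp)
        (isUnit_iff_ne_zero.2 (hbp hpT))
      have hroot : (P1 m (a : ZMod p) (b : ZMod p) * P2 m (a : ZMod p) (b : ZMod p)).eval
          (X0 : ZMod p) = 0 := by
        rw [eval_mul, hP1, zero_mul]
      obtain ⟨X1, hX1, w, hw0, hw⟩ := at_r (r := p) hr2 (m := m) (a := a) (b := b) X0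
        (by
          rw [← ZMod.intCast_zmod_eq_zero_iff_dvd, hev, hmap]
          exact hroot)
        (by
          rw [← ZMod.intCast_zmod_eq_zero_iff_dvd, hev, ← derivative_map, hmap]
          have := hsep.eval₂_derivative_ne_zero (RingHom.id _) (x := (X0 : ZMod p)) (by
            rw [eval₂_id]
            exact hroot)
          rw [eval₂_id] at this
          exact this)
      obtain ⟨y1, hy1, hy1'⟩ := hens_pt (p := p) G X1 Y0
        (by
          rw [← ZMod.intCast_zmod_eq_zero_iff_dvd, ← evalEval_cast, hX1, evalEval_cast,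
            ZMod.intCast_zmod_eq_zero_iff_dvd]
          exact hX0)
        (by
          rw [← ZMod.intCast_zmod_eq_zero_iff_dvd, ← evalEval_cast, hX1, evalEval_cast,
            ZMod.intCast_zmod_eq_zero_iff_dvd]
          exact hX0')
      exact ⟨X1, y1, w, ⟨hy1, hy1'⟩, hw0, hw⟩
    · have hrp : (r : ZMod p) ≠ 0 := by
        rw [Ne, ZMod.natCast_eq_zero_iff]
        intro h
        exact hpr ((Nat.prime_dvd_prime_iff_eq hp.out hr).1 h)
      obtain ⟨hs2, hd2⟩ := ffin_good (Int.castRingHom (ZMod p)) (m := m) (r := r) (a := a) (b := b)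
        hm0 h2 h3 hmp hrp (hbp hpT)
      obtain ⟨X1, Y1, W1, h4, h5, h6, h7⟩ := hgood p hpE (ffin m r a b) hs2 (by rw [hd2]; omega)
        (by rw [hd2]; exact hpB)
      obtain ⟨y1, hy1, hy1'⟩ := hens_pt G X1 Y1 h4 h5
      have hp2 : p ≠ 2 := by
        rintro rfl
        exact hp6m (Dvd.intro (3 * m) (by ring))
      obtain ⟨w, hw0, hw⟩ := hens_sq hp2 _ W1 h6 h7
      refine ⟨X1, y1, w, ⟨hy1, hy1'⟩, hw0, ?_⟩
      rw [hw]
      have := Polynomial.aeval_algebraMap_apply ℚ_[p] X1 (ffin m r a b)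
      simpa using this.symm
  · intro p hp hpS
    refine hatT p ?_
    rw [hT, Finset.mem_filter, Finset.mem_union, Finset.mem_union]
    exact ⟨Or.inl (Or.inr hpS), hp.out⟩

end Pool.Agent.Helper47.GX
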