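import Mathlib
import Pool.Agent.Helper47.GX.Main
import Pool.Agent.Helper47.GX.Nsq

/-!
# Geometric irreducibility of the double covers
-/

set_option autoImplicit false

namespace Pool.Agent.Helper47.GX

open Polynomial

theorem exists_root {k : Type} [Field k] [IsAlgClosed k] {g D : k[X]} (hg : g.Separable)
    (hD : D ≠ 0) (hd : D.natDegree < g.natDegree) : ∃ α : k, g.eval α = 0 ∧ D.eval α ≠ 0 := by
  classical
  by_contra hno
  push Not at hno
  have hg0 : g ≠ 0 := hg.ne_zero
  have h1 : g.roots.toFinset ⊆ D.roots.toFinset := by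
    intro a ha
    rw [Multiset.mem_toFinset, mem_roots hg0, IsRoot.def] at ha
    rw [Multiset.mem_toFinset, mem_roots hD, IsRoot.def]
    exact hno a ha
  have h2 := Finset.card_le_card h1
  have h3 : g.roots.toFinset.card = g.natDegree := by
    rw [Multiset.toFinset_card_of_nodup (nodup_roots hg)]
    exact (IsAlgClosed.splits g).natDegree_eq_card_roots.symm
  have h4 : D.roots.toFinset.card ≤ D.natDegree := (Multiset.toFinset_card_le _).trans (card_roots' _)
  omega

/-- `f(x)` is not a square in the function field of `G(x, y) = 0` over `k` -/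
theorem geo {k : Type} [Field k] [IsAlgClosed k] [CharZero k] {G A B : ℤ[X][X]} {D f : ℤ[X]}
    (hG : G.Monic) (hirr : Irreducible (G.map (mapRingHom (algebraMap ℤ k))))
    (hD : D ≠ 0) (hAB : A * G + B * derivative G = C D)
    (hf : (f.map (algebraMap ℤ k)).Separable) (hd : D.natDegree < f.natDegree) {E : Type*}
    [Field E] [Algebra k E] {x y w : E} (hx : Transcendental k x) (hxy : aevalAeval x y G = 0)
    (hw : w ∈ IntermediateField.adjoin k {x, y}) (hww : w ^ 2 = aeval x f) : False := by
  classical
  set φ := algebraMap ℤ k with hφ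
  have hφi : Function.Injective φ := FaithfulSMul.algebraMap_injective ℤ k
  have hDk : D.map φ ≠ 0 := (Polynomial.map_ne_zero_iff hφi).2 hD
  obtain ⟨α, hα, hDα⟩ := exists_root hf hDk (by
    rw [natDegree_map_eq_of_injective hφi, natDegree_map_eq_of_injective hφi]
    exact hd)
  set Gk := G.map (mapRingHom φ) with hGk
  -- squarefreeness
  have hsq : Squarefree (Gk.map (evalRingHom α)) := by
    apply Separable.squarefree
    rw [separable_def']
    have h1 : (A.map (mapRingHom φ)).map (evalRingHom α) * Gk.map (evalRingHom α) +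
        (B.map (mapRingHom φ)).map (evalRingHom α) * derivative (Gk.map (evalRingHom α)) =
        C ((D.map φ).eval α) := by
      rw [derivative_map, hGk, derivative_map, ← Polynomial.map_mul, ← Polynomial.map_mul,
        ← Polynomial.map_mul, ← Polynomial.map_mul, ← Polynomial.map_add, ← Polynomial.map_add, hAB,
        map_C, map_C]
      rfl
    refine ⟨C ((D.map φ).eval α)⁻¹ * (A.map (mapRingHom φ)).map (evalRingHom α),
      C ((D.map φ).eval α)⁻¹ * (B.map (mapRingHom φ)).map (evalRingHom α), ?_⟩
    have h2 : C ((D.map φ).eval α)⁻¹ * C ((D.map φ).eval α) = 1 := by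
      rw [← C_mul, inv_mul_cancel₀ hDα, C_1]
    linear_combination (C ((D.map φ).eval α)⁻¹) * h1 + h2
  obtain ⟨g1, hg1⟩ := dvd_iff_isRoot.2 (show IsRoot (f.map φ) α from hα)
  have hg1α : g1.eval α ≠ 0 := by
    have h1 := hf.eval₂_derivative_ne_zero (RingHom.id _) (x := α) (by rw [eval₂_id]; exact hα)
    rw [eval₂_id, hg1] at h1
    simpa using h1
  let K := FractionRing k[X]
  have hinj : Function.Injective (aeval x : k[X] →ₐ[k] E) := transcendental_iff_injective.1 hx
  let j : K →+* E := IsFractionRing.lift (A := k[X]) (K := K) (g := ((aeval x : k[X] →ₐ[k] E) : k[X] →+* E)) hinj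
  have hj : ∀ q : k[X], j (algebraMap k[X] K q) = aeval x q := fun q =>
    IsFractionRing.lift_algebraMap hinj q
  letI : Algebra K E := j.toAlgebra
  haveI : IsScalarTower k K E := IsScalarTower.of_algebraMap_eq (fun c => by
    have h1 : algebraMap k K c = algebraMap k[X] K (C c) := by
      rw [IsScalarTower.algebraMap_apply k k[X] K]
      rfl
    rw [h1]
    show _ = j _
    rw [hj, aeval_C])
  have haev : ∀ q : ℤ[X], aeval x (q.map φ) = aeval x q := fun q => by
    rw [hφ, aeval_map_algebraMap]
  have hy : aeval y (Gk.map (algebraMap k[X] K)) = 0 := by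
    rw [← hxy, aaev, aeval_def, eval₂_map, hGk, eval₂_map]
    congr 1
    refine RingHom.ext fun q => ?_
    show j (algebraMap k[X] K (q.map φ)) = aeval x q
    rw [hj, haev]
  refine not_sq (K := K) (E := E) (hG.map (mapRingHom φ)) hirr hsq hg1 hg1α hy (s := w) ?_ ?_
  · have hle : IntermediateField.adjoin k {x, y} ≤
        (IntermediateField.adjoin K {y}).restrictScalars k := by
      rw [IntermediateField.adjoin_le_iff]
      rintro z (rfl | hz)
      · have h1 : z = algebraMap K E (algebraMap k[X] K X) := by
          show z = j _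
          rw [hj, aeval_X]
        show z ∈ IntermediateField.adjoin K {y}
        rw [h1]
        exact (IntermediateField.adjoin K {y}).algebraMap_mem _
      · rw [Set.mem_singleton_iff] at hz
        rw [hz]
        exact IntermediateField.mem_adjoin_simple_self K y
    exact hle hw
  · rw [hww, ← haev]
    exact (hj _).symm

end Pool.Agent.Helper47.GX
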