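import Mathlib
import Pool.Agent.Helper47.GX.Nf

/-!
# The nonsplit places of the class `(x^(2m) + 1, r)` over a number field of odd degree
-/

set_option autoImplicit false

namespace Pool.Agent.Helper47.GX

open Polynomial NumberField IsDedekindDomain WithZero
open Pool.Agent.W858.SF

section

variable {L : Type} [Field L] [NumberField L]

/-- the places above `r` whose ramification index and residue degree are odd -/
def oddPlaces (L : Type) [Field L] [NumberField L] (r : ℕ) : Set (HeightOneSpectrum (𝓞 L)) :=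
  {w | (r : 𝓞 L) ∈ w.asIdeal ∧ Odd (Ideal.ramificationIdx' (Ideal.span {(r : ℤ)}) w.asIdeal *
    Ideal.inertiaDeg' (Ideal.span {(r : ℤ)}) w.asIdeal)}

theorem local_splits {r : ℕ} (hr : r.Prime) (h16 : 16 ∣ r - 1)
    (h2r : (2 : ZMod r) ^ ((r - 1) / 4) = -1) {m : ℕ} (hm : 0 < m) (w : HeightOneSpectrum (𝓞 L))
    {x z y : w.adicCompletion L} (hxz : x ≠ 0 ∨ z ≠ 0)
    (h : (r : w.adicCompletion L) * y ^ 2 = FF1 m x z * FF2 m x z) :
    ¬ Splits (val m x z) (r : w.adicCompletion L) ↔ w ∈ oddPlaces L r := by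
  have := Pool.Agent.Q52.SecW.henselian_vv w
  have := finite_residue w
  have hc0 : CharZero (w.adicCompletion L) := charZero_of_injective_algebraMap
    (algebraMap L (w.adicCompletion L)).injective
  have hr0 : (r : w.adicCompletion L) ≠ 0 := by exact_mod_cast hr.ne_zero
  have h2' : ∀ hw : ((2 : ℕ) : 𝓞 L) ∉ w.asIdeal,
      (2 : IsLocalRing.ResidueField (vv w).valuationSubring) ≠ 0 := by
    intro hw h0
    exact hw ((res_natCast w 2).1 (by exact_mod_cast h0))
  by_cases hw : (r : 𝓞 L) ∈ w.asIdeal
  · have h2w : ((2 : ℕ) : 𝓞 L) ∉ w.asIdeal := by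
      intro h3
      apply w.isPrime.ne_top
      rw [Ideal.eq_top_iff_one]
      obtain ⟨c, hc⟩ := h16
      have h1 := hr.one_lt
      have h4 : (1 : 𝓞 L) = (r : 𝓞 L) - ((8 * c : ℕ) : 𝓞 L) * ((2 : ℕ) : 𝓞 L) := by
        have h5 : r = 16 * c + 1 := by omega
        rw [h5]
        push_cast
        ring
      rw [h4]
      exact w.asIdeal.sub_mem hw (w.asIdeal.mul_mem_left _ h3)
    by_cases hev : EvenV (vv w) (r : w.adicCompletion L)
    · have h1 := even_place (vv w) (h2' h2w) hm hr0 hev hxz h
      have h3 := (evenV_iff w hr hw).1 hev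
      constructor
      · intro h4
        exact absurd h1 h4
      · rintro ⟨-, h4⟩
        exact absurd (h3.mul_right _) (Nat.not_even_iff_odd.2 h4)
    · have := charP_residue w hr hw
      have h1 := odd_place (vv w) hr h16 h2r (card_residue w hr hw) hm hev hxz h
      have h3 := (evenV_iff w hr hw).not.1 hev
      rw [h1, Nat.not_even_iff_odd]
      constructor
      · intro h4
        exact ⟨hw, (Nat.not_even_iff_odd.1 h3).mul h4⟩
      · rintro ⟨-, h4⟩
        exact (Nat.odd_mul.1 h4).2
  · have hsplit : Splits (val m x z) (r : w.adicCompletion L) := by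
      by_cases h2w : ((2 : ℕ) : 𝓞 L) ∈ w.asIdeal
      · refine two_place (vv w) ?_ hr.ne_zero ((by norm_num : 8 ∣ 16).trans h16) _
        have := (res_natCast w 2).2 h2w
        exact_mod_cast this
      · exact even_place (vv w) (h2' h2w) hm hr0 (evenV_one _ (vv_one_of_not_mem w hw)) hxz h
    constructor
    · intro h4
      exact absurd hsplit h4
    · rintro ⟨h4, -⟩
      exact absurd h4 hw

set_option linter.deprecated false in
theorem odd_count {r : ℕ} (hr : r.Prime) (hodd : Odd (Module.finrank ℚ L)) :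
    (oddPlaces L r).Finite ∧ Odd (oddPlaces L r).ncard := by
  classical
  have hp : Prime (r : ℤ) := Nat.prime_iff_prime_int.1 hr
  have hmax : (Ideal.span {(r : ℤ)}).IsMaximal :=
    ((Ideal.span_singleton_prime hp.ne_zero).2 hp).isMaximal (by
      rw [Ne, Ideal.span_singleton_eq_bot]
      exact hp.ne_zero)
  have hbot : Ideal.span {(r : ℤ)} ≠ ⊥ := by
    rw [Ne, Ideal.span_singleton_eq_bot]
    exact hp.ne_zero
  have hsum := Ideal.sum_ramification_inertia (𝓞 L) ℚ L hbot
  set s := IsDedekindDomain.primesOverFinset (Ideal.span {(r : ℤ)}) (𝓞 L) with hs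
  rw [← hsum, Finset.odd_sum_iff_odd_card_odd] at hodd
  have hinj : Function.Injective (fun w : HeightOneSpectrum (𝓞 L) => w.asIdeal) := by
    intro w w' h
    exact HeightOneSpectrum.ext h
  have himg : (fun w : HeightOneSpectrum (𝓞 L) => w.asIdeal) '' (oddPlaces L r) =
      (({x ∈ s | Odd (Ideal.ramificationIdx' (Ideal.span {(r : ℤ)}) x *
        Ideal.inertiaDeg' (Ideal.span {(r : ℤ)}) x)} : Finset (Ideal (𝓞 L))) :
          Set (Ideal (𝓞 L))) := by
    ext I
    simp only [Set.mem_image, Finset.coe_filter, Set.mem_setOf_eq]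
    constructor
    · rintro ⟨w, ⟨hw, hwo⟩, rfl⟩
      refine ⟨?_, hwo⟩
      rw [hs, IsDedekindDomain.mem_primesOverFinset_iff hbot]
      exact ⟨w.isPrime, liesOver_span w hr hw⟩
    · rintro ⟨hI, hIo⟩
      rw [hs, IsDedekindDomain.mem_primesOverFinset_iff hbot] at hI
      obtain ⟨h1, h3⟩ := hI
      have hrI : (r : 𝓞 L) ∈ I := by
        have h4 : (r : ℤ) ∈ Ideal.under ℤ I := by
          rw [← h3.over]
          exact Ideal.mem_span_singleton_self _
        rw [Ideal.under_def, Ideal.mem_comap, map_natCast] at h4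
        exact h4
      have hIb : I ≠ ⊥ := by
        rintro rfl
        rw [Ideal.mem_bot] at hrI
        exact hr.ne_zero (by exact_mod_cast hrI)
      exact ⟨⟨I, h1, hIb⟩, ⟨hrI, hIo⟩, rfl⟩
  have hfin : (oddPlaces L r).Finite := by
    refine Set.Finite.of_finite_image ?_ hinj.injOn
    rw [himg]
    exact Finset.finite_toSet _
  refine ⟨hfin, ?_⟩
  rw [← Set.ncard_image_of_injective _ hinj, himg, Set.ncard_coe_finset]
  exact hodd

theorem inf_splits {r : ℕ} (hr : 0 < r) (v : InfinitePlace L) (c : v.Completion) :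
    Splits c (r : v.Completion) := by
  have hc0 : CharZero v.Completion := charZero_of_injective_algebraMap
    (algebraMap L v.Completion).injective
  have hr0 : (r : v.Completion) ≠ 0 := by exact_mod_cast hr.ne'
  have hex : ∃ t : v.Completion, t ^ 2 = r := by
    by_cases hv : v.IsReal
    · let e := InfinitePlace.Completion.ringEquivRealOfIsReal hv
      refine ⟨e.symm (Real.sqrt r), ?_⟩
      apply e.injective
      rw [map_pow, e.apply_symm_apply, map_natCast, Real.sq_sqrt (Nat.cast_nonneg _)]
    · let e := InfinitePlace.Completion.ringEquivComplexOfIsComplex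
        (InfinitePlace.not_isReal_iff_isComplex.1 hv)
      refine ⟨e.symm ((Real.sqrt r : ℝ) : ℂ), ?_⟩
      apply e.injective
      rw [map_pow, e.apply_symm_apply, map_natCast, ← Complex.ofReal_pow,
        Real.sq_sqrt (Nat.cast_nonneg _)]
      simp
  obtain ⟨t, ht⟩ := hex
  refine splits_of_sq (t := t) two_ne_zero ?_ ht c
  rintro rfl
  rw [zero_pow two_ne_zero] at ht
  exact hr0 ht.symm

end

end Pool.Agent.Helper47.GX
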