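import Mathlib
import Pool.Agent.Helper47.GX.Scn
import Pool.Agent.Helper47.GX.Arith

/-!
# The curves `r w² = (x^(2m) + 1) (x^(2m) + 2 x^m + 3)` have no rational points
-/

set_option autoImplicit false

namespace Pool.Agent.Helper47.GX

open Polynomial

theorem sqf_part {s b c : ℤ} (hs : Squarefree s) (h : s * b = c ^ 2) {ℓ : ℕ} (hℓ : ℓ.Prime)
    (h1 : (ℓ : ℤ) ∣ s) (h2 : ¬ (ℓ : ℤ) ∣ b) : False := by
  have hz := Nat.prime_iff_prime_int.1 hℓ
  have h3 : (ℓ : ℤ) ∣ c := by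
    have : (ℓ : ℤ) ∣ c ^ 2 := by rw [← h]; exact h1.mul_right _
    exact hz.dvd_of_dvd_pow this
  have h4 : (ℓ : ℤ) * ℓ ∣ s * b := by
    rw [h, sq]
    exact mul_dvd_mul h3 h3
  have hco : IsCoprime ((ℓ : ℤ) * ℓ) b := by
    have := (hz.coprime_iff_not_dvd).2 h2
    exact this.mul_left this
  exact hz.not_isUnit (hs _ (hco.dvd_of_dvd_mul_right h4))

/-- if `a b` is a square and `a`, `b` have no common odd prime factor then `a` is no nonresidue -/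
theorem jac_ne {r : ℕ} (hr : r.Prime) (h8 : 8 ∣ r - 1) {a b W : ℤ} (ha : a ≠ 0)
    (h : a * b = W ^ 2) (hg : ∀ ℓ : ℕ, ℓ.Prime → ℓ ≠ 2 → (ℓ : ℤ) ∣ a → ¬ (ℓ : ℤ) ∣ b) :
    jacobiSym a r ≠ -1 := by
  obtain ⟨s, t, ht, hs, hst⟩ := Pool.Agent.W311.TW.exists_sqf a ha
  have hsq : IsSquare (s * b) := by
    rw [← Rat.isSquare_intCast_iff]
    refine ⟨(W : ℚ) / t, ?_⟩
    have ht' : (t : ℚ) ≠ 0 := by exact_mod_cast ht
    have h1 : (a : ℚ) * b = (W : ℚ) ^ 2 := by exact_mod_cast h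
    rw [hst] at h1
    push_cast at h1 ⊢
    field_simp
    linear_combination h1
  obtain ⟨c, hc⟩ := hsq
  have hjs : jacobiSym s r = 1 := by
    refine jac_int hr (M := 8) dvd_rfl h8 s hs.ne_zero ?_
    intro ℓ hℓ hℓs
    by_cases h2 : ℓ = 2
    · rw [h2]; norm_num
    · exfalso
      refine sqf_part hs (by rw [hc, sq]) hℓ hℓs (hg ℓ hℓ h2 ?_)
      rw [hst]
      exact hℓs.mul_right _
  rw [hst, jacobiSym.mul_left, hjs, one_mul, jacobiSym.pow_left]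
  intro h5
  have := sq_nonneg (jacobiSym t r)
  rw [h5] at this
  norm_num at this

theorem common (m : ℕ) (u v : ℤ) (huv : IsCoprime u v) {ℓ : ℕ} (hℓ : ℓ.Prime) (h2 : ℓ ≠ 2)
    (h1 : (ℓ : ℤ) ∣ u ^ (2 * m) + v ^ (2 * m)) :
    ¬ (ℓ : ℤ) ∣ u ^ (2 * m) + 2 * v ^ m * u ^ m + 3 * v ^ (2 * m) := by
  intro h3
  have hz := Nat.prime_iff_prime_int.1 hℓ
  have hℓ2 : ¬ (ℓ : ℤ) ∣ 2 := by
    intro h
    exact h2 ((Nat.prime_dvd_prime_iff_eq hℓ Nat.prime_two).1 (Int.natCast_dvd_natCast.1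
      (by exact_mod_cast h)))
  have h4 : (ℓ : ℤ) ∣ 2 * v ^ m * (u ^ m + v ^ m) := by
    have := dvd_sub h3 h1
    have e : u ^ (2 * m) + 2 * v ^ m * u ^ m + 3 * v ^ (2 * m) - (u ^ (2 * m) + v ^ (2 * m)) =
      2 * v ^ m * (u ^ m + v ^ m) := by ring
    rwa [e] at this
  have hv : ¬ (ℓ : ℤ) ∣ v := by
    intro h5
    have hm : m ≠ 0 := by
      rintro rfl
      simp only [mul_zero, pow_zero] at h1
      exact hℓ2 (by norm_num at h1; exact h1)
    have h6 : (ℓ : ℤ) ∣ u ^ (2 * m) := by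
      have h7 : (ℓ : ℤ) ∣ v ^ (2 * m) := dvd_pow h5 (by omega)
      exact (dvd_add_left h7).1 h1
    exact hz.not_isUnit (huv.isUnit_of_dvd' (hz.dvd_of_dvd_pow h6) h5)
  have hvm : ¬ (ℓ : ℤ) ∣ v ^ m := fun h => hv (hz.dvd_of_dvd_pow h)
  have h5 : (ℓ : ℤ) ∣ u ^ m + v ^ m := by
    rcases hz.dvd_or_dvd h4 with h | h
    · rcases hz.dvd_or_dvd h with h | h
      · exact absurd h hℓ2
      · exact absurd h hvm
    · exact h
  have h6 : (ℓ : ℤ) ∣ 2 * (v ^ m * v ^ m) := by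
    have h7 : u ^ (2 * m) + 2 * v ^ m * u ^ m + 3 * v ^ (2 * m) =
      (u ^ m + v ^ m) * (u ^ m + v ^ m) + 2 * (v ^ m * v ^ m) := by ring
    rw [h7] at h3
    exact (dvd_add_right (h5.mul_right _)).1 h3
  rcases hz.dvd_or_dvd h6 with h | h
  · exact hℓ2 h
  · rcases hz.dvd_or_dvd h with h | h
    · exact hvm h
    · exact hvm h

/-- values of the homogeneous forms modulo `r` -/
theorem jac_form {m r : ℕ} (hr : r.Prime) (h48 : 48 * m ∣ r - 1)
    (h2 : (2 : ZMod r) ^ ((r - 1) / 4) = -1) {i k : Fin 2} (hik : k ≠ i) (u v : ℤ)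
    (hv : ¬ (r : ℤ) ∣ v) (Q : Fin 2 → ℤ)
    (hQ : ∀ j, ∀ n w : ZMod r, w = v → n * w = u →
      ((Q j : ℤ) : ZMod r) = w ^ (2 * m) * ((ff m j).map (Int.castRingHom (ZMod r))).eval n)
    (h : (r : ℤ) ∣ Q i) : jacobiSym (Q k) r = -1 := by
  have := Fact.mk hr
  have hv0 : (v : ZMod r) ≠ 0 := by
    rw [Ne, ZMod.intCast_zmod_eq_zero_iff_dvd]
    exact hv
  obtain ⟨n, hn⟩ := ZMod.intCast_surjective ((u : ZMod r) / (v : ZMod r))
  have hnv : (n : ZMod r) * v = u := by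
    rw [hn, div_mul_cancel₀ _ hv0]
  have hev : ∀ j, ((Q j : ℤ) : ZMod r) = (v : ZMod r) ^ (2 * m) * (((ff m j).eval n : ℤ) : ZMod r) := by
    intro j
    rw [hQ j n v rfl hnv]
    congr 1
    have h5 : (((ff m j).eval n : ℤ) : ZMod r) = (Int.castRingHom (ZMod r)) ((ff m j).eval n) := rfl
    rw [h5, ← eval₂_at_apply, eval₂_eq_eval_map]
    rfl
  have hri : (r : ℤ) ∣ (ff m i).eval n := by
    rw [← ZMod.intCast_zmod_eq_zero_iff_dvd] at h ⊢
    rw [hev] at h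
    exact (mul_eq_zero.1 h).resolve_left (pow_ne_zero _ hv0)
  have h6 := nonres hr h48 h2 hik n hri
  have h7 : jacobiSym (Q k) r = jacobiSym (v ^ (2 * m) * (ff m k).eval n) r := by
    apply jacobiSym.mod_left'
    have := hev k
    have e : ((Q k : ℤ) : ZMod r) = ((v ^ (2 * m) * (ff m k).eval n : ℤ) : ZMod r) := by
      rw [this]; push_cast; rfl
    exact (ZMod.intCast_eq_intCast_iff' _ _ _).1 e
  have h8 : IsCoprime v r := by
    rw [isCoprime_comm]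
    exact ((Nat.prime_iff_prime_int.1 hr).coprime_iff_not_dvd).2 hv
  have h9 : jacobiSym v r ^ 2 = 1 := jacobiSym.sq_one (Int.isCoprime_iff_gcd_eq_one.1 h8)
  rw [h7, jacobiSym.mul_left, h6, jacobiSym.pow_left, pow_mul, h9, one_pow, one_mul]

theorem no_rat {m r : ℕ} (hm : 0 < m) (hr : r.Prime) (h48 : 48 * m ∣ r - 1)
    (h2 : (2 : ZMod r) ^ ((r - 1) / 4) = -1) (x y : ℚ)
    (h : (r : ℚ) * y ^ 2 = aeval x (P1 m 0 1 : ℤ[X]) * aeval x (P2 m 0 1 : ℤ[X])) : False := by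
  have hF := Fact.mk hr
  have hrz := Nat.prime_iff_prime_int.1 hr
  have h8 : 8 ∣ r - 1 := (Dvd.intro (6 * m) (by ring)).trans h48
  have hr1 := hr.one_lt
  have hr2 : r ≠ 2 := by
    rintro rfl
    have := Nat.le_of_dvd (by norm_num) h8
    omega
  set u : ℤ := x.num with hu
  set v : ℤ := (x.den : ℤ) with hv
  have hv0 : v ≠ 0 := by
    rw [hv]; exact_mod_cast x.den_ne_zero
  have huv : IsCoprime u v := by
    rw [Int.isCoprime_iff_gcd_eq_one]
    exact x.reduced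
  have hvQ : (v : ℚ) ≠ 0 := by exact_mod_cast hv0
  have hx : x = u / v := by
    rw [hu, hv]
    exact_mod_cast (Rat.num_div_den x).symm
  set p1 : ℤ := u ^ (2 * m) + v ^ (2 * m) with hp1
  set p2 : ℤ := u ^ (2 * m) + 2 * v ^ m * u ^ m + 3 * v ^ (2 * m) with hp2
  have hvm : 0 < v ^ (2 * m) := by
    rw [pow_mul]
    exact pow_pos (by positivity) _
  have hum : 0 ≤ u ^ (2 * m) := by
    rw [pow_mul]
    exact pow_nonneg (sq_nonneg _) _
  have hp1pos : 0 < p1 := by rw [hp1]; omega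
  have hp2pos : 0 < p2 := by
    have e : p2 = (u ^ m + v ^ m) ^ 2 + 2 * v ^ (2 * m) := by rw [hp2]; ring
    rw [e]
    have := sq_nonneg (u ^ m + v ^ m)
    omega
  rw [aeval_P1, aeval_P2] at h
  have hZ : ((r : ℚ) * y * v ^ (2 * m)) ^ 2 = ((r * (p1 * p2) : ℤ) : ℚ) := by
    have e1 : ((p1 : ℤ) : ℚ) = v ^ (2 * m) * (x ^ (2 * m) + 1) := by
      rw [hp1, hx, div_pow]
      push_cast
      field_simp
    have e2 : ((p2 : ℤ) : ℚ) = v ^ (2 * m) * (x ^ (2 * m) + 2 * x ^ m + 3) := by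
      rw [hp2, hx, div_pow, div_pow]
      push_cast
      have : (v : ℚ) ^ (2 * m) = v ^ m * v ^ m := by rw [← pow_add]; congr 1; ring
      field_simp
      rw [this]
      ring
    push_cast at h ⊢
    rw [e1, e2]
    simp only [sub_zero, one_pow, mul_one] at h
    linear_combination (r : ℚ) * v ^ (2 * m) * v ^ (2 * m) * h
  obtain ⟨Z, hZ'⟩ : IsSquare ((r : ℤ) * (p1 * p2)) := by
    rw [← Rat.isSquare_intCast_iff]
    exact ⟨_, by rw [← hZ, sq]⟩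
  have hrZ : (r : ℤ) ∣ Z := by
    have : (r : ℤ) ∣ Z ^ 2 := by rw [sq, ← hZ']; exact dvd_mul_right _ _
    exact hrz.dvd_of_dvd_pow this
  obtain ⟨W, rfl⟩ := hrZ
  have hr0 : (r : ℤ) ≠ 0 := by exact_mod_cast hr.ne_zero
  have hW : p1 * p2 = r * W ^ 2 := by
    apply mul_left_cancel₀ hr0
    rw [hZ']
    ring
  have hvr : ¬ (r : ℤ) ∣ v := by
    intro h5
    have h6 : (r : ℤ) ∣ v ^ m := dvd_pow h5 (by omega)
    have h6' : (r : ℤ) ∣ v ^ (2 * m) := dvd_pow h5 (by omega)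
    have h7 : (r : ℤ) ∣ p1 * p2 := by rw [hW]; exact dvd_mul_right _ _
    have h8 : (r : ℤ) ∣ u ^ (2 * m) := by
      rcases hrz.dvd_or_dvd h7 with h | h
      · exact (dvd_add_left h6').1 h
      · have e : p2 = u ^ (2 * m) + (2 * u ^ m * v ^ m + 3 * v ^ (2 * m)) := by rw [hp2]; ring
        rw [e] at h
        exact (dvd_add_left (dvd_add (h6.mul_left _) (h6'.mul_left _))).1 h
    exact hrz.not_isUnit (huv.isUnit_of_dvd' (hrz.dvd_of_dvd_pow h8) h5)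
  have hQ : ∀ j, ∀ n w : ZMod r, w = v → n * w = u →
      (((![p1, p2] : Fin 2 → ℤ) j : ℤ) : ZMod r) =
        w ^ (2 * m) * ((ff m j).map (Int.castRingHom (ZMod r))).eval n := by
    intro j n w hw hnw
    fin_cases j
    · have e : ((ff m 0).map (Int.castRingHom (ZMod r))) = P1 m 0 1 := by
        rw [show ff m 0 = P1 m 0 1 from rfl, map_P1, map_zero, map_one]
      simp only [Fin.zero_eta, Matrix.cons_val_zero]
      rw [e, eval_P1, hp1]
      push_cast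
      rw [← hnw, ← hw, sub_zero, one_pow, mul_pow]
      ring
    · have e : ((ff m 1).map (Int.castRingHom (ZMod r))) = P2 m 0 1 := by
        rw [show ff m 1 = P2 m 0 1 from rfl, map_P2, map_zero, map_one]
      simp only [Fin.mk_one, Matrix.cons_val_one, Matrix.cons_val_fin_one]
      rw [e, eval_P2, hp2]
      push_cast
      rw [← hnw, ← hw, sub_zero, one_pow, one_pow, mul_pow, mul_pow]
      ring
  have hcm : ∀ ℓ : ℕ, ℓ.Prime → ℓ ≠ 2 → (ℓ : ℤ) ∣ p1 → ¬ (ℓ : ℤ) ∣ p2 := fun ℓ hℓ h2 h3 =>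
    common m u v huv hℓ h2 h3
  have hrp : (r : ℤ) ∣ p1 * p2 := by rw [hW]; exact dvd_mul_right _ _
  rcases hrz.dvd_or_dvd hrp with h5 | h5
  · have h6 := jac_form hr h48 h2 (i := 0) (k := 1) (by decide) u v hvr ![p1, p2] hQ h5
    obtain ⟨q, hq⟩ := h5
    refine jac_ne hr h8 (a := p2) (b := q) (W := W) hp2pos.ne' ?_ ?_ h6
    · apply mul_left_cancel₀ hr0
      rw [← hW, hq]
      ring
    · intro ℓ hℓ hℓ2 h7 h8
      exact hcm ℓ hℓ hℓ2 (by rw [hq]; exact h8.mul_left _) h7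
  · have h6 := jac_form hr h48 h2 (i := 1) (k := 0) (by decide) u v hvr ![p1, p2] hQ h5
    obtain ⟨q, hq⟩ := h5
    refine jac_ne hr h8 (a := p1) (b := q) (W := W) hp1pos.ne' ?_ ?_ h6
    · apply mul_left_cancel₀ hr0
      rw [← hW, hq]
      ring
    · intro ℓ hℓ hℓ2 h7 h8
      exact hcm ℓ hℓ hℓ2 h7 (by rw [hq]; exact h8.mul_left _)

end Pool.Agent.Helper47.GX
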