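import Mathlib
import Pool.Agent.Helper47.GX.Rat
import Pool.Agent.Helper47.GX.Geo

/-!
# The substitution `x ↦ a + b x`
-/

set_option autoImplicit false

namespace Pool.Agent.Helper47.GX

open Pool.Agent.W620.SC Polynomial

universe v w

theorem subst {K : Type*} [Field K] [CharZero K] {m r : ℕ} (hr : r ≠ 0) {a b : ℤ} (hb : b ≠ 0)
    {x y : K} (h : y ^ 2 = aeval x (ffin m r a b)) :
    (r : K) * (y / (r * (b : K) ^ (2 * m))) ^ 2 =
      aeval ((x - a) / b) (P1 m 0 1 : ℤ[X]) * aeval ((x - a) / b) (P2 m 0 1 : ℤ[X]) := by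
  have hr0 : (r : K) ≠ 0 := by exact_mod_cast hr
  have hb0 : (b : K) ≠ 0 := by exact_mod_cast hb
  rw [aeval_P1, aeval_P2, div_pow, h, aeval_ffin]
  push_cast
  rw [sub_zero, one_pow, one_pow, mul_one]
  obtain ⟨z, hz⟩ : ∃ z : K, x - a = z * b := ⟨(x - a) / b, by field_simp⟩
  have hz2 : z * (b : K) / b = z := mul_div_cancel_right₀ _ hb0
  rw [hz, hz2, mul_pow, mul_pow]
  obtain ⟨c, hc⟩ : ∃ c : K, (b : K) ^ m = c := ⟨_, rfl⟩
  obtain ⟨t, ht⟩ : ∃ t : K, z ^ m = t := ⟨_, rfl⟩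
  have hc0 : c ≠ 0 := by rw [← hc]; exact pow_ne_zero _ hb0
  have h2 : (b : K) ^ (2 * m) = c ^ 2 := by rw [← hc, ← pow_mul, mul_comm]
  have h3 : z ^ (2 * m) = t ^ 2 := by rw [← ht, ← pow_mul, mul_comm]
  rw [h2, h3, hc, ht]
  field_simp

theorem no_rat' {m r : ℕ} (hm : 0 < m) (hr : r.Prime) (h48 : 48 * m ∣ r - 1)
    (h2 : (2 : ZMod r) ^ ((r - 1) / 4) = -1) {a b : ℤ} (hb : b ≠ 0) {x y : ℚ}
    (h : y ^ 2 = aeval x (ffin m r a b)) : False :=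
  no_rat hm hr h48 h2 _ _ (subst hr.ne_zero hb h)

theorem no_section' {m r : ℕ} (hm : 0 < m) (hr : r.Prime) (h48 : 48 * m ∣ r - 1)
    (h2 : (2 : ZMod r) ^ ((r - 1) / 4) = -1) {a b : ℤ} (hb : b ≠ 0)
    (F : Type v) (Ω : Type w) [Field F] [Field Ω] [Algebra ℚ F]
    [Algebra F Ω] [Algebra ℚ Ω] [IsScalarTower ℚ F Ω] [IsAlgClosed Ω] [Algebra.IsAlgebraic F Ω]
    (U : Set (ValuationSubring F)) (hU : ∀ O ∈ U, ∀ c : ℚ, algebraMap ℚ F c ∈ O)
    (G : GSection ℚ F Ω U) {x y : F} (h : y ^ 2 = aeval x (ffin m r a b))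
    (hx : Transcendental ℚ x) : False := by
  have : CharZero F := charZero_of_injective_algebraMap (algebraMap ℚ F).injective
  have hb0 : (b : F) ≠ 0 := by exact_mod_cast hb
  refine no_section hm hr h48 h2 F Ω U hU G _ _ (subst hr.ne_zero hb h) ?_
  intro h1
  apply hx
  have h3 : IsAlgebraic ℚ (algebraMap ℚ F b * ((x - a) / b) + algebraMap ℚ F a) :=
    ((isAlgebraic_algebraMap (b : ℚ)).mul h1).add (isAlgebraic_algebraMap (a : ℚ))
  have h4 : algebraMap ℚ F b * ((x - a) / b) + algebraMap ℚ F a = x := by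
    rw [map_intCast, map_intCast]
    field_simp
    ring
  rwa [h4] at h3

theorem real_pos {m r : ℕ} (hr : 0 < r) {a b : ℤ} (hb : b ≠ 0) (x : ℝ) :
    0 < aeval x (ffin m r a b) := by
  rw [aeval_ffin]
  have hb0 : (b : ℝ) ≠ 0 := by exact_mod_cast hb
  have hr0 : (0 : ℝ) < r := by exact_mod_cast hr
  have h1 : 0 < (b : ℝ) ^ (2 * m) := by
    rw [pow_mul]
    positivity
  have h2 : 0 ≤ (x - a) ^ (2 * m) := by
    rw [pow_mul]
    positivity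
  have h3 : (x - a) ^ (2 * m) + 2 * (b : ℝ) ^ m * (x - a) ^ m + 3 * (b : ℝ) ^ (2 * m) =
      ((x - a) ^ m + (b : ℝ) ^ m) ^ 2 + 2 * (b : ℝ) ^ (2 * m) := by ring
  rw [h3]
  have h4 : 0 ≤ ((x - a) ^ m + (b : ℝ) ^ m) ^ 2 := sq_nonneg _
  positivity

end Pool.Agent.Helper47.GX
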