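import Mathlib
import Pool.Agent.Helper47.GX.Sub
import Pool.Agent.Helper47.GX.Nf2

/-!
# Homogeneous forms, and the class `(P1, r)` is unramified
-/

set_option autoImplicit false

namespace Pool.Agent.Helper47.GX

open Polynomial

section form

/-- the binary form of degree `deg f` belonging to `f` -/
def form (f : ℤ[X]) {K : Type} [Field K] (x z : K) : K :=
  ∑ i ∈ Finset.range (f.natDegree + 1), (f.coeff i : K) * x ^ i * z ^ (f.natDegree - i)

variable {K : Type} [Field K] [CharZero K]

theorem form_of_ne (f : ℤ[X]) (x : K) {z : K} (hz : z ≠ 0) :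
    form f x z = z ^ f.natDegree * aeval (x / z) f := by
  rw [aeval_eq_sum_range, Finset.mul_sum, form]
  refine Finset.sum_congr rfl fun i hi => ?_
  have hi' : i ≤ f.natDegree := Nat.lt_succ_iff.1 (Finset.mem_range.1 hi)
  rw [zsmul_eq_mul, div_pow]
  have : z ^ f.natDegree = z ^ (f.natDegree - i) * z ^ i := by
    rw [← pow_add, Nat.sub_add_cancel hi']
  rw [this]
  have hzi : z ^ i ≠ 0 := pow_ne_zero _ hz
  field_simp

theorem form_zero (f : ℤ[X]) (x : K) : form f x 0 = (f.leadingCoeff : K) * x ^ f.natDegree := by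
  rw [form, Finset.sum_eq_single f.natDegree]
  · rw [Nat.sub_self, pow_zero, mul_one]
    rfl
  · intro i hi hne
    have hi' : i ≤ f.natDegree := Nat.lt_succ_iff.1 (Finset.mem_range.1 hi)
    rw [zero_pow (by omega), mul_zero]
  · intro h
    exact absurd (Finset.mem_range.2 (Nat.lt_succ_self _)) h

theorem natDegree_P1' {m : ℕ} (hm : 0 < m) (a b : ℤ) : (P1 m a b : ℤ[X]).natDegree = 2 * m := by
  have h1 : ((X - C a : ℤ[X]) ^ (2 * m)).natDegree = 2 * m := by
    rw [(monic_X_sub_C a).natDegree_pow, natDegree_X_sub_C, mul_one]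
  rw [P1, natDegree_add_C, h1]

theorem natDegree_P2' {m : ℕ} (hm : 0 < m) (a b : ℤ) : (P2 m a b : ℤ[X]).natDegree = 2 * m := by
  have h1 : ((X - C a : ℤ[X]) ^ (2 * m)).natDegree = 2 * m := by
    rw [(monic_X_sub_C a).natDegree_pow, natDegree_X_sub_C, mul_one]
  have h2 : ((X - C a : ℤ[X]) ^ m).natDegree = m := by
    rw [(monic_X_sub_C a).natDegree_pow, natDegree_X_sub_C, mul_one]
  rw [P2, natDegree_add_eq_left_of_natDegree_lt, h1]
  rw [natDegree_add_C, h1]
  refine (natDegree_C_mul_le _ _).trans_lt ?_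
  rw [h2]
  omega

theorem form_P1 {m : ℕ} (hm : 0 < m) (a b : ℤ) (x z : K) :
    form (P1 m a b) x z = FF1 m (x - a * z) (b * z) := by
  by_cases hz : z = 0
  · subst hz
    rw [form_zero, (monic_P1 hm a b).leadingCoeff, natDegree_P1' hm, FF1, mul_zero, mul_zero,
      sub_zero, zero_pow (by omega)]
    simp
  · rw [form_of_ne _ _ hz, natDegree_P1' hm, aeval_P1, FF1]
    have h1 : x - a * z = z * (x / z - a) := by field_simp
    rw [h1, mul_pow, mul_pow]
    ring

theorem form_P2 {m : ℕ} (hm : 0 < m) (a b : ℤ) (x z : K) :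
    form (P2 m a b) x z = FF2 m (x - a * z) (b * z) := by
  by_cases hz : z = 0
  · subst hz
    rw [form_zero, (monic_P2 hm a b).leadingCoeff, natDegree_P2' hm, FF2, mul_zero, mul_zero,
      sub_zero, zero_pow (by omega), zero_pow (by omega)]
    simp
  · rw [form_of_ne _ _ hz, natDegree_P2' hm, aeval_P2, FF2]
    have h1 : x - a * z = z * (x / z - a) := by field_simp
    rw [h1, mul_pow, mul_pow, mul_pow, mul_pow, pow_mul z]
    have h2 : z ^ (2 * m) = z ^ m * z ^ m := by rw [two_mul, pow_add]
    rw [← pow_mul, h2]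
    ring

theorem natDegree_ffin' {m r : ℕ} (hm : 0 < m) (hr : r ≠ 0) (a b : ℤ) :
    (ffin m r a b).natDegree = 4 * m := by
  rw [ffin, natDegree_C_mul (by exact_mod_cast hr), (monic_P1 hm a b).natDegree_mul
    (monic_P2 hm a b), natDegree_P1' hm, natDegree_P2' hm]
  ring

theorem form_ffin {m r : ℕ} (hm : 0 < m) (hr : r ≠ 0) (a b : ℤ) (x z : K) :
    form (ffin m r a b) x z =
      r * (FF1 m (x - a * z) (b * z) * FF2 m (x - a * z) (b * z)) := by
  by_cases hz : z = 0
  · subst hz
    rw [← form_P1 hm, ← form_P2 hm, form_zero, form_zero, form_zero, natDegree_ffin' hm hr,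
      natDegree_P1' hm, natDegree_P2' hm, ffin, leadingCoeff_mul, leadingCoeff_C, leadingCoeff_mul,
      (monic_P1 hm a b).leadingCoeff, (monic_P2 hm a b).leadingCoeff]
    push_cast
    have : x ^ (4 * m) = x ^ (2 * m) * x ^ (2 * m) := by
      rw [← pow_add]
      congr 1
      ring
    rw [this]
    ring
  · rw [← form_P1 hm, ← form_P2 hm, form_of_ne _ _ hz, form_of_ne _ _ hz, form_of_ne _ _ hz,
      natDegree_ffin' hm hr, natDegree_P1' hm, natDegree_P2' hm, ffin, map_mul, map_mul, aeval_C]
    have : z ^ (4 * m) = z ^ (2 * m) * z ^ (2 * m) := by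
      rw [← pow_add]
      congr 1
      ring
    rw [this]
    simp only [algebraMap_int_eq, eq_intCast, Int.cast_natCast]
    ring

end form

section unr

variable {F : Type*} [Field F] [Algebra ℚ F]

theorem unr {m r : ℕ} (hm : 0 < m) (hr : r ≠ 0) {a b : ℤ} (hb : b ≠ 0) {x w : F}
    (hw : w ^ 2 = aeval x (ffin m r a b)) (O : ValuationSubring F)
    (hO : ∀ c : ℚ, algebraMap ℚ F c ∈ O) :
    ∃ t : F, O.valuation (aeval x (P1 m a b : ℤ[X])) = O.valuation t ^ 2 := by
  have hle : ∀ c : ℚ, O.valuation (algebraMap ℚ F c) ≤ 1 := fun c =>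
    (ValuationSubring.valuation_le_one_iff O _).2 (hO c)
  have hone : ∀ c : ℚ, c ≠ 0 → O.valuation (algebraMap ℚ F c) = 1 := by
    intro c hc
    refine le_antisymm (hle c) ?_
    have h1 : O.valuation (algebraMap ℚ F c) * O.valuation (algebraMap ℚ F c⁻¹) = 1 := by
      rw [← map_mul, ← map_mul, mul_inv_cancel₀ hc, map_one, map_one]
    calc (1 : O.ValueGroup) = O.valuation (algebraMap ℚ F c) * O.valuation (algebraMap ℚ F c⁻¹) :=
          h1.symm
      _ ≤ O.valuation (algebraMap ℚ F c) * 1 := mul_le_mul_right (hle _) _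
      _ = _ := mul_one _
  have vb : O.valuation (b : F) = 1 := by
    have := hone b (by exact_mod_cast hb)
    rwa [map_intCast] at this
  have v2 : O.valuation (2 : F) = 1 := by
    have := hone 2 (by norm_num)
    rwa [map_ofNat] at this
  have vr : O.valuation (r : F) = 1 := by
    have := hone r (by exact_mod_cast hr)
    rwa [map_natCast] at this
  rw [aeval_ffin] at hw
  rw [aeval_P1]
  have vbm : ∀ n : ℕ, O.valuation ((b : F) ^ n) = 1 := fun n => by rw [map_pow, vb, one_pow]
  rcases lt_or_ge 1 (O.valuation (x - a)) with h | h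
  · refine ⟨(x - a) ^ m, ?_⟩
    have h1 : O.valuation ((b : F) ^ (2 * m)) < O.valuation ((x - a) ^ (2 * m)) := by
      rw [vbm, map_pow]
      exact one_lt_pow' h (by omega)
    rw [Valuation.map_add_eq_of_lt_left _ h1, ← map_pow, ← pow_mul, mul_comm m 2]
  · rcases lt_or_ge (O.valuation ((x - a) ^ (2 * m) + (b : F) ^ (2 * m))) 1 with h1 | h1
    · have h2 : O.valuation ((x - a) ^ (2 * m) + 2 * (b : F) ^ m * (x - a) ^ m +
          3 * (b : F) ^ (2 * m)) = 1 := by
        have hle1 : O.valuation ((x - a) ^ (2 * m) + 2 * (b : F) ^ m * (x - a) ^ m +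
          3 * (b : F) ^ (2 * m)) ≤ 1 := by
          refine (Valuation.map_add _ _ _).trans (max_le ((Valuation.map_add _ _ _).trans
            (max_le ?_ ?_)) ?_)
          · rw [map_pow]
            exact pow_le_one' h _
          · rw [map_mul, map_mul, v2, vbm, one_mul, one_mul, map_pow]
            exact pow_le_one' h _
          · rw [map_mul, vbm, mul_one]
            have := hle 3
            rwa [map_ofNat] at this
        refine le_antisymm hle1 (not_lt.1 fun h3 => ?_)
        have h4 : O.valuation ((x - a) ^ m + (b : F) ^ m) < 1 := by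
          have h5 : O.valuation (2 * (b : F) ^ m * ((x - a) ^ m + (b : F) ^ m)) < 1 := by
            have h6 : 2 * (b : F) ^ m * ((x - a) ^ m + (b : F) ^ m) =
                ((x - a) ^ (2 * m) + 2 * (b : F) ^ m * (x - a) ^ m + 3 * (b : F) ^ (2 * m)) -
                ((x - a) ^ (2 * m) + (b : F) ^ (2 * m)) := by
              ring
            rw [h6]
            exact (Valuation.map_sub _ _ _).trans_lt (max_lt h3 h1)
          rwa [map_mul, map_mul, v2, vbm, one_mul, one_mul] at h5
        have h7 : O.valuation ((b : F) ^ (2 * m) * 2) < 1 := by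
          have h8 : (b : F) ^ (2 * m) * 2 = ((x - a) ^ (2 * m) + (b : F) ^ (2 * m)) -
              ((x - a) ^ m + (b : F) ^ m) * ((x - a) ^ m - (b : F) ^ m) := by
            ring
          rw [h8]
          refine (Valuation.map_sub _ _ _).trans_lt (max_lt h1 ?_)
          rw [map_mul]
          have h9 : O.valuation ((x - a) ^ m - (b : F) ^ m) ≤ 1 := by
            refine (Valuation.map_sub _ _ _).trans (max_le ?_ ?_)
            · rw [map_pow]
              exact pow_le_one' h _
            · rw [vbm]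
          exact mul_lt_one_of_lt_of_le h4 h9
        rw [map_mul, vbm, v2, one_mul] at h7
        exact lt_irrefl _ h7
      refine ⟨w, ?_⟩
      rw [← map_pow, hw, map_mul, map_mul, h2, vr, one_mul, mul_one]
    · refine ⟨1, ?_⟩
      rw [map_one, one_pow]
      refine le_antisymm ?_ h1
      refine (Valuation.map_add _ _ _).trans (max_le ?_ ?_)
      · rw [map_pow]
        exact pow_le_one' h _
      · rw [vbm]

end unr

end Pool.Agent.Helper47.GX
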